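import Mathlib
import Pool.Agent.H64.AugIdeal.Annih

/-!
# Definitions for the statement: Fox derivatives, convolution by a matrix on `ℓ²`
-/

namespace Pool.Agent.H64.CR

open Pool.Agent.H64.AugIdeal

variable {n k m : ℕ}

/-- `ℓ²(F_n)^m`, as the Hilbert space `ℓ²({1..m} × F_n)` (Mathlib's `lp` space with exponent
`2`). -/
def L2 (n m : ℕ) : Type := lp (fun _ : Fin m × FreeGroup (Fin n) => ℂ) 2

/-- The `ℓ²`-norm, and the topology of this norm (see `L2.norm_sq`). -/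
noncomputable instance (n m : ℕ) : NormedAddCommGroup (L2 n m) :=
  (inferInstance : NormedAddCommGroup (lp (fun _ : Fin m × FreeGroup (Fin n) => ℂ) 2))

/-- The function underlying an element of `ℓ²(F_n)^m`. -/
def L2.fn (f : L2 n m) : Fin m × FreeGroup (Fin n) → ℂ := Subtype.val f

/-- Finite second moment: `∑_g |g|² |x(g)| < ∞`, `|g|` the word length. -/
def SecondMoment (x : L1 n) : Prop := Summable fun g => (FreeGroup.norm g : ℝ) ^ 2 * ‖x g‖

/-- Finite moment of order `1/2`: `∑_g |g|^{1/2} |x(g)| < ∞`. -/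
def HalfMoment (x : L1 n) : Prop := Summable fun g => √(FreeGroup.norm g : ℝ) * ‖x g‖

/-- Finite first moment: `∑_g |g| |x(g)| < ∞`. -/
def FirstMoment (x : L1 n) : Prop := Summable fun g => (FreeGroup.norm g : ℝ) * ‖x g‖

/-- The first moment: `∑_g |g| |x(g)|`. -/
noncomputable def mom (x : L1 n) : ℝ := ∑' g, (FreeGroup.norm g : ℝ) * ‖x g‖

/-- The moment of order `1/2`: `∑_g |g|^{1/2} |f(g)|`. -/
noncomputable def half (f : L1 n) : ℝ := ∑' g, √(FreeGroup.norm g : ℝ) * ‖f g‖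

/-- The truncated moment `∑_g min(|g|^{1/2}, B) |f(g)|`. -/
noncomputable def trunc (B : ℝ) (f : L1 n) : ℝ :=
  ∑' g, min (√(FreeGroup.norm g : ℝ)) B * ‖f g‖

/-- The norm of `(y_1, …, y_k)` in `ℓ²(F_n)^k`: `(∑_j ∑_g |y_j(g)|²)^{1/2}`. -/
noncomputable def norm2 (y : Fin k → L1 n) : ℝ := √(∑ j, ∑' g, ‖y j g‖ ^ 2)

/-- The error `δ_{a_i} - δ_e - ∑_j x_j * y_j`. -/
noncomputable def err (x y : Fin k → L1 n) (i : Fin n) : L1 n :=
  pt (FreeGroup.of i) - pt 1 - ∑ j, conv (x j) (y j)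

/-- `x_j = ∑_i (δ_{a_i} - δ_e) * w_{ij}` for all `j`. -/
def IsFox (x : Fin k → L1 n) (w : Fin n → Fin k → L1 n) : Prop :=
  ∀ j, x j = ∑ i, conv (pt (FreeGroup.of i) - pt 1) (w i j)

/-- Left convolution by a matrix: `(i, g) ↦ ∑_j (w_{ij} * y_j)(g)`. -/
noncomputable def convM (w : Fin m → Fin k → L1 n) (y : Fin k × FreeGroup (Fin n) → ℂ)
    (p : Fin m × FreeGroup (Fin n)) : ℂ :=
  ∑ j, ∑' h, w p.1 j h * y (j, h⁻¹ * p.2)

/-- `f = W y`: `f_i = ∑_j w_{ij} * y_j` for all `i`. -/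
def IsImage (w : Fin m → Fin k → L1 n) (y : L2 n k) (f : L2 n m) : Prop :=
  ∀ p, f.fn p = convM w y.fn p

/-- `W : y ↦ (∑_j w_{ij} * y_j)_i` is a bounded operator from `ℓ²(F_n)^k` to `ℓ²(F_n)^m`. -/
def IsBoundedOp (w : Fin m → Fin k → L1 n) : Prop :=
  ∃ C : ℝ, ∀ y : L2 n k, ∃ f : L2 n m, IsImage w y f ∧ ‖f‖ ≤ C * ‖y‖

/-- The operator `W : ℓ²(F_n)^k → ℓ²(F_n)^m` has closed range. -/
def HasClosedRange (w : Fin m → Fin k → L1 n) : Prop :=
  IsClosed {f : L2 n m | ∃ y : L2 n k, IsImage w y f}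

end Pool.Agent.H64.CR
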