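import Mathlib
import Pool.Agent.H64.CR.Defs

/-!
# `ℓ²({1..m} × F_n)`: translations, point masses, elementary operators
-/

namespace Pool.Agent.H64.CR

open Pool.Agent.H64.AugIdeal

variable {n m m' : ℕ}

/-- `ℓ²(F_n)^m` in the proofs: `L2 n m` written out. -/
noncomputable abbrev HH (n m : ℕ) := lp (fun _ : Fin m × FreeGroup (Fin n) => ℂ) 2

theorem HH.summable_sq (f : HH n m) : Summable fun p => ‖f p‖ ^ 2 := by
  have h := (lp.memℓp f).summable (by norm_num)
  simpa using h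

theorem HH.norm_sq (f : HH n m) : ‖f‖ ^ 2 = ∑' p, ‖f p‖ ^ 2 := by
  have h := lp.norm_rpow_eq_tsum (p := 2) (by norm_num) f
  simpa using h

/-- The element of `HH` given by a square-summable function. -/
noncomputable def mk (f : Fin m × FreeGroup (Fin n) → ℂ) (hf : Summable fun p => ‖f p‖ ^ 2) :
    HH n m :=
  ⟨f, by
    apply memℓp_gen
    simpa using hf⟩

@[simp] theorem mk_apply (f : Fin m × FreeGroup (Fin n) → ℂ)
    (hf : Summable fun p => ‖f p‖ ^ 2) (p) : mk f hf p = f p := rfl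

theorem norm_le_of_sq {f : HH n m} {f' : HH n m'} {C : ℝ} (hC : 0 ≤ C)
    (h : ‖f‖ ^ 2 ≤ C ^ 2 * ‖f'‖ ^ 2) : ‖f‖ ≤ C * ‖f'‖ := by
  rw [← mul_pow] at h
  exact (pow_le_pow_iff_left₀ (norm_nonneg _) (by positivity) two_ne_zero).1 h

/-- Partial sums over `{1..m'} × F_n` of a weighted shifted function. -/
theorem opf_summable (i : Fin m') (j : Fin m) (h : FreeGroup (Fin n))
    {c : FreeGroup (Fin n) → ℂ} {C : ℝ} (hC : 0 ≤ C) (hc : ∀ g, ‖c g‖ ≤ C) (f : HH n m) :
    Summable (fun p : Fin m' × FreeGroup (Fin n) =>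
      ‖if p.1 = i then c p.2 * f (j, h⁻¹ * p.2) else 0‖ ^ 2) ∧
    ∑' p : Fin m' × FreeGroup (Fin n),
      ‖if p.1 = i then c p.2 * f (j, h⁻¹ * p.2) else 0‖ ^ 2 ≤ C ^ 2 * ‖f‖ ^ 2 := by
  classical
  have h0 : Summable fun g : FreeGroup (Fin n) => ‖f (j, g)‖ ^ 2 :=
    (HH.summable_sq f).comp_injective (i := fun g => (j, g)) (fun a b hab => (Prod.mk.inj hab).2)
  have h0' : ∑' g : FreeGroup (Fin n), ‖f (j, g)‖ ^ 2 ≤ ‖f‖ ^ 2 := by
    rw [HH.norm_sq]
    exact h0.tsum_le_tsum_of_inj (fun g => (j, g)) (fun a b hab => (Prod.mk.inj hab).2)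
      (fun _ _ => by positivity) (fun _ => le_rfl) (HH.summable_sq f)
  have h1 : Summable fun g : FreeGroup (Fin n) => ‖f (j, h⁻¹ * g)‖ ^ 2 :=
    ((Equiv.mulLeft h⁻¹).summable_iff (f := fun g => ‖f (j, g)‖ ^ 2)).2 h0
  have h1' : ∑' g : FreeGroup (Fin n), ‖f (j, h⁻¹ * g)‖ ^ 2 ≤ ‖f‖ ^ 2 := by
    refine le_trans (le_of_eq ?_) h0'
    exact (Equiv.mulLeft h⁻¹).tsum_eq (fun g => ‖f (j, g)‖ ^ 2)
  have hle : ∀ g, ‖c g * f (j, h⁻¹ * g)‖ ^ 2 ≤ C ^ 2 * ‖f (j, h⁻¹ * g)‖ ^ 2 := by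
    intro g
    rw [norm_mul, mul_pow]
    have := hc g
    gcongr
  have h2 : Summable fun g : FreeGroup (Fin n) => ‖c g * f (j, h⁻¹ * g)‖ ^ 2 :=
    Summable.of_nonneg_of_le (fun _ => by positivity) hle (h1.mul_left _)
  have h2' : ∑' g : FreeGroup (Fin n), ‖c g * f (j, h⁻¹ * g)‖ ^ 2 ≤ C ^ 2 * ‖f‖ ^ 2 := by
    calc ∑' g : FreeGroup (Fin n), ‖c g * f (j, h⁻¹ * g)‖ ^ 2
        ≤ ∑' g : FreeGroup (Fin n), C ^ 2 * ‖f (j, h⁻¹ * g)‖ ^ 2 :=
          h2.tsum_le_tsum hle (h1.mul_left _)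
      _ = C ^ 2 * ∑' g : FreeGroup (Fin n), ‖f (j, h⁻¹ * g)‖ ^ 2 := tsum_mul_left
      _ ≤ _ := mul_le_mul_of_nonneg_left h1' (by positivity)
  have hinj : Function.Injective (fun g : FreeGroup (Fin n) => (i, g)) :=
    fun a b hab => (Prod.mk.inj hab).2
  have hsupp : ∀ p : Fin m' × FreeGroup (Fin n), p ∉ Set.range (fun g : FreeGroup (Fin n) => (i, g)) →
      ‖if p.1 = i then c p.2 * f (j, h⁻¹ * p.2) else 0‖ ^ 2 = 0 := by
    rintro ⟨i', g⟩ hp
    rw [if_neg]
    · simp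
    · rintro rfl
      exact hp ⟨g, rfl⟩
  have hs : HasSum (fun p : Fin m' × FreeGroup (Fin n) =>
      ‖if p.1 = i then c p.2 * f (j, h⁻¹ * p.2) else 0‖ ^ 2)
      (∑' g : FreeGroup (Fin n), ‖c g * f (j, h⁻¹ * g)‖ ^ 2) := by
    rw [← hinj.hasSum_iff hsupp]
    refine h2.hasSum.congr_fun ?_
    intro g
    simp
  exact ⟨hs.summable, by rw [hs.tsum_eq]; exact h2'⟩

/-- The operator `f ↦ (g ↦ c(g) f(j, h⁻¹ g))` into the `i`-th coordinate. -/
noncomputable def OP (i : Fin m') (j : Fin m) (h : FreeGroup (Fin n))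
    (c : FreeGroup (Fin n) → ℂ) (C : ℝ) (hC : 0 ≤ C) (hc : ∀ g, ‖c g‖ ≤ C) :
    HH n m →L[ℂ] HH n m' :=
  LinearMap.mkContinuous
    { toFun := fun f => mk (fun p => if p.1 = i then c p.2 * f (j, h⁻¹ * p.2) else 0)
        (opf_summable i j h hC hc f).1
      map_add' := by
        intro f f'
        apply lp.ext
        funext p
        change (if p.1 = i then c p.2 * (f + f') (j, h⁻¹ * p.2) else 0) =
          (if p.1 = i then c p.2 * f (j, h⁻¹ * p.2) else 0) +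
          (if p.1 = i then c p.2 * f' (j, h⁻¹ * p.2) else 0)
        split_ifs
        · rw [lp.coeFn_add, Pi.add_apply, mul_add]
        · rw [add_zero]
      map_smul' := by
        intro a f
        apply lp.ext
        funext p
        change (if p.1 = i then c p.2 * (a • f) (j, h⁻¹ * p.2) else 0) =
          a * (if p.1 = i then c p.2 * f (j, h⁻¹ * p.2) else 0)
        split_ifs
        · rw [lp.coeFn_smul, Pi.smul_apply, smul_eq_mul]
          ring
        · rw [mul_zero] } C (by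
    intro f
    apply norm_le_of_sq hC
    rw [HH.norm_sq]
    exact (opf_summable i j h hC hc f).2)

theorem OP_apply (i : Fin m') (j : Fin m) (h : FreeGroup (Fin n))
    (c : FreeGroup (Fin n) → ℂ) (C : ℝ) (hC : 0 ≤ C) (hc : ∀ g, ‖c g‖ ≤ C) (f : HH n m)
    (p : Fin m' × FreeGroup (Fin n)) :
    OP i j h c C hC hc f p = if p.1 = i then c p.2 * f (j, h⁻¹ * p.2) else 0 := rfl

theorem norm_OP_le (i : Fin m') (j : Fin m) (h : FreeGroup (Fin n))
    (c : FreeGroup (Fin n) → ℂ) (C : ℝ) (hC : 0 ≤ C) (hc : ∀ g, ‖c g‖ ≤ C) :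
    ‖OP i j h c C hC hc‖ ≤ C :=
  LinearMap.mkContinuous_norm_le _ hC _

/-- The elementary operator. -/
noncomputable def EE (i : Fin m') (j : Fin m) (h : FreeGroup (Fin n)) : HH n m →L[ℂ] HH n m' :=
  OP i j h (fun _ => 1) 1 zero_le_one (fun _ => by simp)

theorem EE_apply (i : Fin m') (j : Fin m) (h : FreeGroup (Fin n)) (f : HH n m)
    (p : Fin m' × FreeGroup (Fin n)) :
    EE i j h f p = if p.1 = i then f (j, h⁻¹ * p.2) else 0 := by
  unfold EE
  rw [OP_apply, one_mul]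

theorem norm_EE_le (i : Fin m') (j : Fin m) (h : FreeGroup (Fin n)) :
    ‖(EE i j h : HH n m →L[ℂ] HH n m')‖ ≤ 1 := norm_OP_le _ _ _ _ _ _ _

/-- Multiplication by a bounded function of the group element. -/
theorem mulf_summable {c : FreeGroup (Fin n) → ℂ} {C : ℝ} (hc : ∀ g, ‖c g‖ ≤ C)
    (f : HH n m) : Summable (fun p : Fin m × FreeGroup (Fin n) => ‖c p.2 * f p‖ ^ 2) ∧
    ∑' p : Fin m × FreeGroup (Fin n), ‖c p.2 * f p‖ ^ 2 ≤ C ^ 2 * ‖f‖ ^ 2 := by
  have hle : ∀ p : Fin m × FreeGroup (Fin n), ‖c p.2 * f p‖ ^ 2 ≤ C ^ 2 * ‖f p‖ ^ 2 := by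
    intro p
    rw [norm_mul, mul_pow]
    have := hc p.2
    gcongr
  have h1 := (HH.summable_sq f).mul_left (C ^ 2)
  have h2 : Summable (fun p : Fin m × FreeGroup (Fin n) => ‖c p.2 * f p‖ ^ 2) :=
    Summable.of_nonneg_of_le (fun _ => by positivity) hle h1
  refine ⟨h2, ?_⟩
  rw [HH.norm_sq, ← tsum_mul_left]
  exact h2.tsum_le_tsum hle h1

/-- The multiplication operator. -/
noncomputable def MM (m : ℕ) (c : FreeGroup (Fin n) → ℂ) (C : ℝ) (hC : 0 ≤ C)
    (hc : ∀ g, ‖c g‖ ≤ C) : HH n m →L[ℂ] HH n m :=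
  LinearMap.mkContinuous
    { toFun := fun f => mk (fun p => c p.2 * f p) (mulf_summable hc f).1
      map_add' := by
        intro f f'
        apply lp.ext
        funext p
        change c p.2 * (f + f') p = c p.2 * f p + c p.2 * f' p
        rw [lp.coeFn_add, Pi.add_apply, mul_add]
      map_smul' := by
        intro a f
        apply lp.ext
        funext p
        change c p.2 * (a • f) p = a * (c p.2 * f p)
        rw [lp.coeFn_smul, Pi.smul_apply, smul_eq_mul]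
        ring } C (by
    intro f
    apply norm_le_of_sq hC
    rw [HH.norm_sq]
    exact (mulf_summable hc f).2)

theorem MM_apply (c : FreeGroup (Fin n) → ℂ) (C : ℝ) (hC : 0 ≤ C) (hc : ∀ g, ‖c g‖ ≤ C)
    (f : HH n m) (p : Fin m × FreeGroup (Fin n)) : MM m c C hC hc f p = c p.2 * f p := rfl

/-- Right translation `f ↦ f(·, · u)`. -/
noncomputable def RR (m : ℕ) (u : FreeGroup (Fin n)) : HH n m →L[ℂ] HH n m :=
  LinearMap.mkContinuous
    { toFun := fun f => mk (fun p => f (p.1, p.2 * u))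
        ((((Equiv.refl (Fin m)).prodCongr (Equiv.mulRight u)).summable_iff
          (f := fun p => ‖f p‖ ^ 2)).2 (HH.summable_sq f))
      map_add' := fun _ _ => rfl
      map_smul' := fun _ _ => rfl } 1 (by
    intro f
    apply norm_le_of_sq zero_le_one
    rw [one_pow, one_mul, HH.norm_sq, HH.norm_sq]
    exact (((Equiv.refl (Fin m)).prodCongr (Equiv.mulRight u)).tsum_eq (fun p => ‖f p‖ ^ 2)).le)

theorem RR_apply (u : FreeGroup (Fin n)) (f : HH n m) (p : Fin m × FreeGroup (Fin n)) :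
    RR m u f p = f (p.1, p.2 * u) := rfl

theorem inner_RR (u : FreeGroup (Fin n)) (f f' : HH n m) :
    inner ℂ (RR m u f) f' = inner ℂ f (RR m u⁻¹ f') := by
  rw [lp.inner_eq_tsum, lp.inner_eq_tsum,
    ← ((Equiv.refl (Fin m)).prodCongr (Equiv.mulRight u)).tsum_eq
      fun p => inner ℂ (f p) (RR m u⁻¹ f' p)]
  refine tsum_congr fun p => ?_
  rw [RR_apply, RR_apply]
  change _ = inner ℂ (f (p.1, p.2 * u)) (f' (p.1, p.2 * u * u⁻¹))
  rw [mul_inv_cancel_right]

theorem RR_RR_inv (u : FreeGroup (Fin n)) (f : HH n m) : RR m u (RR m u⁻¹ f) = f := by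
  apply lp.ext
  funext p
  rw [RR_apply, RR_apply]
  change f (p.1, p.2 * u * u⁻¹) = _
  rw [mul_inv_cancel_right]

/-- Point masses. -/
noncomputable def dd (p : Fin m × FreeGroup (Fin n)) : HH n m := by
  classical
  exact lp.single 2 p (1 : ℂ)

theorem inner_dd (p : Fin m × FreeGroup (Fin n)) (f : HH n m) : inner ℂ (dd p) f = f p := by
  classical
  unfold dd
  rw [lp.inner_single_left]
  simp

theorem norm_dd (p : Fin m × FreeGroup (Fin n)) : ‖dd p‖ = 1 := by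
  classical
  unfold dd
  rw [lp.norm_single (by norm_num)]
  simp

open Classical in
theorem dd_apply (p q : Fin m × FreeGroup (Fin n)) : dd p q = if q = p then 1 else 0 := by
  unfold dd
  by_cases h : q = p
  · subst h
    rw [if_pos rfl]
    exact lp.single_apply_self _ _ _
  · rw [if_neg h]
    exact lp.single_apply_ne _ _ _ h

theorem RR_dd (i : Fin m) (g u : FreeGroup (Fin n)) : RR m u (dd (i, g)) = dd (i, g * u⁻¹) := by
  classical
  apply lp.ext
  funext p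
  rw [RR_apply, dd_apply, dd_apply]
  obtain ⟨i', x⟩ := p
  have : (i', x * u) = (i, g) ↔ (i', x) = (i, g * u⁻¹) := by
    rw [Prod.mk.injEq, Prod.mk.injEq, eq_mul_inv_iff_mul_eq]
  simp only [this]

end Pool.Agent.H64.CR
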