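import Mathlib
import Pool.Agent.H64.CR.Basic

/-!
# The trace: an equivariant operator `ℓ²(F_n)^k → ℓ²(F_n)^m` with `k < m` is not onto
-/

namespace Pool.Agent.H64.CR

variable {n k m : ℕ}

/-- Operators commuting with right translations. -/
def Equi (A : HH n k →L[ℂ] HH n m) : Prop := ∀ u f, A (RR k u f) = RR m u (A f)

theorem apply_one_eq (A : HH n k →L[ℂ] HH n m) (hA : Equi A) (x : HH n k) (i : Fin m) :
    Summable (fun p : Fin k × FreeGroup (Fin n) => (A (dd (p.1, 1))) (i, p.2⁻¹) * x p) ∧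
    (A x) (i, 1) = ∑' p : Fin k × FreeGroup (Fin n), (A (dd (p.1, 1))) (i, p.2⁻¹) * x p := by
  have h0 : ∀ p : Fin k × FreeGroup (Fin n),
      (A (dd p)) (i, 1) = (A (dd (p.1, 1))) (i, p.2⁻¹) := by
    rintro ⟨j, g⟩
    have h1 : (dd (j, g) : HH n k) = RR k g⁻¹ (dd (j, 1)) := by
      rw [RR_dd, inv_inv, one_mul]
    rw [h1, hA, RR_apply]
    change (A (dd (j, 1))) (i, 1 * g⁻¹) = _
    rw [one_mul]
  have h1 : ∀ p : Fin k × FreeGroup (Fin n),
      inner ℂ ((ContinuousLinearMap.adjoint A (dd (i, 1))) p) (x p) =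
        (A (dd (p.1, 1))) (i, p.2⁻¹) * x p := by
    intro p
    rw [← h0, ← inner_dd p (ContinuousLinearMap.adjoint A (dd (i, 1))),
      ContinuousLinearMap.adjoint_inner_right, RCLike.inner_apply, ← inner_conj_symm (A (dd p)),
      RCLike.conj_conj, inner_dd, mul_comm]
  constructor
  · exact (lp.summable_inner (ContinuousLinearMap.adjoint A (dd (i, 1))) x).congr h1
  · rw [← inner_dd (i, (1 : FreeGroup (Fin n))) (A x), ← ContinuousLinearMap.adjoint_inner_left,
      lp.inner_eq_tsum]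
    exact tsum_congr h1

/-- The trace property. -/
theorem trace_comm (A : HH n k →L[ℂ] HH n m) (B : HH n m →L[ℂ] HH n k) (hA : Equi A)
    (hB : Equi B) :
    ∑ i : Fin m, (A (B (dd (i, 1)))) (i, 1) = ∑ j : Fin k, (B (A (dd (j, 1)))) (j, 1) := by
  have h1 : ∀ {k m : ℕ} (A : HH n k →L[ℂ] HH n m) (B : HH n m →L[ℂ] HH n k), Equi A →
      ∀ i : Fin m, (A (B (dd (i, 1)))) (i, 1) =
        ∑ j : Fin k, ∑' g : FreeGroup (Fin n), (A (dd (j, 1))) (i, g⁻¹) * (B (dd (i, 1))) (j, g) := by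
    intro k m A B hA i
    obtain ⟨hs, he⟩ := apply_one_eq A hA (B (dd (i, 1))) i
    rw [he, hs.tsum_prod, tsum_fintype]
  rw [Finset.sum_congr rfl fun i _ => h1 A B hA i, Finset.sum_congr rfl fun j _ => h1 B A hB j,
    Finset.sum_comm]
  refine Finset.sum_congr rfl fun j _ => Finset.sum_congr rfl fun i _ => ?_
  rw [← (Equiv.inv (FreeGroup (Fin n))).tsum_eq]
  refine tsum_congr fun g => ?_
  rw [Equiv.inv_apply, inv_inv, mul_comm]

/-- For `k < m` no equivariant operator is onto. -/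
theorem not_surjective (hkm : k < m) (W : HH n k →L[ℂ] HH n m) (hW : Equi W) :
    ¬ Function.Surjective W := by
  intro hsurj
  set K0 : Submodule ℂ (HH n k) := LinearMap.ker W.toLinearMap with hK0
  have hK0c : IsClosed (K0 : Set (HH n k)) := W.isClosed_ker
  have : CompleteSpace K0 := hK0c.completeSpace_coe
  have hinvK : ∀ u, ∀ v ∈ K0, RR k u v ∈ K0 := by
    intro u v hv
    change W (RR k u v) = 0
    have hv' : W v = 0 := hv
    rw [hW, hv', map_zero]
  have hinvO : ∀ u, ∀ v ∈ K0ᗮ, RR k u v ∈ K0ᗮ := by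
    intro u v hv
    rw [Submodule.mem_orthogonal'] at hv ⊢
    intro x hx
    rw [inner_RR]
    exact hv _ (hinvK _ _ hx)
  -- the inverse
  let W0 : K0ᗮ →L[ℂ] HH n m := W.comp K0ᗮ.subtypeL
  have hW0i : Function.Injective W0 := by
    rw [injective_iff_map_eq_zero]
    intro v hv
    have h1 : (v : HH n k) ∈ K0 := hv
    have h2 : inner ℂ (v : HH n k) (v : HH n k) = 0 := (Submodule.mem_orthogonal' K0 _).1 v.2 _ h1
    exact Subtype.ext (inner_self_eq_zero.1 h2)
  have hW0s : Function.Surjective W0 := by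
    intro y
    obtain ⟨x, rfl⟩ := hsurj y
    refine ⟨⟨x - K0.starProjection x, ?_⟩, ?_⟩
    · exact Submodule.sub_starProjection_mem_orthogonal x
    · change W (x - K0.starProjection x) = W x
      have h1 : W (K0.starProjection x) = 0 := Submodule.starProjection_apply_mem K0 x
      rw [map_sub, h1, sub_zero]
  let e : K0ᗮ ≃L[ℂ] HH n m := ContinuousLinearEquiv.ofBijective W0
    (LinearMap.ker_eq_bot.2 hW0i) (LinearMap.range_eq_top.2 hW0s)
  have he : ∀ v, e v = W0 v := fun v => rfl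
  let S : HH n m →L[ℂ] HH n k := K0ᗮ.subtypeL.comp (e.symm : HH n m →L[ℂ] K0ᗮ)
  have hSmem : ∀ f, S f ∈ K0ᗮ := fun f => (e.symm f).2
  have hWS : ∀ f, W (S f) = f := by
    intro f
    have h1 := e.apply_symm_apply f
    rw [he] at h1
    exact h1
  have huniq : ∀ a ∈ K0ᗮ, ∀ b ∈ K0ᗮ, W a = W b → a = b := by
    intro a ha b hb hab
    exact congrArg Subtype.val (@hW0i ⟨a, ha⟩ ⟨b, hb⟩ hab)
  have hSeq : Equi S := by
    intro u f
    refine huniq _ (hSmem _) _ (hinvO u _ (hSmem _)) ?_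
    rw [hWS, hW, hWS]
  have hSW : ∀ x, ‖S (W x)‖ ≤ ‖x‖ := by
    intro x
    have h1 : S (W x) = x - K0.starProjection x := by
      refine huniq _ (hSmem _) _ (Submodule.sub_starProjection_mem_orthogonal x) ?_
      have h2 : W (K0.starProjection x) = 0 := Submodule.starProjection_apply_mem K0 x
      rw [hWS, map_sub, h2, sub_zero]
    rw [h1, ← Submodule.starProjection_orthogonal_val]
    exact Submodule.norm_starProjection_apply_le _ x
  have htr := trace_comm W S hW hSeq
  have h1 : ∑ i : Fin m, (W (S (dd (i, (1 : FreeGroup (Fin n)))))) (i, 1) = (m : ℂ) := by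
    have : ∀ i : Fin m, (W (S (dd (i, (1 : FreeGroup (Fin n)))))) (i, 1) = 1 := by
      intro i
      rw [hWS, dd_apply, if_pos rfl]
    simp [this]
  have h2 : ‖∑ j : Fin k, (S (W (dd (j, (1 : FreeGroup (Fin n)))))) (j, 1)‖ ≤ (k : ℝ) := by
    refine (norm_sum_le _ _).trans ?_
    have : ∀ j : Fin k, ‖(S (W (dd (j, (1 : FreeGroup (Fin n)))))) (j, 1)‖ ≤ 1 := by
      intro j
      rw [← inner_dd]
      refine (norm_inner_le_norm _ _).trans ?_
      rw [norm_dd, one_mul]
      refine (hSW _).trans ?_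
      rw [norm_dd]
    refine (Finset.sum_le_sum fun j _ => this j).trans ?_
    simp
  rw [← htr, h1] at h2
  have h3 : ‖(m : ℂ)‖ = m := by simp
  rw [h3] at h2
  have : m ≤ k := by exact_mod_cast h2
  omega

end Pool.Agent.H64.CR
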