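import Mathlib
import Pool.Agent.H64.CR.Trace

/-!
# Left convolution by a matrix over `ℓ¹(F_n)` and its commutator with the word length
-/

namespace Pool.Agent.H64.CR

open Pool.Agent.H64.AugIdeal

variable {n k m : ℕ}

theorem summable_EE (i : Fin m) (j : Fin k) (b : L1 n) :
    Summable fun h => b h • (EE i j h : HH n k →L[ℂ] HH n m) := by
  refine Summable.of_norm_bounded (L1.summable_norm b) fun h => ?_
  rw [norm_smul]
  exact mul_le_of_le_one_right (norm_nonneg _) (norm_EE_le _ _ _)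

/-- One entry. -/
noncomputable def W1 (i : Fin m) (j : Fin k) (b : L1 n) : HH n k →L[ℂ] HH n m :=
  ∑' h, b h • EE i j h

theorem hasSum_W1 (i : Fin m) (j : Fin k) (b : L1 n) (f : HH n k) :
    HasSum (fun h => b h • (EE i j h : HH n k →L[ℂ] HH n m) f) (W1 i j b f) :=
  (summable_EE i j b).hasSum.mapL (ContinuousLinearMap.apply ℂ (HH n m) f)

theorem hasSum_W1_apply (i : Fin m) (j : Fin k) (b : L1 n) (f : HH n k)
    (p : Fin m × FreeGroup (Fin n)) :
    HasSum (fun h => if p.1 = i then b h * f (j, h⁻¹ * p.2) else 0) (W1 i j b f p) := by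
  have h := (hasSum_W1 i j b f).mapL (lp.evalCLM ℂ (fun _ : Fin m × FreeGroup (Fin n) => ℂ) 2 p)
  refine h.congr_fun fun x => ?_
  change _ = b x * (EE i j x : HH n k →L[ℂ] HH n m) f p
  rw [EE_apply]
  split_ifs <;> simp

theorem W1_apply (i : Fin m) (j : Fin k) (b : L1 n) (f : HH n k)
    (p : Fin m × FreeGroup (Fin n)) :
    W1 i j b f p = if p.1 = i then ∑' h, b h * f (j, h⁻¹ * p.2) else 0 := by
  rw [← (hasSum_W1_apply i j b f p).tsum_eq]
  split_ifs with h
  · rfl
  · exact tsum_zero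

/-- `y ↦ (∑_j w_{ij} * y_j)_i`. -/
noncomputable def WW (w : Fin m → Fin k → L1 n) : HH n k →L[ℂ] HH n m :=
  ∑ i, ∑ j, W1 i j (w i j)

theorem WW_eq (w : Fin m → Fin k → L1 n) (f : HH n k) :
    WW w f = ∑ i, ∑ j, W1 i j (w i j) f := by
  unfold WW
  rw [sum_apply]
  refine Finset.sum_congr rfl fun i _ => ?_
  rw [sum_apply]

theorem HH_sum_apply {ι : Type*} (s : Finset ι) (F : ι → HH n m)
    (p : Fin m × FreeGroup (Fin n)) : (∑ a ∈ s, F a : HH n m) p = ∑ a ∈ s, F a p := by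
  classical
  induction s using Finset.induction_on with
  | empty => rw [Finset.sum_empty, Finset.sum_empty]; rfl
  | insert a s ha ih =>
    rw [Finset.sum_insert ha, Finset.sum_insert ha, lp.coeFn_add, Pi.add_apply, ih]

theorem WW_apply (w : Fin m → Fin k → L1 n) (f : HH n k) (i : Fin m) (g : FreeGroup (Fin n)) :
    WW w f (i, g) = ∑ j, ∑' h, w i j h * f (j, h⁻¹ * g) := by
  classical
  rw [WW_eq, HH_sum_apply, Finset.sum_eq_single i]
  · rw [HH_sum_apply]
    refine Finset.sum_congr rfl fun j _ => ?_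
    rw [W1_apply, if_pos rfl]
  · intro i' _ hi'
    rw [HH_sum_apply]
    refine Finset.sum_eq_zero fun j _ => ?_
    rw [W1_apply, if_neg]
    exact fun h => hi' h.symm
  · intro h
    exact absurd (Finset.mem_univ i) h

theorem WW_equi (w : Fin m → Fin k → L1 n) : Equi (WW w) := by
  intro u f
  apply lp.ext
  funext p
  obtain ⟨i, g⟩ := p
  rw [RR_apply, WW_apply, WW_apply]
  refine Finset.sum_congr rfl fun j _ => tsum_congr fun h => ?_
  rw [RR_apply, mul_assoc]

/-! ### The commutator with the length -/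

/-- The truncated word length. -/
noncomputable def len (N : ℕ) (g : FreeGroup (Fin n)) : ℂ :=
  ((min (FreeGroup.norm g : ℝ) N : ℝ) : ℂ)

theorem norm_len_le (N : ℕ) (g : FreeGroup (Fin n)) : ‖len N g‖ ≤ N := by
  unfold len
  rw [Complex.norm_real, Real.norm_eq_abs, abs_of_nonneg (by positivity)]
  exact min_le_right _ _

/-- Multiplication by the truncated length. -/
noncomputable def LL (m N : ℕ) : HH n m →L[ℂ] HH n m :=
  MM m (len N) N (Nat.cast_nonneg N) (norm_len_le N)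

theorem LL_apply (N : ℕ) (f : HH n m) (p : Fin m × FreeGroup (Fin n)) :
    LL m N f p = len N p.2 * f p := rfl

theorem inner_LL (N : ℕ) (f f' : HH n m) : inner ℂ (LL m N f) f' = inner ℂ f (LL m N f') := by
  rw [lp.inner_eq_tsum, lp.inner_eq_tsum]
  refine tsum_congr fun p => ?_
  rw [LL_apply, LL_apply, RCLike.inner_apply, RCLike.inner_apply, map_mul]
  have h : (starRingEnd ℂ) (len N p.2) = len N p.2 := Complex.conj_ofReal _
  rw [h]
  ring

theorem abs_norm_sub_le (h g : FreeGroup (Fin n)) :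
    |(FreeGroup.norm g : ℝ) - FreeGroup.norm (h⁻¹ * g)| ≤ FreeGroup.norm h := by
  have h1 : FreeGroup.norm g ≤ FreeGroup.norm h + FreeGroup.norm (h⁻¹ * g) := by
    have := FreeGroup.norm_mul_le h (h⁻¹ * g)
    rwa [mul_inv_cancel_left] at this
  have h2 : FreeGroup.norm (h⁻¹ * g) ≤ FreeGroup.norm h + FreeGroup.norm g := by
    have := FreeGroup.norm_mul_le h⁻¹ g
    rwa [FreeGroup.norm_inv_eq] at this
  have h1' : (FreeGroup.norm g : ℝ) ≤ FreeGroup.norm h + FreeGroup.norm (h⁻¹ * g) := by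
    exact_mod_cast h1
  have h2' : (FreeGroup.norm (h⁻¹ * g) : ℝ) ≤ FreeGroup.norm h + FreeGroup.norm g := by
    exact_mod_cast h2
  rw [abs_le]
  constructor <;> linarith

theorem norm_len_sub_le (N : ℕ) (h g : FreeGroup (Fin n)) :
    ‖len N g - len N (h⁻¹ * g)‖ ≤ FreeGroup.norm h := by
  unfold len
  rw [← Complex.ofReal_sub, Complex.norm_real, Real.norm_eq_abs]
  refine (abs_min_sub_min_le_max _ _ _ _).trans ?_
  rw [sub_self, abs_zero, max_eq_left (abs_nonneg _)]
  exact abs_norm_sub_le h g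

theorem mom_nonneg (b : L1 n) : 0 ≤ mom b := tsum_nonneg fun _ => by positivity

theorem comm_W1 (i : Fin m) (j : Fin k) (b : L1 n)
    (hb : Summable fun h => (FreeGroup.norm h : ℝ) * ‖b h‖) (N : ℕ) (f : HH n k) :
    ‖LL m N (W1 i j b f) - W1 i j b (LL k N f)‖ ≤ mom b * ‖f‖ := by
  have h1 := (hasSum_W1 i j b f).mapL (LL m N)
  have h2 := hasSum_W1 i j b (LL k N f)
  have h3 := h1.sub h2
  have hs : HasSum (fun h => (FreeGroup.norm h : ℝ) * ‖b h‖ * ‖f‖) (mom b * ‖f‖) :=
    hb.hasSum.mul_right _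
  refine h3.norm_le_of_bounded hs fun h => ?_
  have h4 : LL m N (b h • (EE i j h : HH n k →L[ℂ] HH n m) f) -
      b h • (EE i j h : HH n k →L[ℂ] HH n m) (LL k N f) =
      b h • OP i j h (fun g => len N g - len N (h⁻¹ * g)) (FreeGroup.norm h)
        (Nat.cast_nonneg _) (norm_len_sub_le N h) f := by
    apply lp.ext
    funext p
    rw [lp.coeFn_sub, Pi.sub_apply, LL_apply, lp.coeFn_smul, Pi.smul_apply, lp.coeFn_smul,
      Pi.smul_apply, lp.coeFn_smul, Pi.smul_apply, EE_apply, EE_apply, OP_apply, LL_apply]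
    simp only [smul_eq_mul]
    split_ifs
    · ring
    · ring
  change ‖LL m N (b h • (EE i j h : HH n k →L[ℂ] HH n m) f) -
      b h • (EE i j h : HH n k →L[ℂ] HH n m) (LL k N f)‖ ≤ _
  rw [h4, norm_smul]
  have h5 := (OP i j h (fun g => len N g - len N (h⁻¹ * g)) (FreeGroup.norm h)
        (Nat.cast_nonneg _) (norm_len_sub_le N h) : HH n k →L[ℂ] HH n m).le_opNorm f
  have h6 := norm_OP_le (m := k) i j h (fun g => len N g - len N (h⁻¹ * g)) (FreeGroup.norm h)
        (Nat.cast_nonneg _) (norm_len_sub_le N h)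
  calc ‖b h‖ * _ ≤ ‖b h‖ * ((FreeGroup.norm h : ℝ) * ‖f‖) :=
        mul_le_mul_of_nonneg_left (h5.trans (mul_le_mul_of_nonneg_right h6 (norm_nonneg _)))
          (norm_nonneg _)
    _ = _ := by ring

theorem comm_WW' (w : Fin m → Fin k → L1 n)
    (hw : ∀ i j, Summable fun h => (FreeGroup.norm h : ℝ) * ‖w i j h‖) (N : ℕ) (f : HH n k) :
    ‖LL m N (WW w f) - WW w (LL k N f)‖ ≤ (∑ i, ∑ j, mom (w i j)) * ‖f‖ := by
  have h1 : LL m N (WW w f) - WW w (LL k N f) =
      ∑ i, ∑ j, (LL m N (W1 i j (w i j) f) - W1 i j (w i j) (LL k N f)) := by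
    rw [WW_eq, WW_eq, map_sum]
    simp only [map_sum]
    rw [← Finset.sum_sub_distrib]
    refine Finset.sum_congr rfl fun i _ => ?_
    rw [← Finset.sum_sub_distrib]
  rw [h1, Finset.sum_mul]
  refine (norm_sum_le _ _).trans (Finset.sum_le_sum fun i _ => ?_)
  rw [Finset.sum_mul]
  refine (norm_sum_le _ _).trans (Finset.sum_le_sum fun j _ => ?_)
  exact comm_W1 i j (w i j) (hw i j) N f

theorem comm_WW (w : Fin m → Fin k → L1 n)
    (hw : ∀ i j, Summable fun h => (FreeGroup.norm h : ℝ) * ‖w i j h‖) :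
    ∃ C : ℝ, 0 ≤ C ∧ ∀ (N : ℕ) (f : HH n k),
      ‖LL m N (WW w f) - WW w (LL k N f)‖ ≤ C * ‖f‖ :=
  ⟨∑ i, ∑ j, mom (w i j), Finset.sum_nonneg fun i _ => Finset.sum_nonneg fun j _ =>
    mom_nonneg _, comm_WW' w hw⟩

end Pool.Agent.H64.CR
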