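import Mathlib
import Pool.Agent.H64.CR.Op

/-!
# A vector orthogonal to the closed range, with finite second moment
-/

namespace Pool.Agent.H64.CR

open Pool.Agent.H64.AugIdeal

variable {n k m : ℕ}

theorem exists_decaying (hkm : k < m) (w : Fin m → Fin k → L1 n)
    (hw : ∀ i j, Summable fun h => (FreeGroup.norm h : ℝ) * ‖w i j h‖)
    (hcl : IsClosed (Set.range (WW w))) :
    ∃ z : HH n m, z ≠ 0 ∧ (∀ y : HH n k, inner ℂ (WW w y) z = 0) ∧
      Summable fun p : Fin m × FreeGroup (Fin n) =>
        ((FreeGroup.norm p.2 : ℝ) ^ 2 * ‖z p‖ ^ 2) := by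
  classical
  set W := WW w with hW
  obtain ⟨C, hC0, hC⟩ := comm_WW (m := m) w hw
  set K : Submodule ℂ (HH n m) := LinearMap.range W.toLinearMap with hK
  have hKc : IsClosed (K : Set (HH n m)) := by
    have : (K : Set (HH n m)) = Set.range W := by
      ext x
      simp [hK]
    rw [this]
    exact hcl
  have : CompleteSpace K := hKc.completeSpace_coe
  have hWK : ∀ y, W y ∈ K := fun y => ⟨y, rfl⟩
  -- the range is not everything
  have hne : K ≠ ⊤ := by
    intro h
    apply not_surjective hkm W (WW_equi w)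
    intro x
    have hx : x ∈ K := by
      rw [h]
      trivial
    obtain ⟨y, hy⟩ := hx
    exact ⟨y, hy⟩
  have hKo : Kᗮ ≠ ⊥ := by
    intro h
    apply hne
    rw [← Submodule.orthogonal_orthogonal K, h, Submodule.bot_orthogonal_eq_top]
  obtain ⟨x, hxK, hx0⟩ := (Submodule.ne_bot_iff _).1 hKo
  have hex : ∃ p, x p ≠ 0 := by
    by_contra hcon
    push Not at hcon
    apply hx0
    apply lp.ext
    funext p
    exact hcon p
  obtain ⟨⟨i, g⟩, hxp⟩ := hex
  -- the point mass at `(i, 1)` is not in the range
  set e : HH n m := dd (i, 1) with he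
  have hRK : ∀ v ∈ K, RR m g⁻¹ v ∈ K := by
    rintro _ ⟨y, rfl⟩
    exact ⟨RR k g⁻¹ y, WW_equi w g⁻¹ y⟩
  have heK : e ∉ K := by
    intro h
    have h1 : (dd (i, g) : HH n m) ∈ K := by
      have h2 := hRK e h
      rw [he, RR_dd, inv_inv, one_mul] at h2
      exact h2
    have h3 := Submodule.inner_right_of_mem_orthogonal h1 hxK
    rw [inner_dd] at h3
    exact hxp h3
  set z : HH n m := e - K.starProjection e with hz
  have hz0 : z ≠ 0 := by
    intro h
    apply heK
    rw [hz, sub_eq_zero] at h
    rw [h]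
    exact Submodule.starProjection_apply_mem K e
  have hzK : z ∈ Kᗮ := Submodule.sub_starProjection_mem_orthogonal e
  have hzW : ∀ y, inner ℂ (W y) z = 0 := fun y =>
    Submodule.inner_right_of_mem_orthogonal (hWK y) hzK
  obtain ⟨y, hy⟩ : ∃ y, W y = K.starProjection e := by
    obtain ⟨y, hy⟩ := Submodule.starProjection_apply_mem K e
    exact ⟨y, hy⟩
  -- open mapping
  let W' : HH n k →L[ℂ] K := W.codRestrict K hWK
  have hW's : Function.Surjective W' := by
    rintro ⟨_, ⟨t, rfl⟩⟩
    exact ⟨t, rfl⟩
  obtain ⟨C1, hC1, hC1'⟩ := W'.exists_preimage_norm_le hW's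
  -- the projection on the orthogonal complement is a contraction
  have hcontr : ∀ a : HH n m, ‖a - K.starProjection a‖ ≤ ‖a‖ := by
    intro a
    rw [← Submodule.starProjection_orthogonal_val]
    exact Submodule.norm_starProjection_apply_le _ a
  have hbound : ∀ N : ℕ, ‖LL m N z‖ ≤ C * C1 * ‖z‖ + C * ‖y‖ := by
    intro N
    set a := LL m N z with ha
    have hQ : ‖K.starProjection a‖ ≤ C * C1 * ‖z‖ := by
      obtain ⟨t, ht, htn⟩ := hC1' ⟨K.starProjection a, Submodule.starProjection_apply_mem K a⟩
      have ht' : W t = K.starProjection a := congrArg Subtype.val ht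
      have htn' : ‖t‖ ≤ C1 * ‖K.starProjection a‖ := htn
      have h1 : inner ℂ (K.starProjection a) (K.starProjection a) =
          inner ℂ (LL m N (W t) - W (LL k N t)) z := by
        rw [inner_sub_left, hzW, sub_zero, inner_LL, ← ha, ht']
        have h2 : inner ℂ (K.starProjection a) (a - K.starProjection a) = 0 :=
          Submodule.inner_right_of_mem_orthogonal (Submodule.starProjection_apply_mem K a)
            (Submodule.sub_starProjection_mem_orthogonal a)
        rw [inner_sub_right, sub_eq_zero] at h2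
        exact h2.symm
      have h3 : ‖K.starProjection a‖ ^ 2 ≤ C * ‖t‖ * ‖z‖ := by
        have h4 : ‖inner ℂ (K.starProjection a) (K.starProjection a)‖ =
            ‖K.starProjection a‖ ^ 2 := by
          rw [inner_self_eq_norm_sq_to_K]
          simp
        rw [← h4, h1]
        refine (norm_inner_le_norm _ _).trans ?_
        exact mul_le_mul_of_nonneg_right (hC N t) (norm_nonneg _)
      by_cases h0 : ‖K.starProjection a‖ = 0
      · rw [h0]
        positivity
      · have hpos : 0 < ‖K.starProjection a‖ := lt_of_le_of_ne (norm_nonneg _) (Ne.symm h0)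
        have h5 : ‖K.starProjection a‖ * ‖K.starProjection a‖ ≤
            ‖K.starProjection a‖ * (C * C1 * ‖z‖) := by
          calc ‖K.starProjection a‖ * ‖K.starProjection a‖ = ‖K.starProjection a‖ ^ 2 := by ring
            _ ≤ C * ‖t‖ * ‖z‖ := h3
            _ ≤ C * (C1 * ‖K.starProjection a‖) * ‖z‖ := by gcongr
            _ = _ := by ring
        exact le_of_mul_le_mul_left h5 hpos
    have hP : ‖a - K.starProjection a‖ ≤ C * ‖y‖ := by
      have h1 : LL m N e = 0 := by
        apply lp.ext
        funext p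
        rw [LL_apply, he, dd_apply]
        split_ifs with h
        · rw [h]
          simp [len]
        · rw [mul_zero]
          rfl
      have h2 : a = -(LL m N (W y)) := by
        rw [ha, hz, map_sub, h1, ← hy, zero_sub]
      have h3 : a - K.starProjection a =
          -((LL m N (W y) - W (LL k N y)) -
            K.starProjection (LL m N (W y) - W (LL k N y))) := by
        have h4 : K.starProjection (W (LL k N y)) = W (LL k N y) :=
          Submodule.starProjection_eq_self_iff.2 (hWK _)
        rw [h2, map_neg, map_sub, h4]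
        abel
      rw [h3, norm_neg]
      exact (hcontr _).trans (hC N y)
    calc ‖a‖ = ‖K.starProjection a + (a - K.starProjection a)‖ := by rw [add_sub_cancel]
      _ ≤ ‖K.starProjection a‖ + ‖a - K.starProjection a‖ := norm_add_le _ _
      _ ≤ _ := add_le_add hQ hP
  refine ⟨z, hz0, hzW, ?_⟩
  refine summable_of_sum_le (c := (C * C1 * ‖z‖ + C * ‖y‖) ^ 2) (fun _ => by positivity) fun S => ?_
  obtain ⟨N, hN⟩ : ∃ N : ℕ, ∀ p ∈ S, FreeGroup.norm p.2 ≤ N :=
    ⟨S.sup fun p => FreeGroup.norm p.2, fun p hp => Finset.le_sup (f := fun p : Fin m ×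
      FreeGroup (Fin n) => FreeGroup.norm p.2) hp⟩
  have h1 : ∑ p ∈ S, ((FreeGroup.norm p.2 : ℝ) ^ 2 * ‖z p‖ ^ 2) = ∑ p ∈ S, ‖LL m N z p‖ ^ 2 := by
    refine Finset.sum_congr rfl fun p hp => ?_
    have h2 : (min (FreeGroup.norm p.2 : ℝ) N : ℝ) = FreeGroup.norm p.2 :=
      min_eq_left (by exact_mod_cast hN p hp)
    rw [LL_apply, len, h2, norm_mul, mul_pow, Complex.norm_real, Real.norm_eq_abs,
      abs_of_nonneg (by positivity)]
  rw [h1]
  refine ((HH.summable_sq (LL m N z)).sum_le_tsum S fun _ _ => by positivity).trans ?_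
  rw [← HH.norm_sq]
  exact pow_le_pow_left₀ (norm_nonneg _) (hbound N) 2

end Pool.Agent.H64.CR
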