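import Mathlib
import Pool.Agent.H64.CR.Op

/-!
# The resolvents `(1 + t W W†)⁻¹`: trace and energy
-/

namespace Pool.Agent.H64.CR

open ContinuousLinearMap

variable {n k m : ℕ}

/-- `1 + t W W†`. -/
noncomputable def TT (W : HH n k →L[ℂ] HH n m) (t : ℝ) : HH n m →L[ℂ] HH n m :=
  1 + (t : ℂ) • (W ∘L adjoint W)

theorem TT_apply (W : HH n k →L[ℂ] HH n m) (t : ℝ) (z : HH n m) :
    TT W t z = z + (t : ℂ) • W (adjoint W z) := rfl

theorem inner_TT (W : HH n k →L[ℂ] HH n m) (t : ℝ) (z : HH n m) :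
    inner ℂ z (TT W t z) = ((‖z‖ ^ 2 + t * ‖adjoint W z‖ ^ 2 : ℝ) : ℂ) := by
  rw [TT_apply, inner_add_right, inner_smul_right, ← adjoint_inner_left, inner_self_eq_norm_sq_to_K,
    inner_self_eq_norm_sq_to_K]
  push_cast
  rfl

theorem isUnit_TT (W : HH n k →L[ℂ] HH n m) {t : ℝ} (ht : 0 ≤ t) : IsUnit (TT W t) := by
  refine isUnit_of_forall_le_norm_inner_map _ (c := 1) one_pos fun x => ?_
  rw [← inner_conj_symm, inner_TT, RCLike.norm_conj, Complex.norm_real, Real.norm_eq_abs]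
  refine le_trans ?_ (le_abs_self _)
  have : 0 ≤ t * ‖adjoint W x‖ ^ 2 := by positivity
  simp only [NNReal.coe_one, mul_one]
  linarith

/-- The resolvent `(1 + t W W†)⁻¹`. -/
noncomputable def Res (W : HH n k →L[ℂ] HH n m) (t : ℝ) : HH n m →L[ℂ] HH n m :=
  Ring.inverse (TT W t)

theorem TT_Res (W : HH n k →L[ℂ] HH n m) {t : ℝ} (ht : 0 ≤ t) (v : HH n m) :
    TT W t (Res W t v) = v := by
  have h := Ring.mul_inverse_cancel _ (isUnit_TT W ht)
  exact congrArg (fun T : HH n m →L[ℂ] HH n m => T v) h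

theorem Res_TT (W : HH n k →L[ℂ] HH n m) {t : ℝ} (ht : 0 ≤ t) (v : HH n m) :
    Res W t (TT W t v) = v := by
  have h := Ring.inverse_mul_cancel _ (isUnit_TT W ht)
  exact congrArg (fun T : HH n m →L[ℂ] HH n m => T v) h

theorem adjoint_equi {W : HH n k →L[ℂ] HH n m} (hW : Equi W) : Equi (adjoint W) := by
  intro u f
  refine ext_inner_right ℂ fun g => ?_
  rw [adjoint_inner_left, inner_RR, inner_RR, adjoint_inner_left, hW]

theorem Res_equi {W : HH n k →L[ℂ] HH n m} (hW : Equi W) {t : ℝ} (ht : 0 ≤ t) :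
    Equi (Res W t) := by
  intro u f
  have h1 : TT W t (RR m u (Res W t f)) = RR m u f := by
    rw [TT_apply, adjoint_equi hW, hW, ← map_smul, ← map_add, ← TT_apply, TT_Res W ht]
  rw [← h1, Res_TT W ht]

/-- The energy identity. -/
theorem energy (W : HH n k →L[ℂ] HH n m) {t : ℝ} (ht : 0 ≤ t) (v : HH n m) :
    ‖Res W t v‖ ^ 2 + t * ‖adjoint W (Res W t v)‖ ^ 2 ≤ ‖Res W t v‖ * ‖v‖ := by
  have h1 := inner_TT W t (Res W t v)
  rw [TT_Res W ht] at h1
  have h2 := norm_inner_le_norm (𝕜 := ℂ) (Res W t v) v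
  rw [h1, Complex.norm_real, Real.norm_eq_abs] at h2
  exact (le_abs_self _).trans h2

theorem norm_Res_le (W : HH n k →L[ℂ] HH n m) {t : ℝ} (ht : 0 ≤ t) (v : HH n m) :
    ‖Res W t v‖ ≤ ‖v‖ := by
  have h1 := energy W ht v
  have h2 : 0 ≤ t * ‖adjoint W (Res W t v)‖ ^ 2 := by positivity
  have h3 := norm_nonneg (Res W t v)
  by_contra hcon
  push Not at hcon
  have h4 := norm_nonneg v
  nlinarith

theorem norm_adj_Res_le (W : HH n k →L[ℂ] HH n m) {s : ℝ} (hs : 0 < s) (v : HH n m) :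
    ‖adjoint W (Res W (s ^ 2) v)‖ ≤ ‖v‖ / (2 * s) := by
  have h1 := energy W (sq_nonneg s) v
  set a := ‖Res W (s ^ 2) v‖
  set b := ‖adjoint W (Res W (s ^ 2) v)‖
  have h2 : (s * b) ^ 2 ≤ (‖v‖ / 2) ^ 2 := by nlinarith [sq_nonneg (a - ‖v‖ / 2)]
  have h3 : s * b ≤ ‖v‖ / 2 := by
    have hb : 0 ≤ b := norm_nonneg _
    exact (pow_le_pow_iff_left₀ (by positivity) (by positivity) two_ne_zero).1 h2
  rw [le_div_iff₀ (by positivity)]
  linarith

/-- `t W† (1 + t W W†)⁻¹ W` is a contraction. -/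
theorem contraction (W : HH n k →L[ℂ] HH n m) {t : ℝ} (ht : 0 ≤ t) (y : HH n k) :
    ‖(t : ℂ) • adjoint W (Res W t (W y))‖ ≤ ‖y‖ := by
  set v := Res W t (W y) with hv
  set u : HH n k := (t : ℂ) • adjoint W v with hu
  have h1 : W (y - u) = v := by
    have h2 := TT_Res W ht (W y)
    rw [TT_apply, ← hv] at h2
    rw [map_sub, hu, map_smul]
    exact sub_eq_iff_eq_add.2 h2.symm
  have h3 : inner ℂ u (y - u) = ((t * ‖v‖ ^ 2 : ℝ) : ℂ) := by
    rw [hu, inner_smul_left, ← hu, adjoint_inner_left, h1, inner_self_eq_norm_sq_to_K,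
      Complex.conj_ofReal]
    push_cast
    rfl
  have h4 : inner ℂ u y = ((‖u‖ ^ 2 + t * ‖v‖ ^ 2 : ℝ) : ℂ) := by
    have h5 : inner ℂ u y = inner ℂ u u + inner ℂ u (y - u) := by
      rw [← inner_add_right, add_sub_cancel]
    rw [h5, h3, inner_self_eq_norm_sq_to_K]
    push_cast
    rfl
  have h6 := norm_inner_le_norm (𝕜 := ℂ) u y
  rw [h4, Complex.norm_real, Real.norm_eq_abs] at h6
  have h7 := (le_abs_self _).trans h6
  have h8 : 0 ≤ t * ‖v‖ ^ 2 := by positivity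
  have h9 := norm_nonneg u
  by_contra hcon
  push Not at hcon
  have h10 := norm_nonneg y
  nlinarith

/-- The trace of the resolvent is at least `m - k`. -/
theorem trace_Res_norm {W : HH n k →L[ℂ] HH n m} (hW : Equi W) {t : ℝ} (ht : 0 ≤ t) :
    (m : ℝ) - k ≤ ‖∑ i : Fin m, (Res W t (dd (i, (1 : FreeGroup (Fin n))))) (i, 1)‖ := by
  classical
  let B : HH n m →L[ℂ] HH n k := (t : ℂ) • (adjoint W ∘L Res W t)
  have hB : ∀ v, B v = (t : ℂ) • adjoint W (Res W t v) := fun v => rfl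
  have hBe : Equi B := by
    intro u f
    rw [hB, hB, Res_equi hW ht, adjoint_equi hW, map_smul]
  have htr := trace_comm W B hW hBe
  have h1 : ∀ i : Fin m, (W (B (dd (i, (1 : FreeGroup (Fin n)))))) (i, 1) =
      1 - (Res W t (dd (i, (1 : FreeGroup (Fin n))))) (i, 1) := by
    intro i
    have h2 := TT_Res W ht (dd (i, (1 : FreeGroup (Fin n))))
    rw [TT_apply] at h2
    have h3 : W (B (dd (i, (1 : FreeGroup (Fin n))))) =
        dd (i, 1) - Res W t (dd (i, 1)) := by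
      rw [hB, map_smul]
      exact eq_sub_of_add_eq' h2
    rw [h3, lp.coeFn_sub, Pi.sub_apply, dd_apply, if_pos rfl]
  simp only [h1] at htr
  rw [Finset.sum_sub_distrib] at htr
  have h4 : ‖∑ j : Fin k, (B (W (dd (j, (1 : FreeGroup (Fin n)))))) (j, 1)‖ ≤ (k : ℝ) := by
    refine (norm_sum_le _ _).trans ?_
    have : ∀ j : Fin k, ‖(B (W (dd (j, (1 : FreeGroup (Fin n)))))) (j, 1)‖ ≤ 1 := by
      intro j
      rw [← inner_dd]
      refine (norm_inner_le_norm _ _).trans ?_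
      rw [norm_dd, one_mul, hB]
      refine (contraction W ht _).trans ?_
      rw [norm_dd]
    refine (Finset.sum_le_sum fun j _ => this j).trans ?_
    simp
  have h5 : (∑ _i : Fin m, (1 : ℂ)) = m := by simp
  rw [h5] at htr
  have h6 : (m : ℂ) = ∑ j : Fin k, (B (W (dd (j, (1 : FreeGroup (Fin n)))))) (j, 1) +
      ∑ i : Fin m, (Res W t (dd (i, (1 : FreeGroup (Fin n))))) (i, 1) := by
    rw [← htr]
    ring
  have h7 : (m : ℝ) = ‖(m : ℂ)‖ := by simp
  rw [h7, h6]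
  have h8 := norm_add_le (∑ j : Fin k, (B (W (dd (j, (1 : FreeGroup (Fin n)))))) (j, 1))
    (∑ i : Fin m, (Res W t (dd (i, (1 : FreeGroup (Fin n))))) (i, 1))
  linarith

theorem trace_Res {W : HH n k →L[ℂ] HH n m} (hW : Equi W) {t : ℝ} (ht : 0 ≤ t) :
    (m : ℝ) - k ≤ ∑ i : Fin m, ‖(Res W t (dd (i, (1 : FreeGroup (Fin n))))) (i, 1)‖ :=
  (trace_Res_norm hW ht).trans (norm_sum_le _ _)

theorem TT_symm (W : HH n k →L[ℂ] HH n m) (t : ℝ) (a b : HH n m) :
    inner ℂ (TT W t a) b = inner ℂ a (TT W t b) := by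
  rw [TT_apply, TT_apply, inner_add_left, inner_add_right, inner_smul_left, inner_smul_right,
    ← adjoint_inner_right W, ← adjoint_inner_left W, Complex.conj_ofReal]

/-- The resolvent is self-adjoint. -/
theorem Res_symm (W : HH n k →L[ℂ] HH n m) {t : ℝ} (ht : 0 ≤ t) (a b : HH n m) :
    inner ℂ (Res W t a) b = inner ℂ a (Res W t b) := by
  have h := TT_symm W t (Res W t a) (Res W t b)
  rw [TT_Res W ht, TT_Res W ht] at h
  exact h.symm

end Pool.Agent.H64.CR
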