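import Mathlib
import Pool.Agent.H64.CR.Res

/-!
# The second moment of `(1 + s² W W†)⁻¹ e_i` is at most `(C s)²`
-/

namespace Pool.Agent.H64.CR

open ContinuousLinearMap

variable {n k m : ℕ}

/-- The commutator of the adjoint with the length. -/
theorem comm_adj (W : HH n k →L[ℂ] HH n m) {C : ℝ} (hC0 : 0 ≤ C)
    (hC : ∀ (N : ℕ) (f : HH n k), ‖LL m N (W f) - W (LL k N f)‖ ≤ C * ‖f‖) (N : ℕ) (f : HH n m) :
    ‖adjoint W (LL m N f) - LL k N (adjoint W f)‖ ≤ C * ‖f‖ := by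
  set d := adjoint W (LL m N f) - LL k N (adjoint W f) with hd
  have h1 : inner ℂ d (adjoint W (LL m N f) - LL k N (adjoint W f)) =
      inner ℂ (LL m N (W d) - W (LL k N d)) f := by
    have e1 : inner ℂ d (adjoint W (LL m N f)) = inner ℂ (LL m N (W d)) f := by
      rw [adjoint_inner_right, inner_LL]
    have e2 : inner ℂ d (LL k N (adjoint W f)) = inner ℂ (W (LL k N d)) f := by
      rw [← inner_LL, adjoint_inner_right]
    refine (inner_sub_right _ _ _).trans ?_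
    rw [e1, e2]
    exact (inner_sub_left _ _ _).symm
  rw [← hd] at h1
  have h2 : ‖d‖ ^ 2 ≤ C * ‖d‖ * ‖f‖ := by
    have h3 : ‖inner ℂ d d‖ = ‖d‖ ^ 2 := by
      rw [inner_self_eq_norm_sq_to_K]
      simp
    rw [← h3, h1]
    refine (norm_inner_le_norm _ _).trans ?_
    exact mul_le_mul_of_nonneg_right (hC N d) (norm_nonneg _)
  by_cases h0 : ‖d‖ = 0
  · rw [h0]
    positivity
  · have hpos : 0 < ‖d‖ := lt_of_le_of_ne (norm_nonneg _) (Ne.symm h0)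
    have h5 : ‖d‖ * ‖d‖ ≤ ‖d‖ * (C * ‖f‖) := by nlinarith
    exact le_of_mul_le_mul_left h5 hpos

theorem LL_dd_one (N : ℕ) (i : Fin m) : LL m N (dd (i, (1 : FreeGroup (Fin n)))) = 0 := by
  classical
  apply lp.ext
  funext p
  rw [LL_apply, dd_apply]
  split_ifs with h
  · rw [h]
    simp [len]
  · rw [mul_zero]
    rfl

/-- The truncated moments of `(1 + s² W W†)⁻¹ e_i`. -/
theorem moment_both (W : HH n k →L[ℂ] HH n m) {C : ℝ} (hC0 : 0 ≤ C)
    (hC : ∀ (N : ℕ) (f : HH n k), ‖LL m N (W f) - W (LL k N f)‖ ≤ C * ‖f‖) {s : ℝ} (hs : 0 < s)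
    (i : Fin m) (N : ℕ) :
    ‖LL m N (Res W (s ^ 2) (dd (i, (1 : FreeGroup (Fin n)))))‖ ≤ C * s ∧
    ‖adjoint W (LL m N (Res W (s ^ 2) (dd (i, (1 : FreeGroup (Fin n))))))‖ ≤ 2 * C := by
  set e : HH n m := dd (i, (1 : FreeGroup (Fin n))) with he
  set z := Res W (s ^ 2) e with hz
  set w := LL m N z with hw
  have hz1 : ‖z‖ ≤ 1 := by
    have h := norm_Res_le W (sq_nonneg s) e
    rwa [he, norm_dd, ← he] at h
  have hz2 : ‖adjoint W z‖ ≤ 1 / (2 * s) := by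
    have h := norm_adj_Res_le W hs e
    rwa [he, norm_dd, ← he] at h
  have h1 : w = -((((s ^ 2 : ℝ) : ℂ)) • LL m N (W (adjoint W z))) := by
    have h2 := TT_Res W (sq_nonneg s) e
    rw [TT_apply, ← hz] at h2
    have h3 := congrArg (LL m N) h2
    rw [map_add, map_smul, he, LL_dd_one] at h3
    exact eq_neg_of_add_eq_zero_left h3
  set a := adjoint W (LL m N z) - LL k N (adjoint W z) with ha
  set b := W (LL k N (adjoint W z)) - LL m N (W (adjoint W z)) with hb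
  have ha' : ‖a‖ ≤ C := by
    refine (comm_adj W hC0 hC N z).trans ?_
    calc C * ‖z‖ ≤ C * 1 := mul_le_mul_of_nonneg_left hz1 hC0
      _ = C := mul_one C
  have hb' : ‖b‖ ≤ C * (1 / (2 * s)) := by
    rw [hb, norm_sub_rev]
    exact (hC N _).trans (mul_le_mul_of_nonneg_left hz2 hC0)
  have h4 : TT W (s ^ 2) w = (((s ^ 2 : ℝ) : ℂ)) • (W a + b) := by
    have h5 : W a + b = W (adjoint W w) - LL m N (W (adjoint W z)) := by
      rw [ha, hb, map_sub, hw]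
      abel
    rw [h5, smul_sub, TT_apply]
    nth_rewrite 1 [h1]
    abel
  have h6 := inner_TT W (s ^ 2) w
  rw [h4, inner_smul_right, inner_add_right, ← adjoint_inner_left] at h6
  have h7 : ‖w‖ ^ 2 + s ^ 2 * ‖adjoint W w‖ ^ 2 ≤
      s ^ 2 * (‖adjoint W w‖ * ‖a‖ + ‖w‖ * ‖b‖) := by
    have h8 : ‖(((s ^ 2 : ℝ) : ℂ)) * (inner ℂ (adjoint W w) a + inner ℂ w b)‖ ≤
        s ^ 2 * (‖adjoint W w‖ * ‖a‖ + ‖w‖ * ‖b‖) := by
      rw [norm_mul, Complex.norm_real, Real.norm_eq_abs, abs_of_nonneg (sq_nonneg s)]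
      refine mul_le_mul_of_nonneg_left ?_ (sq_nonneg s)
      refine (norm_add_le _ _).trans (add_le_add ?_ ?_)
      · exact norm_inner_le_norm _ _
      · exact norm_inner_le_norm _ _
    rw [h6, Complex.norm_real, Real.norm_eq_abs] at h8
    exact (le_abs_self _).trans h8
  set q := ‖adjoint W w‖ with hq
  set r := ‖w‖ with hr
  have hq0 : 0 ≤ q := norm_nonneg _
  have hr0 : 0 ≤ r := norm_nonneg _
  have h9 : r ^ 2 + s ^ 2 * q ^ 2 ≤ s ^ 2 * (q * C) + (C * s / 2) * r := by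
    have e1 : q * ‖a‖ ≤ q * C := mul_le_mul_of_nonneg_left ha' hq0
    have e2 : r * ‖b‖ ≤ r * (C * (1 / (2 * s))) := mul_le_mul_of_nonneg_left hb' hr0
    have e3 : s ^ 2 * (r * (C * (1 / (2 * s)))) = (C * s / 2) * r := by
      field_simp
    calc r ^ 2 + s ^ 2 * q ^ 2 ≤ s ^ 2 * (q * ‖a‖ + r * ‖b‖) := h7
      _ ≤ s ^ 2 * (q * C + r * (C * (1 / (2 * s)))) :=
          mul_le_mul_of_nonneg_left (add_le_add e1 e2) (sq_nonneg s)
      _ = _ := by rw [mul_add, e3]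
  have h10 : s ^ 2 * (q * C) ≤ s ^ 2 * q ^ 2 + (C * s) ^ 2 / 4 := by
    nlinarith [sq_nonneg (s * q - C * s / 2)]
  have hr : r ≤ C * s := by
    by_contra hcon
    push Not at hcon
    have hCs : 0 ≤ C * s := by positivity
    nlinarith
  refine ⟨hr, ?_⟩
  have h11 : s ^ 2 * q ^ 2 ≤ s ^ 2 * (q * C + C ^ 2 / 2) := by
    have h12 : (C * s / 2) * r ≤ (C * s / 2) * (C * s) :=
      mul_le_mul_of_nonneg_left hr (by positivity)
    nlinarith [sq_nonneg r]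
  have h13 : q ^ 2 ≤ q * C + C ^ 2 / 2 := le_of_mul_le_mul_left h11 (by positivity)
  by_contra hcon
  push Not at hcon
  nlinarith

theorem moment_bound (W : HH n k →L[ℂ] HH n m) {C : ℝ} (hC0 : 0 ≤ C)
    (hC : ∀ (N : ℕ) (f : HH n k), ‖LL m N (W f) - W (LL k N f)‖ ≤ C * ‖f‖) {s : ℝ} (hs : 0 < s)
    (i : Fin m) (N : ℕ) :
    ‖LL m N (Res W (s ^ 2) (dd (i, (1 : FreeGroup (Fin n)))))‖ ≤ C * s :=
  (moment_both W hC0 hC hs i N).1

/-- The moments of `W† (1 + s² W W†)⁻¹ e_i` are bounded independently of `s`. -/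
theorem moment_adj (W : HH n k →L[ℂ] HH n m) {C : ℝ} (hC0 : 0 ≤ C)
    (hC : ∀ (N : ℕ) (f : HH n k), ‖LL m N (W f) - W (LL k N f)‖ ≤ C * ‖f‖) {s : ℝ} (hs : 0 < s)
    (i : Fin m) (N : ℕ) :
    ‖LL k N (adjoint W (Res W (s ^ 2) (dd (i, (1 : FreeGroup (Fin n))))))‖ ≤ 3 * C := by
  set z := Res W (s ^ 2) (dd (i, (1 : FreeGroup (Fin n)))) with hz
  have h1 := (moment_both W hC0 hC hs i N).2
  have h2 := comm_adj W hC0 hC N z
  have hz1 : ‖z‖ ≤ 1 := by
    have h := norm_Res_le W (sq_nonneg s) (dd (i, (1 : FreeGroup (Fin n))))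
    rwa [norm_dd] at h
  have h3 : C * ‖z‖ ≤ C * 1 := mul_le_mul_of_nonneg_left hz1 hC0
  have h4 : LL k N (adjoint W z) = adjoint W (LL m N z) -
      (adjoint W (LL m N z) - LL k N (adjoint W z)) := by abel
  rw [h4]
  refine (norm_sub_le _ _).trans ?_
  linarith

/-- From truncated to full moments. -/
theorem moment_sum (z : HH n m) {B : ℝ} (h : ∀ N, ‖LL m N z‖ ≤ B)
    (S : Finset (Fin m × FreeGroup (Fin n))) :
    ∑ p ∈ S, ((FreeGroup.norm p.2 : ℝ) ^ 2 * ‖z p‖ ^ 2) ≤ B ^ 2 := by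
  obtain ⟨N, hN⟩ : ∃ N : ℕ, ∀ p ∈ S, FreeGroup.norm p.2 ≤ N :=
    ⟨S.sup fun p => FreeGroup.norm p.2, fun p hp => Finset.le_sup (f := fun p : Fin m ×
      FreeGroup (Fin n) => FreeGroup.norm p.2) hp⟩
  have h1 : ∑ p ∈ S, ((FreeGroup.norm p.2 : ℝ) ^ 2 * ‖z p‖ ^ 2) = ∑ p ∈ S, ‖LL m N z p‖ ^ 2 := by
    refine Finset.sum_congr rfl fun p hp => ?_
    have h2 : (min (FreeGroup.norm p.2 : ℝ) N : ℝ) = FreeGroup.norm p.2 :=
      min_eq_left (by exact_mod_cast hN p hp)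
    rw [LL_apply, len, h2, norm_mul, mul_pow, Complex.norm_real, Real.norm_eq_abs,
      abs_of_nonneg (by positivity)]
  rw [h1]
  refine ((HH.summable_sq (LL m N z)).sum_le_tsum S fun _ _ => by positivity).trans ?_
  rw [← HH.norm_sq]
  exact pow_le_pow_left₀ (norm_nonneg _) (h N) 2

end Pool.Agent.H64.CR
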