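import Mathlib
import Pool.Agent.H64.CR.Mom
import Pool.Agent.H64.CR.Decay

/-!
# If the range of `W` is closed, the second moments stay bounded
-/

namespace Pool.Agent.H64.CR

open ContinuousLinearMap Pool.Agent.H64.AugIdeal

variable {n k m : ℕ}

/-- The open mapping theorem. -/
theorem exists_preimage_bound (W : HH n k →L[ℂ] HH n m) (hcl : IsClosed (Set.range W)) :
    ∃ c : ℝ, 0 < c ∧ ∀ y, ∃ u, W u = W y ∧ ‖u‖ ≤ c * ‖W y‖ := by
  set K : Submodule ℂ (HH n m) := LinearMap.range W.toLinearMap with hK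
  have hKc : IsClosed (K : Set (HH n m)) := by
    have : (K : Set (HH n m)) = Set.range W := by
      ext x
      simp [hK]
    rw [this]
    exact hcl
  have : CompleteSpace K := hKc.completeSpace_coe
  have hWK : ∀ y, W y ∈ K := fun y => ⟨y, rfl⟩
  let W' : HH n k →L[ℂ] K := W.codRestrict K hWK
  have hW's : Function.Surjective W' := by
    rintro ⟨_, ⟨t, rfl⟩⟩
    exact ⟨t, rfl⟩
  obtain ⟨c, hc, hc'⟩ := W'.exists_preimage_norm_le hW's
  refine ⟨c, hc, fun y => ?_⟩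
  obtain ⟨u, hu, hu'⟩ := hc' ⟨W y, hWK y⟩
  exact ⟨u, congrArg Subtype.val hu, hu'⟩

theorem le_of_sq_le_mul {a b : ℝ} (ha : 0 ≤ a) (hb : 0 ≤ b) (h : a ^ 2 ≤ a * b) : a ≤ b := by
  by_contra hcon
  push Not at hcon
  nlinarith

/-- `‖t W† (1 + t W W†)⁻¹‖ ≤ c`. -/
theorem adj_Res_gap (W : HH n k →L[ℂ] HH n m) {c : ℝ} (hc : 0 < c)
    (hW : ∀ y, ∃ u, W u = W y ∧ ‖u‖ ≤ c * ‖W y‖) {t : ℝ} (ht : 0 ≤ t) (e : HH n m) :
    t * ‖adjoint W (Res W t e)‖ ≤ c * ‖e‖ := by
  set z := Res W t e with hz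
  set u := adjoint W z with hu
  obtain ⟨u', hu1, hu2⟩ := hW u
  have h1 : ‖u‖ ≤ ‖u'‖ := by
    refine le_of_sq_le_mul (norm_nonneg _) (norm_nonneg _) ?_
    have h2 : inner ℂ u u = inner ℂ u u' := by
      have e1 : inner ℂ u u = inner ℂ z (W u) := by
        nth_rewrite 1 [hu]
        rw [adjoint_inner_left]
      rw [e1, ← hu1, ← adjoint_inner_left]
    have h3 : ‖inner ℂ u u‖ = ‖u‖ ^ 2 := by
      rw [inner_self_eq_norm_sq_to_K]
      simp
    rw [← h3, h2]
    exact norm_inner_le_norm _ _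
  have h4 : t * ‖W u‖ ≤ ‖e‖ := by
    have h5 : z + (t : ℂ) • W u = e := TT_Res W ht e
    have h6 : inner ℂ (W u) e = ((‖u‖ ^ 2 + t * ‖W u‖ ^ 2 : ℝ) : ℂ) := by
      rw [← h5, inner_add_right, inner_smul_right, inner_self_eq_norm_sq_to_K,
        ← adjoint_inner_right, ← hu, inner_self_eq_norm_sq_to_K]
      push_cast
      rfl
    have h7 := norm_inner_le_norm (𝕜 := ℂ) (W u) e
    rw [h6, Complex.norm_real, Real.norm_eq_abs] at h7
    have h8 := (le_abs_self _).trans h7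
    by_contra hcon
    push Not at hcon
    have h9 : 0 < ‖W u‖ := by
      by_contra h0
      have h10 : ‖W u‖ = 0 := le_antisymm (not_lt.1 h0) (norm_nonneg _)
      rw [h10, mul_zero] at hcon
      exact absurd hcon (not_lt.2 (norm_nonneg _))
    have h11 := mul_lt_mul_of_pos_left hcon h9
    have h12 := sq_nonneg ‖u‖
    nlinarith
  calc t * ‖u‖ ≤ t * (c * ‖W u‖) := mul_le_mul_of_nonneg_left (h1.trans hu2) ht
    _ = c * (t * ‖W u‖) := by ring
    _ ≤ c * ‖e‖ := mul_le_mul_of_nonneg_left h4 hc.le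

/-- `‖t (1 + t W W†)⁻¹ W‖ ≤ c`. -/
theorem Res_gap (W : HH n k →L[ℂ] HH n m) {c : ℝ} (hc : 0 < c)
    (hW : ∀ y, ∃ u, W u = W y ∧ ‖u‖ ≤ c * ‖W y‖) {t : ℝ} (ht : 0 ≤ t) (a : HH n k) :
    t * ‖Res W t (W a)‖ ≤ c * ‖a‖ := by
  set v := Res W t (W a) with hv
  have h1 : v = W (a - (t : ℂ) • adjoint W v) := by
    have h2 := TT_Res W ht (W a)
    rw [TT_apply, ← hv] at h2
    rw [map_sub, map_smul]
    exact eq_sub_of_add_eq h2
  obtain ⟨u', hu1, hu2⟩ := hW (a - (t : ℂ) • adjoint W v)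
  rw [← h1] at hu1 hu2
  have h3 : ‖v‖ ≤ c * ‖adjoint W v‖ := by
    refine le_of_sq_le_mul (norm_nonneg _) (by positivity) ?_
    have h4 : inner ℂ v v = inner ℂ (adjoint W v) u' := by
      rw [adjoint_inner_left, hu1]
    have h5 : ‖inner ℂ v v‖ = ‖v‖ ^ 2 := by
      rw [inner_self_eq_norm_sq_to_K]
      simp
    rw [← h5, h4]
    refine (norm_inner_le_norm _ _).trans ?_
    calc ‖adjoint W v‖ * ‖u'‖ ≤ ‖adjoint W v‖ * (c * ‖v‖) :=
          mul_le_mul_of_nonneg_left hu2 (norm_nonneg _)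
      _ = _ := by ring
  have h6 : t * ‖adjoint W v‖ ≤ ‖a‖ := by
    have h7 := inner_TT W t v
    rw [TT_Res W ht (W a), ← adjoint_inner_left] at h7
    have h8 := norm_inner_le_norm (𝕜 := ℂ) (adjoint W v) a
    rw [h7, Complex.norm_real, Real.norm_eq_abs] at h8
    have h9 := (le_abs_self _).trans h8
    by_contra hcon
    push Not at hcon
    have h10 : 0 < ‖adjoint W v‖ := by
      by_contra h0
      have h11 : ‖adjoint W v‖ = 0 := le_antisymm (not_lt.1 h0) (norm_nonneg _)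
      rw [h11, mul_zero] at hcon
      exact absurd hcon (not_lt.2 (norm_nonneg _))
    have h11 := mul_lt_mul_of_pos_left hcon h10
    have h12 := sq_nonneg ‖v‖
    nlinarith
  calc t * ‖v‖ ≤ t * (c * ‖adjoint W v‖) := mul_le_mul_of_nonneg_left h3 ht
    _ = c * (t * ‖adjoint W v‖) := by ring
    _ ≤ c * ‖a‖ := mul_le_mul_of_nonneg_left h6 hc.le

/-- The second moments of `(1 + t W W†)⁻¹ e_i` are bounded if the range of `W` is closed. -/
theorem moment_gap (W : HH n k →L[ℂ] HH n m) {C : ℝ} (hC0 : 0 ≤ C)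
    (hC : ∀ (N : ℕ) (f : HH n k), ‖LL m N (W f) - W (LL k N f)‖ ≤ C * ‖f‖) {c : ℝ} (hc : 0 < c)
    (hW : ∀ y, ∃ u, W u = W y ∧ ‖u‖ ≤ c * ‖W y‖) {t : ℝ} (ht : 0 ≤ t) (i : Fin m) (N : ℕ) :
    ‖LL m N (Res W t (dd (i, (1 : FreeGroup (Fin n)))))‖ ≤ 2 * c * C := by
  set e : HH n m := dd (i, (1 : FreeGroup (Fin n))) with he
  set z := Res W t e with hz
  set w := LL m N z with hw
  have hz1 : ‖z‖ ≤ 1 := by
    have h := norm_Res_le W ht e
    rwa [he, norm_dd, ← he] at h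
  have hz2 : t * ‖adjoint W z‖ ≤ c := by
    have h := adj_Res_gap W hc hW ht e
    rwa [he, norm_dd, mul_one, ← he] at h
  have h1 : w = -((t : ℂ) • LL m N (W (adjoint W z))) := by
    have h2 := TT_Res W ht e
    rw [TT_apply, ← hz] at h2
    have h3 := congrArg (LL m N) h2
    rw [map_add, map_smul, he, LL_dd_one] at h3
    exact eq_neg_of_add_eq_zero_left h3
  set a := adjoint W (LL m N z) - LL k N (adjoint W z) with ha
  set b := W (LL k N (adjoint W z)) - LL m N (W (adjoint W z)) with hb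
  have ha' : ‖a‖ ≤ C := by
    refine (comm_adj W hC0 hC N z).trans ?_
    calc C * ‖z‖ ≤ C * 1 := mul_le_mul_of_nonneg_left hz1 hC0
      _ = C := mul_one C
  have hb' : t * ‖b‖ ≤ c * C := by
    have h2 : ‖b‖ ≤ C * ‖adjoint W z‖ := by
      rw [hb, norm_sub_rev]
      exact hC N _
    calc t * ‖b‖ ≤ t * (C * ‖adjoint W z‖) := mul_le_mul_of_nonneg_left h2 ht
      _ = C * (t * ‖adjoint W z‖) := by ring
      _ ≤ C * c := mul_le_mul_of_nonneg_left hz2 hC0
      _ = c * C := by ring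
  have h4 : TT W t w = (t : ℂ) • (W a + b) := by
    have h5 : W a + b = W (adjoint W w) - LL m N (W (adjoint W z)) := by
      rw [ha, hb, map_sub, hw]
      abel
    rw [h5, smul_sub, TT_apply]
    nth_rewrite 1 [h1]
    abel
  have h6 : w = (t : ℂ) • Res W t (W a) + (t : ℂ) • Res W t b := by
    rw [← smul_add, ← map_add, ← map_smul, ← h4, Res_TT W ht]
  rw [h6]
  refine (norm_add_le _ _).trans ?_
  rw [norm_smul, norm_smul, Complex.norm_real, Real.norm_eq_abs, abs_of_nonneg ht]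
  have h7 := Res_gap W hc hW ht a
  have h8 := mul_le_mul_of_nonneg_left (norm_Res_le W ht b) ht
  have h9 := mul_le_mul_of_nonneg_left ha' hc.le
  linarith

end Pool.Agent.H64.CR
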