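import Mathlib
import Pool.Agent.H64.AugIdeal.Single
import Pool.Agent.H64.AugIdeal.Fox

/-!
# Fox derivatives of elements with finite second moment
-/

namespace Pool.Agent.H64.CR

open Pool.Agent.H64.AugIdeal

variable {n : ℕ}

theorem conv_pt_pt (u v : FreeGroup (Fin n)) : conv (pt u) (pt v) = pt (u * v) := by
  apply L1.ext_R
  rw [R_conv, R_pt, R_pt, R_pt]
  apply lp.ext
  funext x
  rw [rho_apply, rho_apply, rho_apply, mul_inv_rev, mul_assoc]

theorem norm_pt_le (v : FreeGroup (Fin n)) : ‖pt v‖ ≤ 1 := by
  classical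
  rw [L1.norm_eq, tsum_eq_single v]
  · rw [pt_apply, if_pos rfl, norm_one]
  · intro g hg
    rw [pt_apply, if_neg hg, norm_zero]

theorem norm_apply_le (f : L1 n) (h : FreeGroup (Fin n)) : ‖f h‖ ≤ ‖f‖ := by
  rw [L1.norm_eq]
  exact (L1.summable_norm f).le_tsum h fun _ _ => norm_nonneg _

/-- Evaluation. -/
noncomputable def ev (h : FreeGroup (Fin n)) : L1 n →L[ℂ] ℂ :=
  LinearMap.mkContinuous
    { toFun := fun f => f h
      map_add' := fun f g => L1.add_apply f g h
      map_smul' := fun c f => L1.smul_apply c f h } 1 (by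
    intro f
    rw [one_mul]
    exact norm_apply_le f h)

theorem ev_apply (h : FreeGroup (Fin n)) (f : L1 n) : ev h f = f h := rfl

/-- Left convolution as a continuous linear map. -/
noncomputable def convLc (x : L1 n) : L1 n →L[ℂ] L1 n :=
  LinearMap.mkContinuous (convL x) ‖x‖ (fun f => (norm_conv_le x f).trans (le_of_eq (mul_comm _ _)))

theorem convLc_apply (x y : L1 n) : convLc x y = conv x y := rfl

theorem sub_conv' (z z' w : L1 n) : conv (z - z') w = conv z w - conv z' w :=
  map_sub (convR w) z z'

/-- The Fox derivatives of a group element. -/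
theorem exists_D (g : FreeGroup (Fin n)) :
    ∃ D : Fin n → L1 n, pt g - pt 1 = ∑ i, conv (pt (FreeGroup.of i) - pt 1) (D i) ∧
      ∀ i, ‖D i‖ ≤ FreeGroup.norm g ∧ ∀ h, FreeGroup.norm g < FreeGroup.norm h → D i h = 0 := by
  classical
  have key : ∀ (N : ℕ) (g : FreeGroup (Fin n)), FreeGroup.norm g = N →
      ∃ D : Fin n → L1 n, pt g - pt 1 = ∑ i, conv (pt (FreeGroup.of i) - pt 1) (D i) ∧
      ∀ i, ‖D i‖ ≤ N ∧ ∀ h, N < FreeGroup.norm h → D i h = 0 := by
    intro N
    induction N with
    | zero =>
      intro g hg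
      have : g = 1 := FreeGroup.norm_eq_zero.1 hg
      subst this
      refine ⟨fun _ => 0, ?_, fun i => ⟨by simp, fun h _ => rfl⟩⟩
      rw [sub_self]
      symm
      refine Finset.sum_eq_zero fun i _ => ?_
      exact map_zero (convLc (pt (FreeGroup.of i) - pt 1))
    | succ N ih =>
      intro g hg
      have h0 : g ≠ 1 := by
        rintro rfl
        rw [FreeGroup.norm_one] at hg
        omega
      obtain ⟨x, h₁, e, hn⟩ := exists_letter_mul g h0
      have hN : FreeGroup.norm h₁ = N := by omega
      obtain ⟨D, hD1, hD2⟩ := ih h₁ hN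
      rcases x with ⟨a, b⟩
      have main : ∀ (c : ℂ) (u : FreeGroup (Fin n)), ‖c‖ = 1 → FreeGroup.norm u ≤ N + 1 →
          pt g - pt h₁ = conv (pt (FreeGroup.of a) - pt 1) (c • pt u) →
          ∃ D : Fin n → L1 n, pt g - pt 1 = ∑ i, conv (pt (FreeGroup.of i) - pt 1) (D i) ∧
            ∀ i, ‖D i‖ ≤ ((N + 1 : ℕ) : ℝ) ∧ ∀ h, N + 1 < FreeGroup.norm h → D i h = 0 := by
        intro c u hc hu heq
        refine ⟨fun i => D i + if i = a then c • pt u else 0, ?_, fun i => ⟨?_, fun h hh => ?_⟩⟩
        · have h1 : ∀ i, conv (pt (FreeGroup.of i) - pt 1) (D i + if i = a then c • pt u else 0) =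
              conv (pt (FreeGroup.of i) - pt 1) (D i) +
                if i = a then conv (pt (FreeGroup.of a) - pt 1) (c • pt u) else 0 := by
            intro i
            rw [conv_add]
            congr 1
            split_ifs with h
            · rw [h]
            · exact map_zero (convLc (pt (FreeGroup.of i) - pt 1))
          simp only [h1]
          rw [Finset.sum_add_distrib, ← hD1, Finset.sum_ite_eq' Finset.univ a,
            if_pos (Finset.mem_univ a), ← heq]
          abel
        · have h2 : ‖(if i = a then c • pt u else 0 : L1 n)‖ ≤ 1 := by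
            split_ifs
            · rw [norm_smul, hc, one_mul]
              exact norm_pt_le u
            · rw [norm_zero]
              exact zero_le_one
          push_cast
          exact (norm_add_le _ _).trans (add_le_add (hD2 i).1 h2)
        · rw [L1.add_apply, (hD2 i).2 h (by omega), zero_add]
          split_ifs
          · rw [L1.smul_apply, pt_apply, if_neg, mul_zero]
            rintro rfl
            omega
          · rfl
      cases b
      · have e1 : h₁ = FreeGroup.of a * g := by
          rw [e, mk_false, mul_inv_cancel_left]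
        refine main (-1) g (by simp) (by omega) ?_
        rw [conv_smul, sub_conv', conv_pt_pt, conv_pt_pt, one_mul, ← e1, neg_one_smul]
        abel
      · have e1 : g = FreeGroup.of a * h₁ := by
          rw [e, mk_true]
        refine main 1 h₁ (by simp) (by omega) ?_
        rw [one_smul, sub_conv', conv_pt_pt, conv_pt_pt, one_mul, ← e1]
  exact key _ g rfl

/-- An element of the augmentation ideal with finite second moment is `∑ (δ_{a_i} - δ_e) * w_i` with
`w_i` of finite first moment. -/
theorem exists_fox (x : L1 n) (hx : x ∈ I0 n)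
    (h2 : Summable fun g => (FreeGroup.norm g : ℝ) ^ 2 * ‖x g‖) :
    ∃ w : Fin n → L1 n, (∀ i, Summable fun h => (FreeGroup.norm h : ℝ) * ‖w i h‖) ∧
      x = ∑ i, conv (pt (FreeGroup.of i) - pt 1) (w i) := by
  classical
  choose D hD1 hD2 using exists_D (n := n)
  have hsum : ∀ i, Summable fun g => x g • D g i := by
    intro i
    refine Summable.of_norm_bounded h2 fun g => ?_
    rw [norm_smul, mul_comm]
    refine mul_le_mul_of_nonneg_right ?_ (norm_nonneg _)
    refine (hD2 g i).1.trans ?_
    have : FreeGroup.norm g ≤ FreeGroup.norm g ^ 2 := Nat.le_self_pow two_ne_zero _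
    exact_mod_cast this
  refine ⟨fun i => ∑' g, x g • D g i, fun i => ?_, ?_⟩
  · refine summable_of_sum_le (c := ∑' g, (FreeGroup.norm g : ℝ) ^ 2 * ‖x g‖)
      (fun _ => by positivity) fun S => ?_
    have h3 : ∀ h, HasSum (fun g => x g * D g i h) ((∑' g, x g • D g i : L1 n) h) := fun h =>
      (hsum i).hasSum.mapL (ev h)
    have h4 : ∀ h, Summable fun g => ‖x g * D g i h‖ := by
      intro h
      refine Summable.of_nonneg_of_le (fun _ => norm_nonneg _) (fun g => ?_) h2
      rw [norm_mul, mul_comm]
      refine mul_le_mul_of_nonneg_right ?_ (norm_nonneg _)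
      refine (norm_apply_le _ _).trans ((hD2 g i).1.trans ?_)
      have : FreeGroup.norm g ≤ FreeGroup.norm g ^ 2 := Nat.le_self_pow two_ne_zero _
      exact_mod_cast this
    have h5 : ∀ h, (FreeGroup.norm h : ℝ) * ‖(∑' g, x g • D g i : L1 n) h‖ ≤
        ∑' g, (FreeGroup.norm h : ℝ) * ‖x g * D g i h‖ := by
      intro h
      rw [tsum_mul_left]
      refine mul_le_mul_of_nonneg_left ?_ (Nat.cast_nonneg _)
      rw [← (h3 h).tsum_eq]
      exact norm_tsum_le_tsum_norm (h4 h)
    calc ∑ h ∈ S, (FreeGroup.norm h : ℝ) * ‖(∑' g, x g • D g i : L1 n) h‖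
        ≤ ∑ h ∈ S, ∑' g, (FreeGroup.norm h : ℝ) * ‖x g * D g i h‖ :=
          Finset.sum_le_sum fun h _ => h5 h
      _ = ∑' g, ∑ h ∈ S, (FreeGroup.norm h : ℝ) * ‖x g * D g i h‖ := by
          rw [Summable.tsum_finsetSum fun h _ => (h4 h).mul_left _]
      _ ≤ ∑' g, (FreeGroup.norm g : ℝ) ^ 2 * ‖x g‖ := by
          refine Summable.tsum_le_tsum (fun g => ?_)
            (summable_sum fun h _ => (h4 h).mul_left _) h2
          have h6 : ∀ h ∈ S, (FreeGroup.norm h : ℝ) * ‖x g * D g i h‖ ≤
              (FreeGroup.norm g : ℝ) * ‖x g‖ * ‖D g i h‖ := by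
            intro h _
            by_cases hh : FreeGroup.norm g < FreeGroup.norm h
            · rw [(hD2 g i).2 h hh]
              simp
            · have : (FreeGroup.norm h : ℝ) ≤ FreeGroup.norm g := by
                exact_mod_cast not_lt.1 hh
              rw [norm_mul, ← mul_assoc]
              gcongr
          refine (Finset.sum_le_sum h6).trans ?_
          rw [← Finset.mul_sum]
          have h7 : ∑ h ∈ S, ‖D g i h‖ ≤ FreeGroup.norm g := by
            refine ((L1.summable_norm (D g i)).sum_le_tsum S fun _ _ => norm_nonneg _).trans ?_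
            rw [← L1.norm_eq]
            exact (hD2 g i).1
          calc (FreeGroup.norm g : ℝ) * ‖x g‖ * ∑ h ∈ S, ‖D g i h‖
              ≤ (FreeGroup.norm g : ℝ) * ‖x g‖ * FreeGroup.norm g := by gcongr
            _ = _ := by ring
  · have h3 : ∀ i, HasSum (fun g => x g • conv (pt (FreeGroup.of i) - pt 1) (D g i))
        (conv (pt (FreeGroup.of i) - pt 1) (∑' g, x g • D g i)) := by
      intro i
      have h4 := (hsum i).hasSum.mapL (convLc (pt (FreeGroup.of i) - pt 1))
      refine h4.congr_fun fun g => ?_
      exact (conv_smul _ _ _).symm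
    have h4 : HasSum (fun g => x g • (pt g - pt 1))
        (∑ i, conv (pt (FreeGroup.of i) - pt 1) (∑' g, x g • D g i)) := by
      have h5 := hasSum_sum (s := Finset.univ) fun i _ => h3 i
      refine h5.congr_fun fun g => ?_
      rw [hD1 g, Finset.smul_sum]
    apply L1.ext
    intro u
    have h5 := h4.mapL (ev u)
    have h6 : HasSum (fun g => x g * pt g u - x g * pt 1 u) (x u - 0 * pt 1 u) := by
      refine HasSum.sub ?_ ?_
      · have h7 := hasSum_single (f := fun g => x g * pt g u) u (by
          intro g hg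
          rw [pt_apply, if_neg (fun e => hg e.symm), mul_zero])
        have h8 : x u * pt u u = x u := by rw [pt_apply, if_pos rfl, mul_one]
        rw [h8] at h7
        exact h7
      · have h9 := (L1.summable x).hasSum
        rw [mem_I0.1 hx] at h9
        exact h9.mul_right _
    have h7 : HasSum (fun g => x g * pt g u - x g * pt 1 u)
        ((∑ i, conv (pt (FreeGroup.of i) - pt 1) (∑' g, x g • D g i) : L1 n) u) := by
      refine h5.congr_fun fun g => ?_
      change _ = x g * (pt g u - pt 1 u)
      ring
    have h8 := h6.unique h7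
    rw [zero_mul, sub_zero] at h8
    exact h8

end Pool.Agent.H64.CR
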