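import Mathlib
import Pool.Agent.H64.AugIdeal.Fox

/-!
# A function on the tree whose gradient has finite second moment is bounded
-/

namespace Pool.Agent.H64.CR

open Pool.Agent.H64.AugIdeal

variable {n : ℕ}

/-- The level of an edge. -/
def lev (p : FreeGroup (Fin n) × Fin n) : ℕ :=
  min (FreeGroup.norm p.1) (FreeGroup.norm (FreeGroup.of p.2 * p.1))

theorem am_gm {t a : ℝ} (ht : 1 ≤ t) : a ≤ 1 / t ^ 2 + t ^ 2 * a ^ 2 := by
  have h0 : 0 < t := by linarith
  have h1 : 0 ≤ (1 / t - t * a) ^ 2 := sq_nonneg _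
  have h2 : (1 / t - t * a) ^ 2 = 1 / t ^ 2 - 2 * a + t ^ 2 * a ^ 2 := by
    field_simp
    ring
  have h3 : 0 ≤ 1 / t ^ 2 + t ^ 2 * a ^ 2 := by positivity
  rw [h2] at h1
  linarith

theorem pot_bounded_sq {f : FreeGroup (Fin n) × Fin n → ℂ}
    (hf : Summable fun p : FreeGroup (Fin n) × Fin n =>
      ((FreeGroup.norm p.1 : ℝ) + 1) ^ 2 * ‖f p‖ ^ 2) :
    ∃ B : ℝ, ∀ g, ‖pot f g‖ ≤ B := by
  classical
  have hser : Summable fun t : ℕ => 1 / ((t : ℝ) + 1) ^ 2 := by
    have h1 : Summable fun t : ℕ => 1 / (t : ℝ) ^ 2 :=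
      Real.summable_one_div_nat_pow.2 (by norm_num)
    have h2 := (summable_nat_add_iff 1).2 h1
    refine h2.congr fun t => ?_
    push_cast
    rfl
  have hstep : ∀ (p : FreeGroup (Fin n) × Fin n) (N : ℕ), N ≤ FreeGroup.norm p.1 →
      ‖f p‖ ≤ 1 / ((N : ℝ) + 1) ^ 2 + ((FreeGroup.norm p.1 : ℝ) + 1) ^ 2 * ‖f p‖ ^ 2 := by
    intro p N hN
    have h1 := am_gm (t := (N : ℝ) + 1) (a := ‖f p‖) (by linarith [Nat.cast_nonneg (α := ℝ) N])
    have h2 : ((N : ℝ) + 1) ^ 2 * ‖f p‖ ^ 2 ≤
        ((FreeGroup.norm p.1 : ℝ) + 1) ^ 2 * ‖f p‖ ^ 2 := by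
      have h3 : (N : ℝ) ≤ FreeGroup.norm p.1 := by exact_mod_cast hN
      gcongr
    linarith
  have key : ∀ (N : ℕ) (g : FreeGroup (Fin n)), FreeGroup.norm g = N →
      ∃ S : Finset (FreeGroup (Fin n) × Fin n), (∀ p ∈ S, lev p < N) ∧
        ‖pot f g‖ ≤ ∑ t ∈ Finset.range N, 1 / ((t : ℝ) + 1) ^ 2 +
          ∑ p ∈ S, ((FreeGroup.norm p.1 : ℝ) + 1) ^ 2 * ‖f p‖ ^ 2 := by
    intro N
    induction N with
    | zero =>
      intro g hg
      have : g = 1 := FreeGroup.norm_eq_zero.1 hg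
      subst this
      exact ⟨∅, by simp, by simp [pot]⟩
    | succ N ih =>
      intro g hg
      have h0 : g ≠ 1 := by
        rintro rfl
        rw [FreeGroup.norm_one] at hg
        omega
      obtain ⟨x, h₁, e, hn⟩ := exists_letter_mul g h0
      have hN : FreeGroup.norm h₁ = N := by omega
      obtain ⟨S, hS1, hS2⟩ := ih h₁ hN
      rcases x with ⟨a, b⟩
      have main : ∀ p : FreeGroup (Fin n) × Fin n, lev p = N → N ≤ FreeGroup.norm p.1 →
          ‖pot f g‖ ≤ ‖pot f h₁‖ + ‖f p‖ →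
          ∃ S : Finset (FreeGroup (Fin n) × Fin n), (∀ p ∈ S, lev p < N + 1) ∧
            ‖pot f g‖ ≤ ∑ t ∈ Finset.range (N + 1), 1 / ((t : ℝ) + 1) ^ 2 +
              ∑ p ∈ S, ((FreeGroup.norm p.1 : ℝ) + 1) ^ 2 * ‖f p‖ ^ 2 := by
        intro p hp1 hp2 hp3
        have hpS : p ∉ S := by
          intro h
          have := hS1 p h
          omega
        refine ⟨insert p S, ?_, ?_⟩
        · intro q hq
          rcases Finset.mem_insert.1 hq with rfl | hq
          · omega
          · have := hS1 q hq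
            omega
        · rw [Finset.sum_range_succ, Finset.sum_insert hpS]
          have := hstep p N hp2
          linarith
      cases b
      · have e1 : h₁ = FreeGroup.of a * g := by
          rw [e, mk_false, mul_inv_cancel_left]
        have h2 : pot f g = pot f h₁ - f (g, a) := by
          rw [e1, pot_of_mul]
          ring
        refine main (g, a) ?_ ?_ ?_
        · unfold lev
          change min (FreeGroup.norm g) (FreeGroup.norm (FreeGroup.of a * g)) = N
          rw [← e1, hN, hg]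
          omega
        · change N ≤ FreeGroup.norm g
          omega
        · rw [h2]
          exact norm_sub_le _ _
      · have h2 : pot f g = pot f h₁ + f (h₁, a) := by
          rw [e, mk_true, pot_of_mul]
        refine main (h₁, a) ?_ ?_ ?_
        · unfold lev
          change min (FreeGroup.norm h₁) (FreeGroup.norm (FreeGroup.of a * h₁)) = N
          have e2 : FreeGroup.of a * h₁ = g := by rw [e, mk_true]
          rw [e2, hN, hg]
          omega
        · change N ≤ FreeGroup.norm h₁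
          omega
        · rw [h2]
          exact norm_add_le _ _
  refine ⟨∑' t : ℕ, 1 / ((t : ℝ) + 1) ^ 2 +
    ∑' p : FreeGroup (Fin n) × Fin n, ((FreeGroup.norm p.1 : ℝ) + 1) ^ 2 * ‖f p‖ ^ 2,
    fun g => ?_⟩
  obtain ⟨S, -, hS⟩ := key _ g rfl
  refine hS.trans (add_le_add ?_ ?_)
  · exact hser.sum_le_tsum _ fun _ _ => by positivity
  · exact hf.sum_le_tsum _ fun _ _ => by positivity

end Pool.Agent.H64.CR
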