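import Mathlib
import Pool.Agent.H64.CR.Decay
import Pool.Agent.H64.CR.Pot
import Pool.Agent.H64.RatIdeal.Act

/-!
# A bounded nonconstant function annihilated by the generators
-/

namespace Pool.Agent.H64.CR

open Pool.Agent.H64.AugIdeal Pool.Agent.H64.RatIdeal

variable {n k m : ℕ}

theorem WW_dd (w : Fin m → Fin k → L1 n) (j : Fin k) (g x : FreeGroup (Fin n)) (i : Fin m) :
    WW w (dd (j, g)) (i, x) = w i j (x * g⁻¹) := by
  classical
  rw [WW_apply, Finset.sum_eq_single j]
  · rw [tsum_eq_single (x * g⁻¹)]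
    · rw [dd_apply, if_pos, mul_one]
      rw [mul_inv_rev, inv_inv, inv_mul_cancel_right]
    · intro h hh
      rw [dd_apply, if_neg, mul_zero]
      intro e
      apply hh
      have h1 : h⁻¹ * x = g := (Prod.mk.inj e).2
      rw [← h1, mul_inv_rev, inv_inv, mul_inv_cancel_left]
  · intro j' _ hj'
    have h0 : ∀ h, w i j' h * (dd (j, g) : HH n k) (j', h⁻¹ * x) = 0 := by
      intro h
      rw [dd_apply, if_neg, mul_zero]
      intro e
      exact hj' (Prod.mk.inj e).1
    simp only [h0, tsum_zero]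
  · intro h
    exact absurd (Finset.mem_univ j) h

/-- The relations satisfied by the conjugate of a vector orthogonal to the range. -/
theorem relation (w : Fin m → Fin k → L1 n) {z : HH n m}
    (hz : ∀ y : HH n k, inner ℂ (WW w y) z = 0) (j : Fin k) (g : FreeGroup (Fin n)) :
    ∑ i, ∑' h, w i j h * starRingEnd ℂ (z (i, h * g)) = 0 := by
  have h1 := hz (dd (j, g))
  have hs := lp.summable_inner (𝕜 := ℂ) (WW w (dd (j, g))) z
  rw [lp.inner_eq_tsum, hs.tsum_prod, tsum_fintype] at h1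
  have h2 := congrArg (starRingEnd ℂ) h1
  rw [map_sum, map_zero] at h2
  rw [← h2]
  refine Finset.sum_congr rfl fun i _ => ?_
  rw [Complex.conj_tsum, ← (Equiv.mulRight g).tsum_eq
    (fun c => starRingEnd ℂ (inner ℂ (WW w (dd (j, g)) (i, c)) (z (i, c))))]
  refine tsum_congr fun h => ?_
  rw [Equiv.coe_mulRight, RCLike.inner_apply, WW_dd, mul_inv_cancel_right, map_mul,
    RCLike.conj_conj, mul_comm]

theorem act_pt_sub {φ : FreeGroup (Fin n) → ℂ} (i : Fin n) (h : FreeGroup (Fin n)) :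
    act φ (pt (FreeGroup.of i) - pt 1) h = φ (FreeGroup.of i * h) - φ h := by
  have h1 := tsum_pt_sub (FreeGroup.of i) 1 fun u => φ (u * h)
  rw [one_mul] at h1
  exact h1

theorem exists_bounded (hk : k < n) (w : Fin n → Fin k → L1 n)
    (hw : ∀ i j, Summable fun h => (FreeGroup.norm h : ℝ) * ‖w i j h‖)
    (hcl : IsClosed (Set.range (WW w))) :
    ∃ φ : FreeGroup (Fin n) → ℂ, Bdd φ ∧ (∃ g h, φ g ≠ φ h) ∧
      ∀ j g, act φ (∑ i, conv (pt (FreeGroup.of i) - pt 1) (w i j)) g = 0 := by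
  obtain ⟨z, hz0, hz1, hz2⟩ := exists_decaying hk w hw hcl
  let F : FreeGroup (Fin n) × Fin n → ℂ := fun p => starRingEnd ℂ (z (p.2, p.1))
  have hF : Summable fun p : FreeGroup (Fin n) × Fin n =>
      ((FreeGroup.norm p.1 : ℝ) + 1) ^ 2 * ‖F p‖ ^ 2 := by
    have h1 : Summable fun p : Fin n × FreeGroup (Fin n) =>
        ((FreeGroup.norm p.2 : ℝ) + 1) ^ 2 * ‖z p‖ ^ 2 := by
      refine Summable.of_nonneg_of_le (fun _ => by positivity) (fun p => ?_)
        ((hz2.mul_left 2).add ((HH.summable_sq z).mul_left 2))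
      have h2 : ((FreeGroup.norm p.2 : ℝ) + 1) ^ 2 ≤ 2 * (FreeGroup.norm p.2 : ℝ) ^ 2 + 2 := by
        nlinarith [sq_nonneg ((FreeGroup.norm p.2 : ℝ) - 1)]
      calc ((FreeGroup.norm p.2 : ℝ) + 1) ^ 2 * ‖z p‖ ^ 2
          ≤ (2 * (FreeGroup.norm p.2 : ℝ) ^ 2 + 2) * ‖z p‖ ^ 2 :=
            mul_le_mul_of_nonneg_right h2 (by positivity)
        _ = _ := by ring
    have h3 := (Equiv.prodComm (FreeGroup (Fin n)) (Fin n)).summable_iff.2 h1
    refine h3.congr fun p => ?_
    have h4 : ‖F p‖ = ‖z (p.2, p.1)‖ := RCLike.norm_conj _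
    rw [h4]
    rfl
  obtain ⟨B, hB⟩ := pot_bounded_sq hF
  have hφ : Bdd (pot F) := ⟨B, hB⟩
  refine ⟨pot F, hφ, ?_, ?_⟩
  · by_contra hcon
    push Not at hcon
    apply hz0
    apply lp.ext
    funext p
    obtain ⟨i, g⟩ := p
    have h1 := pot_of_mul F i g
    rw [hcon (FreeGroup.of i * g) g] at h1
    have h2 : F (g, i) = 0 := by
      have : pot F g + 0 = pot F g + F (g, i) := by rw [add_zero]; exact h1
      exact (add_left_cancel this).symm
    have h3 : starRingEnd ℂ (z (i, g)) = 0 := h2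
    rw [map_eq_zero] at h3
    rw [h3]
    rfl
  · intro j g
    rw [act_sum hφ, ← relation w hz1 j g]
    refine Finset.sum_congr rfl fun i _ => ?_
    rw [act_conv hφ]
    have h1 : act (pot F) (pt (FreeGroup.of i) - pt 1) = fun h => F (h, i) := by
      funext h
      rw [act_pt_sub, pot_of_mul, add_sub_cancel_left]
    rw [h1]
    rfl

/-- Few generators with finite moments and a Jacobian of closed range do not generate. -/
theorem generated_ne (hk : k < n) (w : Fin n → Fin k → L1 n)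
    (hw : ∀ i j, Summable fun h => (FreeGroup.norm h : ℝ) * ‖w i j h‖)
    (hcl : IsClosed (Set.range (WW w))) :
    generated (fun j => ∑ i, conv (pt (FreeGroup.of i) - pt 1) (w i j)) ≠ I0 n := by
  obtain ⟨φ, ⟨C, hC⟩, ⟨g, h, hgh⟩, hφ⟩ := exists_bounded hk w hw hcl
  intro heq
  have hx : ∀ j, ∑ i, conv (pt (FreeGroup.of i) - pt 1) (w i j) ∈ I0 n := by
    intro j
    refine Submodule.sum_mem _ fun i _ => ?_
    exact conv_mem_I0 (pt_sub_mem _ _) _
  have hle : generated (fun j => ∑ i, conv (pt (FreeGroup.of i) - pt 1) (w i j)) ≤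
      annih φ hC := by
    apply sInf_le
    refine ⟨isClosedRightIdeal_annih φ hC, fun j => ?_⟩
    rw [mem_annih]
    exact ⟨hx j, fun u => hφ j u⟩
  rw [heq] at hle
  exact annih_ne hC hgh (le_antisymm (isClosedRightIdeal_annih φ hC).le hle)

end Pool.Agent.H64.CR
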