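import Mathlib
import Pool.Agent.H64.CR.Main
import Pool.Agent.H64.CR.Fox2

/-!
# The final form: uniqueness of the Fox derivatives, statement in terms of the generators
-/

namespace Pool.Agent.H64.CR

open Pool.Agent.H64.AugIdeal Pool.Agent.H64.RatIdeal

variable {n k : ℕ}

theorem act_fox {F : FreeGroup (Fin n) × Fin n → ℂ} (hφ : Bdd (pot F)) (w : Fin n → L1 n)
    (g : FreeGroup (Fin n)) :
    act (pot F) (∑ i, conv (pt (FreeGroup.of i) - pt 1) (w i)) g =
      ∑ i, ∑' h, w i h * F (h * g, i) := by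
  rw [act_sum hφ]
  refine Finset.sum_congr rfl fun i _ => ?_
  rw [act_conv hφ]
  have h1 : act (pot F) (pt (FreeGroup.of i) - pt 1) = fun h => F (h, i) := by
    funext h
    rw [act_pt_sub, pot_of_mul, add_sub_cancel_left]
  rw [h1]
  rfl

/-- The Fox derivatives are unique. -/
theorem fox_unique {w w' : Fin n → L1 n}
    (h : ∑ i, conv (pt (FreeGroup.of i) - pt 1) (w i) =
      ∑ i, conv (pt (FreeGroup.of i) - pt 1) (w' i)) : w = w' := by
  classical
  funext i₀
  apply L1.ext
  intro g₀
  let F : FreeGroup (Fin n) × Fin n → ℂ := fun p => if p = (g₀, i₀) then 1 else 0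
  have hF : Summable fun p : FreeGroup (Fin n) × Fin n =>
      ((FreeGroup.norm p.1 : ℝ) + 1) ^ 2 * ‖F p‖ ^ 2 := by
    refine summable_of_ne_finset_zero (s := {(g₀, i₀)}) fun p hp => ?_
    have : F p = 0 := if_neg (fun e => hp (Finset.mem_singleton.2 e))
    rw [this]
    simp
  obtain ⟨B, hB⟩ := pot_bounded_sq hF
  have hφ : Bdd (pot F) := ⟨B, hB⟩
  have key : ∀ w : Fin n → L1 n, ∑ i, ∑' h, w i h * F (h * 1, i) = w i₀ g₀ := by
    intro w
    rw [Finset.sum_eq_single i₀, tsum_eq_single g₀]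
    · have : F (g₀ * 1, i₀) = 1 := if_pos (by rw [mul_one])
      rw [this, mul_one]
    · intro g hg
      have : F (g * 1, i₀) = 0 := if_neg (by
        rw [mul_one]
        intro e
        exact hg (Prod.mk.inj e).1)
      rw [this, mul_zero]
    · intro i _ hi
      have : ∀ g, F (g * 1, i) = 0 := fun g => if_neg (by
        intro e
        exact hi (Prod.mk.inj e).2)
      simp only [this, mul_zero, tsum_zero]
    · intro h
      exact absurd (Finset.mem_univ i₀) h
  rw [← key w, ← key w', ← act_fox hφ, ← act_fox hφ, h]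

/-- The norm of `ℓ²(F_n)^m`. -/
theorem L2.norm_sq {m : ℕ} (f : L2 n m) : ‖f‖ ^ 2 = ∑' p, ‖f.fn p‖ ^ 2 :=
  HH.norm_sq (n := n) (m := m) f

theorem isImage_iff {m : ℕ} (w : Fin m → Fin k → L1 n) (y : HH n k) (f : HH n m) :
    IsImage w y f ↔ WW w y = f := by
  constructor
  · intro h
    apply lp.ext
    funext p
    exact (WW_apply w y p.1 p.2).trans (h p).symm
  · rintro rfl p
    exact WW_apply w y p.1 p.2

theorem isBoundedOp {m : ℕ} (w : Fin m → Fin k → L1 n) : IsBoundedOp w :=
  ⟨‖WW w‖, fun y => ⟨WW w y, (isImage_iff w y _).2 rfl, (WW w).le_opNorm y⟩⟩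

theorem isClosed_range {m : ℕ} (w : Fin m → Fin k → L1 n) (h : HasClosedRange w) :
    IsClosed (Set.range (WW w)) := by
  have h1 : {f : L2 n m | ∃ y : L2 n k, IsImage w y f} = Set.range (WW w) := by
    ext f
    exact exists_congr fun y => isImage_iff w y f
  unfold HasClosedRange at h
  rw [h1] at h
  exact h

theorem final (hk : k < n) (x : Fin k → L1 n) (hx : ∀ j, x j ∈ I0 n)
    (h2 : ∀ j, SecondMoment (x j)) :
    ∃ w : Fin n → Fin k → L1 n, IsFox x w ∧ (∀ w', IsFox x w' → w' = w) ∧ IsBoundedOp w ∧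
      (HasClosedRange w → generated x ≠ I0 n) := by
  choose v hv1 hv2 using fun j => exists_fox (x j) (hx j) (h2 j)
  refine ⟨fun i j => v j i, hv2, ?_, isBoundedOp _, ?_⟩
  · intro w' hw'
    funext i j
    have h1 : (fun i => w' i j) = v j := fox_unique ((hw' j).symm.trans (hv2 j))
    exact congrFun h1 i
  · intro hcl
    have h1 := generated_ne hk (fun i j => v j i) (fun i j => hv1 j i) (isClosed_range _ hcl)
    have h3 : x = fun j => ∑ i, conv (pt (FreeGroup.of i) - pt 1) (v j i) := by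
      funext j
      exact hv2 j
    rw [h3]
    exact h1

end Pool.Agent.H64.CR
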