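import Mathlib
import Pool.Agent.H64.CR.Pot

/-!
# Bounds for a function on the tree along a path: growth and weighted form
-/

namespace Pool.Agent.H64.CR

open Pool.Agent.H64.AugIdeal

variable {n : ℕ}

/-- The edges on the path from `1` to `g`. -/
theorem exists_edges (i₀ : Fin n) (f : FreeGroup (Fin n) × Fin n → ℂ) (N : ℕ)
    (g : FreeGroup (Fin n)) (hg : FreeGroup.norm g = N) :
    ∃ e : ℕ → FreeGroup (Fin n) × Fin n, (∀ t < N, lev (e t) = t) ∧
      ‖pot f g‖ ≤ ∑ t ∈ Finset.range N, ‖f (e t)‖ := by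
  classical
  induction N generalizing g with
  | zero =>
    have h1 : g = 1 := FreeGroup.norm_eq_zero.1 hg
    subst h1
    exact ⟨fun _ => (1, i₀), by simp, by simp [pot]⟩
  | succ N ih =>
    have h0 : g ≠ 1 := by
      rintro rfl
      rw [FreeGroup.norm_one] at hg
      omega
    obtain ⟨x, h₁, e, hn⟩ := exists_letter_mul g h0
    have hN : FreeGroup.norm h₁ = N := by omega
    obtain ⟨E, hE1, hE2⟩ := ih h₁ hN
    rcases x with ⟨a, b⟩
    have main : ∀ p : FreeGroup (Fin n) × Fin n, lev p = N →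
        ‖pot f g‖ ≤ ‖pot f h₁‖ + ‖f p‖ →
        ∃ e : ℕ → FreeGroup (Fin n) × Fin n, (∀ t < N + 1, lev (e t) = t) ∧
          ‖pot f g‖ ≤ ∑ t ∈ Finset.range (N + 1), ‖f (e t)‖ := by
      intro p hp1 hp3
      refine ⟨fun t => if t = N then p else E t, ?_, ?_⟩
      · intro t ht
        beta_reduce
        by_cases h : t = N
        · rw [if_pos h, hp1, h]
        · rw [if_neg h]
          exact hE1 t (by omega)
      · rw [Finset.sum_range_succ]
        beta_reduce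
        rw [if_pos rfl]
        have h5 : ∑ t ∈ Finset.range N, ‖f (if t = N then p else E t)‖ =
            ∑ t ∈ Finset.range N, ‖f (E t)‖ := by
          refine Finset.sum_congr rfl fun t ht => ?_
          rw [if_neg (Finset.mem_range.1 ht).ne]
        rw [h5]
        linarith
    cases b
    · have e1 : h₁ = FreeGroup.of a * g := by
        rw [e, mk_false, mul_inv_cancel_left]
      have h2 : pot f g = pot f h₁ - f (g, a) := by
        rw [e1, pot_of_mul]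
        ring
      refine main (g, a) ?_ ?_
      · unfold lev
        change min (FreeGroup.norm g) (FreeGroup.norm (FreeGroup.of a * g)) = N
        rw [← e1, hN, hg]
        omega
      · rw [h2]
        exact norm_sub_le _ _
    · have h2 : pot f g = pot f h₁ + f (h₁, a) := by
        rw [e, mk_true, pot_of_mul]
      refine main (h₁, a) ?_ ?_
      · unfold lev
        change min (FreeGroup.norm h₁) (FreeGroup.norm (FreeGroup.of a * h₁)) = N
        have e2 : FreeGroup.of a * h₁ = g := by rw [e, mk_true]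
        rw [e2, hN, hg]
        omega
      · rw [h2]
        exact norm_add_le _ _

/-- Sums over the edges of a path are partial sums over all edges. -/
theorem sum_edges_le {E : ℕ → FreeGroup (Fin n) × Fin n} {N : ℕ} (hE : ∀ t < N, lev (E t) = t)
    {c : FreeGroup (Fin n) × Fin n → ℝ} {B : ℝ}
    (hB : ∀ S : Finset (FreeGroup (Fin n) × Fin n), ∑ p ∈ S, c p ≤ B) :
    ∑ t ∈ Finset.range N, c (E t) ≤ B := by
  classical
  have hinj : Set.InjOn E (Finset.range N : Set ℕ) := by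
    intro a ha b hb hab
    have h1 := hE a (Finset.mem_range.1 (Finset.mem_coe.1 ha))
    have h2 := hE b (Finset.mem_range.1 (Finset.mem_coe.1 hb))
    rw [← h1, ← h2, hab]
  rw [← Finset.sum_image (f := c) (g := E) (s := Finset.range N) (fun a ha b hb hab =>
    hinj (Finset.mem_coe.2 ha) (Finset.mem_coe.2 hb) hab)]
  exact hB _

/-- A function on the tree grows at most like the square root of the length times the norm of the
gradient. -/
theorem pot_growth (i₀ : Fin n) (f : FreeGroup (Fin n) × Fin n → ℂ) {B : ℝ}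
    (hB : ∀ S : Finset (FreeGroup (Fin n) × Fin n), ∑ p ∈ S, ‖f p‖ ^ 2 ≤ B)
    (g : FreeGroup (Fin n)) : ‖pot f g‖ ^ 2 ≤ FreeGroup.norm g * B := by
  obtain ⟨E, hE1, hE2⟩ := exists_edges i₀ f _ g rfl
  have h1 : (∑ t ∈ Finset.range (FreeGroup.norm g), ‖f (E t)‖) ^ 2 ≤
      (Finset.range (FreeGroup.norm g)).card *
        ∑ t ∈ Finset.range (FreeGroup.norm g), ‖f (E t)‖ ^ 2 :=
    sq_sum_le_card_mul_sum_sq
  rw [Finset.card_range] at h1
  have h2 : ∑ t ∈ Finset.range (FreeGroup.norm g), ‖f (E t)‖ ^ 2 ≤ B :=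
    sum_edges_le (c := fun p => ‖f p‖ ^ 2) hE1 hB
  calc ‖pot f g‖ ^ 2 ≤ (∑ t ∈ Finset.range (FreeGroup.norm g), ‖f (E t)‖) ^ 2 :=
        pow_le_pow_left₀ (norm_nonneg _) hE2 2
    _ ≤ _ := h1
    _ ≤ _ := mul_le_mul_of_nonneg_left h2 (Nat.cast_nonneg _)

theorem sum_inv_sq_le {M : ℝ} (hM : 1 ≤ M) (N : ℕ) :
    ∑ t ∈ Finset.range N, (1 / ((t : ℝ) + M)) ^ 2 ≤ 2 / M := by
  have key : ∑ t ∈ Finset.range N, (1 / ((t : ℝ) + M)) ^ 2 ≤ 2 / M - 2 / (N + M) := by
    induction N with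
    | zero => simp
    | succ N ih =>
      rw [Finset.sum_range_succ]
      have h0 : (0 : ℝ) ≤ N := Nat.cast_nonneg N
      have h1 : (0 : ℝ) < N + M := by linarith
      have h2 : (0 : ℝ) < (N + 1 : ℕ) + M := by push_cast; linarith
      have h3 : (1 / ((N : ℝ) + M)) ^ 2 ≤ 2 / (N + M) - 2 / ((N + 1 : ℕ) + M) := by
        rw [div_sub_div _ _ h1.ne' h2.ne', one_div, inv_pow, ← one_div,
          div_le_div_iff₀ (by positivity) (by positivity)]
        push_cast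
        nlinarith
      linarith
  have h0 : (0 : ℝ) ≤ 2 / (N + M) := by positivity
  linarith

/-- The weighted form. -/
theorem pot_weighted (i₀ : Fin n) (f : FreeGroup (Fin n) × Fin n → ℂ) {M B₀ B₂ : ℝ} (hM : 1 ≤ M)
    (h₀ : ∀ S : Finset (FreeGroup (Fin n) × Fin n), ∑ p ∈ S, ‖f p‖ ^ 2 ≤ B₀)
    (h₂ : ∀ S : Finset (FreeGroup (Fin n) × Fin n),
      ∑ p ∈ S, ((FreeGroup.norm p.1 : ℝ) ^ 2 * ‖f p‖ ^ 2) ≤ B₂)
    (g : FreeGroup (Fin n)) : ‖pot f g‖ ^ 2 ≤ 2 / M * (2 * B₂ + 2 * M ^ 2 * B₀) := by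
  obtain ⟨E, hE1, hE2⟩ := exists_edges i₀ f _ g rfl
  set N := FreeGroup.norm g
  have hpos : ∀ t : ℕ, 0 < (t : ℝ) + M := fun t => by
    have : (0 : ℝ) ≤ t := Nat.cast_nonneg t
    linarith
  have h1 : (∑ t ∈ Finset.range N, ‖f (E t)‖) ^ 2 ≤
      (∑ t ∈ Finset.range N, (1 / ((t : ℝ) + M)) ^ 2) *
        ∑ t ∈ Finset.range N, (((t : ℝ) + M) * ‖f (E t)‖) ^ 2 := by
    have h := Finset.sum_mul_sq_le_sq_mul_sq (Finset.range N) (fun t : ℕ => 1 / ((t : ℝ) + M))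
      (fun t : ℕ => ((t : ℝ) + M) * ‖f (E t)‖)
    have e : ∀ t : ℕ, 1 / ((t : ℝ) + M) * (((t : ℝ) + M) * ‖f (E t)‖) = ‖f (E t)‖ := by
      intro t
      have := (hpos t).ne'
      field_simp
    simp only [e] at h
    exact h
  have h2 : ∑ t ∈ Finset.range N, (((t : ℝ) + M) * ‖f (E t)‖) ^ 2 ≤
      2 * B₂ + 2 * M ^ 2 * B₀ := by
    have h3 : ∀ t ∈ Finset.range N, (((t : ℝ) + M) * ‖f (E t)‖) ^ 2 ≤
        2 * ((FreeGroup.norm (E t).1 : ℝ) ^ 2 * ‖f (E t)‖ ^ 2) + 2 * M ^ 2 * ‖f (E t)‖ ^ 2 := by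
      intro t ht
      have h4 : (t : ℝ) ≤ FreeGroup.norm (E t).1 := by
        have h5 := hE1 t (Finset.mem_range.1 ht)
        have h6 : lev (E t) ≤ FreeGroup.norm (E t).1 := min_le_left _ _
        rw [h5] at h6
        exact_mod_cast h6
      have h0 : (0 : ℝ) ≤ t := Nat.cast_nonneg t
      have h7 : ((t : ℝ) + M) ^ 2 ≤ 2 * (FreeGroup.norm (E t).1 : ℝ) ^ 2 + 2 * M ^ 2 := by
        nlinarith [sq_nonneg ((t : ℝ) - M)]
      calc (((t : ℝ) + M) * ‖f (E t)‖) ^ 2 = ((t : ℝ) + M) ^ 2 * ‖f (E t)‖ ^ 2 := mul_pow _ _ _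
        _ ≤ (2 * (FreeGroup.norm (E t).1 : ℝ) ^ 2 + 2 * M ^ 2) * ‖f (E t)‖ ^ 2 :=
          mul_le_mul_of_nonneg_right h7 (by positivity)
        _ = _ := by ring
    refine (Finset.sum_le_sum h3).trans ?_
    rw [Finset.sum_add_distrib, ← Finset.mul_sum, ← Finset.mul_sum]
    have h8 : ∑ t ∈ Finset.range N, ((FreeGroup.norm (E t).1 : ℝ) ^ 2 * ‖f (E t)‖ ^ 2) ≤ B₂ :=
      sum_edges_le (c := fun p => (FreeGroup.norm p.1 : ℝ) ^ 2 * ‖f p‖ ^ 2) hE1 h₂
    have h9 : ∑ t ∈ Finset.range N, ‖f (E t)‖ ^ 2 ≤ B₀ :=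
      sum_edges_le (c := fun p => ‖f p‖ ^ 2) hE1 h₀
    have h10 : (0 : ℝ) ≤ 2 * M ^ 2 := by positivity
    have h11 := mul_le_mul_of_nonneg_left h9 h10
    linarith
  have h3 : (0 : ℝ) ≤ ∑ t ∈ Finset.range N, (((t : ℝ) + M) * ‖f (E t)‖) ^ 2 :=
    Finset.sum_nonneg fun _ _ => by positivity
  have hM0 : (0 : ℝ) ≤ 2 / M := by positivity
  calc ‖pot f g‖ ^ 2 ≤ (∑ t ∈ Finset.range N, ‖f (E t)‖) ^ 2 :=
        pow_le_pow_left₀ (norm_nonneg _) hE2 2
    _ ≤ _ := h1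
    _ ≤ 2 / M * ∑ t ∈ Finset.range N, (((t : ℝ) + M) * ‖f (E t)‖) ^ 2 :=
        mul_le_mul_of_nonneg_right (sum_inv_sq_le hM N) h3
    _ ≤ _ := mul_le_mul_of_nonneg_left h2 hM0

end Pool.Agent.H64.CR
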