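import Mathlib
import Pool.Agent.H64.CR.Final
import Pool.Agent.H64.CR.Mom
import Pool.Agent.H64.CR.Path

/-!
# Pairing the potentials with combinations of the generators
-/

namespace Pool.Agent.H64.CR

open Pool.Agent.H64.AugIdeal Pool.Agent.H64.RatIdeal ContinuousLinearMap

variable {n k m : ℕ}

/-- The adjoint of `W`. -/
theorem adj_apply (w : Fin m → Fin k → L1 n) (z : HH n m) (j : Fin k) (g : FreeGroup (Fin n)) :
    ∑ i, ∑' h, w i j h * starRingEnd ℂ (z (i, h * g)) =
      starRingEnd ℂ (adjoint (WW w) z (j, g)) := by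
  have h1 : adjoint (WW w) z (j, g) = inner ℂ (WW w (dd (j, g))) z := by
    rw [← inner_dd, adjoint_inner_right]
  rw [h1]
  have hs := lp.summable_inner (𝕜 := ℂ) (WW w (dd (j, g))) z
  rw [lp.inner_eq_tsum, hs.tsum_prod, tsum_fintype, map_sum]
  refine Finset.sum_congr rfl fun i _ => ?_
  rw [Complex.conj_tsum, ← (Equiv.mulRight g).tsum_eq
    (fun c => starRingEnd ℂ (inner ℂ (WW w (dd (j, g)) (i, c)) (z (i, c))))]
  refine tsum_congr fun h => ?_
  rw [Equiv.coe_mulRight, RCLike.inner_apply, WW_dd, mul_inv_cancel_right, map_mul,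
    RCLike.conj_conj, mul_comm]

theorem summable_sq_L1 (y : L1 n) : Summable fun g => ‖y g‖ ^ 2 := by
  refine Summable.of_nonneg_of_le (fun _ => by positivity) (fun g => ?_)
    ((L1.summable_norm y).mul_left ‖y‖)
  rw [pow_two]
  exact mul_le_mul_of_nonneg_right (norm_apply_le y g) (norm_nonneg _)

theorem norm2_nonneg (y : Fin k → L1 n) : 0 ≤ norm2 y := Real.sqrt_nonneg _

theorem summable_YY (y : Fin k → L1 n) :
    Summable fun p : Fin k × FreeGroup (Fin n) => ‖y p.1 p.2‖ ^ 2 := by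
  rw [summable_prod_of_nonneg fun _ => by positivity]
  exact ⟨fun j => summable_sq_L1 (y j), (hasSum_fintype _).summable⟩

/-- The element of `ℓ²(F_n)^k` given by `y_1, …, y_k`. -/
noncomputable def YY (y : Fin k → L1 n) : HH n k := mk (fun p => y p.1 p.2) (summable_YY y)

theorem norm_YY (y : Fin k → L1 n) : ‖YY y‖ = norm2 y := by
  unfold norm2
  rw [← Real.sqrt_sq (norm_nonneg (YY y)), HH.norm_sq]
  congr 1
  exact (summable_YY y).tsum_prod.trans (tsum_fintype _)

/-- The gradient field of a vector. -/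
noncomputable def FF (z : HH n n) (p : FreeGroup (Fin n) × Fin n) : ℂ :=
  starRingEnd ℂ (z (p.2, p.1))

theorem norm_FF (z : HH n n) (p : FreeGroup (Fin n) × Fin n) : ‖FF z p‖ = ‖z (p.2, p.1)‖ :=
  RCLike.norm_conj _

/-- Pairing with the combinations of the generators. -/
theorem act_comb {z : HH n n} (hφ : Bdd (pot (FF z))) (w : Fin n → Fin k → L1 n)
    (y : Fin k → L1 n) :
    act (pot (FF z)) (∑ j, conv (∑ i, conv (pt (FreeGroup.of i) - pt 1) (w i j)) (y j)) 1 =
      inner ℂ (adjoint (WW w) z) (YY y) := by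
  have hs := lp.summable_inner (𝕜 := ℂ) (adjoint (WW w) z) (YY y)
  rw [act_sum hφ, lp.inner_eq_tsum, hs.tsum_prod, tsum_fintype]
  refine Finset.sum_congr rfl fun j _ => ?_
  rw [act_conv hφ]
  unfold act
  refine tsum_congr fun h => ?_
  rw [RCLike.inner_apply, mul_one]
  have h1 := act_fox hφ (fun i => w i j) h
  unfold act at h1
  rw [h1]
  have h2 := adj_apply w z j h
  unfold FF
  rw [h2]
  rfl

/-- Pairing with the error. -/
theorem act_err {z : HH n n} (hφ : Bdd (pot (FF z))) (w : Fin n → Fin k → L1 n) (i : Fin n)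
    (y : Fin k → L1 n) (x : Fin k → L1 n)
    (hx : ∀ j, x j = ∑ i, conv (pt (FreeGroup.of i) - pt 1) (w i j)) :
    ‖z (i, 1)‖ ≤ ‖adjoint (WW w) z‖ * norm2 y +
      ‖act (pot (FF z)) (pt (FreeGroup.of i) - pt 1 - ∑ j, conv (x j) (y j)) 1‖ := by
  have h1 : act (pot (FF z)) (pt (FreeGroup.of i) - pt 1) 1 = starRingEnd ℂ (z (i, 1)) := by
    rw [act_pt_sub, pot_of_mul, add_sub_cancel_left]
    rfl
  have h2 : pt (FreeGroup.of i) - pt 1 = ∑ j, conv (x j) (y j) +
      (pt (FreeGroup.of i) - pt 1 - ∑ j, conv (x j) (y j)) := by abel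
  have h3 : act (pot (FF z)) (∑ j, conv (x j) (y j)) 1 =
      inner ℂ (adjoint (WW w) z) (YY y) := by
    rw [← act_comb hφ w y]
    simp only [← hx]
  have h4 : ‖z (i, 1)‖ = ‖starRingEnd ℂ (z (i, 1))‖ := (RCLike.norm_conj _).symm
  rw [h4, ← h1, h2, act_add hφ, h3, ← h2]
  refine (norm_add_le _ _).trans (add_le_add ?_ le_rfl)
  rw [← norm_YY]
  exact norm_inner_le_norm _ _

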