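import Mathlib
import Pool.Agent.H64.CR.Pair
import Pool.Agent.H64.CR.Gap

/-!
# The inequality at finite time
-/

namespace Pool.Agent.H64.CR

open Pool.Agent.H64.AugIdeal Pool.Agent.H64.RatIdeal ContinuousLinearMap

variable {n k m : ℕ}

theorem summable_min (f : L1 n) {B : ℝ} (hB : 0 ≤ B) :
    Summable fun g => min (√(FreeGroup.norm g : ℝ)) B * ‖f g‖ := by
  refine Summable.of_nonneg_of_le (fun _ => by positivity) (fun g => ?_)
    ((L1.summable_norm f).mul_left B)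
  exact mul_le_mul_of_nonneg_right (min_le_right _ _) (norm_nonneg _)

theorem norm_act_one_le {φ : FreeGroup (Fin n) → ℂ} {B : ℝ} (hB : 0 ≤ B)
    (hφ : ∀ g, ‖φ g‖ ≤ min (√(FreeGroup.norm g : ℝ)) B) (f : L1 n) :
    ‖act φ f 1‖ ≤ ∑' g, min (√(FreeGroup.norm g : ℝ)) B * ‖f g‖ := by
  unfold act
  refine tsum_of_norm_bounded (summable_min f hB).hasSum fun g => ?_
  rw [mul_one, norm_mul, mul_comm]
  exact mul_le_mul_of_nonneg_right (hφ g) (norm_nonneg _)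

theorem sum_FF_le (z : HH n n) {c : FreeGroup (Fin n) → ℝ} {B : ℝ}
    (h : ∀ S : Finset (Fin n × FreeGroup (Fin n)), ∑ p ∈ S, (c p.2 * ‖z p‖ ^ 2) ≤ B)
    (S : Finset (FreeGroup (Fin n) × Fin n)) : ∑ p ∈ S, (c p.1 * ‖FF z p‖ ^ 2) ≤ B := by
  classical
  refine le_trans (le_of_eq ?_) (h (S.image Prod.swap))
  rw [Finset.sum_image (fun a _ b _ hab => Prod.swap_injective hab)]
  refine Finset.sum_congr rfl fun p _ => ?_
  rw [norm_FF]
  rfl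

theorem trunc_le_mul {B : ℝ} (hB : 0 ≤ B) (f : L1 n) : trunc B f ≤ B * ‖f‖ := by
  rw [L1.norm_eq, ← tsum_mul_left]
  refine Summable.tsum_le_tsum (fun g => ?_) (summable_min f hB)
    ((L1.summable_norm f).mul_left B)
  exact mul_le_mul_of_nonneg_right (min_le_right _ _) (norm_nonneg _)

/-- Bounds for the potential of a vector of norm at most one. -/
theorem pot_facts (z : HH n n) (i : Fin n) (hz1 : ‖z‖ ≤ 1) {B M Q : ℝ} (hM : 1 ≤ M) (hQ : 0 ≤ Q)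
    (hmom : ∀ S : Finset (Fin n × FreeGroup (Fin n)),
      ∑ p ∈ S, ((FreeGroup.norm p.2 : ℝ) ^ 2 * ‖z p‖ ^ 2) ≤ B ^ 2)
    (hBQ : 2 / M * (2 * B ^ 2 + 2 * M ^ 2 * 1) ≤ Q ^ 2) :
    (∀ S : Finset (FreeGroup (Fin n) × Fin n), ∑ p ∈ S, ‖FF z p‖ ^ 2 ≤ 1) ∧
    (∀ g, ‖pot (FF z) g‖ ≤ √(FreeGroup.norm g : ℝ)) ∧ (∀ g, ‖pot (FF z) g‖ ≤ Q) ∧
    ∀ g, ‖pot (FF z) g‖ ≤ min (√(FreeGroup.norm g : ℝ)) Q := by
  have hsq : ∀ S : Finset (Fin n × FreeGroup (Fin n)),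
      ∑ p ∈ S, ((1 : ℝ) * ‖z p‖ ^ 2) ≤ 1 := by
    intro S
    simp only [one_mul]
    refine ((HH.summable_sq z).sum_le_tsum S fun _ _ => by positivity).trans ?_
    rw [← HH.norm_sq]
    exact pow_le_one₀ (norm_nonneg _) hz1
  have h0 : ∀ S : Finset (FreeGroup (Fin n) × Fin n), ∑ p ∈ S, ‖FF z p‖ ^ 2 ≤ 1 := by
    intro S
    have h := sum_FF_le z (c := fun _ => 1) hsq S
    simpa only [one_mul] using h
  have h2 : ∀ S : Finset (FreeGroup (Fin n) × Fin n),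
      ∑ p ∈ S, ((FreeGroup.norm p.1 : ℝ) ^ 2 * ‖FF z p‖ ^ 2) ≤ B ^ 2 :=
    sum_FF_le z (c := fun g => (FreeGroup.norm g : ℝ) ^ 2) hmom
  have hb1 : ∀ g, ‖pot (FF z) g‖ ≤ √(FreeGroup.norm g : ℝ) := by
    intro g
    have h := pot_growth i (FF z) h0 g
    rw [mul_one] at h
    exact Real.le_sqrt_of_sq_le h
  have hb2 : ∀ g, ‖pot (FF z) g‖ ≤ Q := by
    intro g
    exact (pow_le_pow_iff_left₀ (norm_nonneg _) hQ two_ne_zero).1
      ((pot_weighted i (FF z) hM h0 h2 g).trans hBQ)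
  exact ⟨h0, hb1, hb2, fun g => le_min (hb1 g) (hb2 g)⟩

/-- The inequality from a bound of the second moments of `(1 + s² W W†)⁻¹ e_i`. -/
theorem ineq_gen (x : Fin k → L1 n) (w : Fin n → Fin k → L1 n)
    (hx : ∀ j, x j = ∑ i, conv (pt (FreeGroup.of i) - pt 1) (w i j)) {s B M Q : ℝ} (hs : 0 < s)
    (hM : 1 ≤ M) (hQ : 0 ≤ Q) (hBQ : 2 / M * (2 * B ^ 2 + 2 * M ^ 2 * 1) ≤ Q ^ 2)
    (hB : ∀ (i : Fin n) (N : ℕ),
      ‖LL n N (Res (WW w) (s ^ 2) (dd (i, (1 : FreeGroup (Fin n)))))‖ ≤ B)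
    (y : Fin n → Fin k → L1 n) :
    (n : ℝ) - k ≤ (∑ i, norm2 (y i)) / (2 * s) + ∑ i, trunc Q (err x (y i) i) := by
  have htr := trace_Res (WW_equi w) (sq_nonneg s)
  refine htr.trans ?_
  rw [Finset.sum_div, ← Finset.sum_add_distrib]
  refine Finset.sum_le_sum fun i _ => ?_
  set z := Res (WW w) (s ^ 2) (dd (i, (1 : FreeGroup (Fin n)))) with hz
  have hz1 : ‖z‖ ≤ 1 := by
    have h := norm_Res_le (WW w) (sq_nonneg s) (dd (i, (1 : FreeGroup (Fin n))))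
    rwa [norm_dd] at h
  have hz2 : ‖adjoint (WW w) z‖ ≤ 1 / (2 * s) := by
    have h := norm_adj_Res_le (WW w) hs (dd (i, (1 : FreeGroup (Fin n))))
    rwa [norm_dd] at h
  have hmom : ∀ S : Finset (Fin n × FreeGroup (Fin n)),
      ∑ p ∈ S, ((FreeGroup.norm p.2 : ℝ) ^ 2 * ‖z p‖ ^ 2) ≤ B ^ 2 := moment_sum z (hB i)
  obtain ⟨_, _, k2, k3⟩ := pot_facts z i hz1 hM hQ hmom hBQ
  have hφ : Bdd (pot (FF z)) := ⟨_, k2⟩
  have h3 := act_err hφ w i (y i) x hx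
  refine h3.trans (add_le_add ?_ ?_)
  · calc ‖adjoint (WW w) z‖ * norm2 (y i) ≤ 1 / (2 * s) * norm2 (y i) :=
          mul_le_mul_of_nonneg_right hz2 (norm2_nonneg _)
      _ = norm2 (y i) / (2 * s) := by ring
  · exact norm_act_one_le hQ k3 (err x (y i) i)

/-- The main inequality. -/
theorem main_ineq (x : Fin k → L1 n) (w : Fin n → Fin k → L1 n)
    (hx : ∀ j, x j = ∑ i, conv (pt (FreeGroup.of i) - pt 1) (w i j))
    (hw : ∀ i j, Summable fun h => (FreeGroup.norm h : ℝ) * ‖w i j h‖) :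
    ∃ C : ℝ, 0 < C ∧ ∀ (y : Fin n → Fin k → L1 n) (M : ℝ), 1 ≤ M →
      (n : ℝ) - k ≤ (∑ i, norm2 (y i)) / (2 * M) +
        ∑ i, trunc (C * √M) (err x (y i) i) := by
  obtain ⟨C₀, hC0, hC⟩ := comm_WW w hw
  refine ⟨2 * √(C₀ ^ 2 + 1), by positivity, fun y M hM => ?_⟩
  have hM0 : 0 < M := by linarith
  refine ineq_gen x w hx hM0 hM (B := C₀ * M) (by positivity) (le_of_eq ?_)
    (fun i N => moment_bound (WW w) hC0 hC hM0 i N) y
  have e1 : √(C₀ ^ 2 + 1) ^ 2 = C₀ ^ 2 + 1 := Real.sq_sqrt (by positivity)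
  have e2 : √M ^ 2 = M := Real.sq_sqrt hM0.le
  have e3 : (2 * √(C₀ ^ 2 + 1) * √M) ^ 2 = 4 * (C₀ ^ 2 + 1) * M := by
    rw [mul_pow, mul_pow, e1, e2]
    norm_num
  rw [e3]
  field_simp
  ring

/-- The rate. -/
theorem rate (hk : k < n) (x : Fin k → L1 n) {C : ℝ} (hC : 0 < C) (y : Fin n → Fin k → L1 n)
    (h : ∀ M : ℝ, 1 ≤ M → (n : ℝ) - k ≤ (∑ i, norm2 (y i)) / (2 * M) +
        ∑ i, trunc (C * √M) (err x (y i) i)) :
    1 ≤ 2 * C * √(1 + ∑ i, norm2 (y i)) * ∑ i, ‖err x (y i) i‖ := by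
  set s := ∑ i, norm2 (y i) with hs
  have hs0 : 0 ≤ s := Finset.sum_nonneg fun i _ => norm2_nonneg _
  have h1 := h (1 + s) (by linarith)
  have h2 : s / (2 * (1 + s)) ≤ 1 / 2 := by
    rw [div_le_div_iff₀ (by positivity) (by norm_num)]
    linarith
  have h3 : ∑ i, trunc (C * √(1 + s)) (err x (y i) i) ≤
      C * √(1 + s) * ∑ i, ‖err x (y i) i‖ := by
    rw [Finset.mul_sum]
    exact Finset.sum_le_sum fun i _ => trunc_le_mul (by positivity) _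
  have h4 : (1 : ℝ) ≤ n - k := by
    have : (k : ℝ) + 1 ≤ n := by exact_mod_cast hk
    linarith
  linarith

theorem div_le_small {s ε : ℝ} (hs : 0 ≤ s) (hε : 0 < ε) : s / (2 * (1 + s / ε)) ≤ ε := by
  rw [div_le_iff₀ (by positivity)]
  have : ε * (2 * (1 + s / ε)) = 2 * ε + 2 * s := by
    field_simp
  rw [this]
  linarith

/-- The inequality when the range of `W` is closed. -/
theorem gap_ineq (x : Fin k → L1 n) (w : Fin n → Fin k → L1 n)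
    (hx : ∀ j, x j = ∑ i, conv (pt (FreeGroup.of i) - pt 1) (w i j))
    (hw : ∀ i j, Summable fun h => (FreeGroup.norm h : ℝ) * ‖w i j h‖)
    (hcl : IsClosed (Set.range (WW w))) :
    ∃ C : ℝ, 0 < C ∧ ∀ y : Fin n → Fin k → L1 n,
      (n : ℝ) - k ≤ ∑ i, trunc C (err x (y i) i) := by
  obtain ⟨C₀, hC0, hC⟩ := comm_WW w hw
  obtain ⟨c, hc, hc'⟩ := exists_preimage_bound (WW w) hcl
  refine ⟨2 * √((2 * c * C₀) ^ 2 + 1), by positivity, fun y => ?_⟩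
  refine le_of_forall_pos_le_add fun ε hε => ?_
  set s := ∑ i, norm2 (y i) with hs
  have hs0 : 0 ≤ s := Finset.sum_nonneg fun i _ => norm2_nonneg _
  have hpos : (0 : ℝ) < 1 + s / ε := by positivity
  have h1 := ineq_gen x w hx hpos le_rfl (B := 2 * c * C₀)
    (Q := 2 * √((2 * c * C₀) ^ 2 + 1)) (by positivity) (le_of_eq (by
      have e1 : √((2 * c * C₀) ^ 2 + 1) ^ 2 = (2 * c * C₀) ^ 2 + 1 :=
        Real.sq_sqrt (by positivity)
      rw [mul_pow 2 (√((2 * c * C₀) ^ 2 + 1)), e1]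
      ring))
    (fun i N => moment_gap (WW w) hC0 hC hc hc' (sq_nonneg _) i N) y
  have h2 := div_le_small hs0 hε
  linarith

end Pool.Agent.H64.CR
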