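import Mathlib
import Pool.Agent.H64.CR.Rate

/-!
# The moment of order one half
-/

namespace Pool.Agent.H64.CR

open Pool.Agent.H64.AugIdeal Pool.Agent.H64.RatIdeal

variable {n k m : ℕ}

theorem half_nonneg (x : L1 n) : 0 ≤ half x := tsum_nonneg fun _ => by positivity

theorem HalfMoment.add {x y : L1 n} (hx : HalfMoment x) (hy : HalfMoment y) :
    HalfMoment (x + y) := by
  refine Summable.of_nonneg_of_le (fun _ => by positivity) (fun g => ?_) (Summable.add hx hy)
  rw [← mul_add]
  exact mul_le_mul_of_nonneg_left (norm_add_le _ _) (Real.sqrt_nonneg _)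

theorem L1.neg_apply (x : L1 n) (g : FreeGroup (Fin n)) : (-x) g = -(x g) := rfl

theorem HalfMoment.neg {x : L1 n} (hx : HalfMoment x) : HalfMoment (-x) := by
  refine Summable.congr hx fun g => ?_
  rw [L1.neg_apply, norm_neg]

/-! ### Approximation by elements of finite support -/

theorem exists_tail {a : FreeGroup (Fin n) → ℝ} (ha : Summable a) {ε : ℝ} (hε : 0 < ε) :
    ∃ S₀ : Finset (FreeGroup (Fin n)), ∀ S, S₀ ⊆ S → ∑' g, a g - ∑ g ∈ S, a g < ε := by
  have h1 := (tendsto_order.1 ha.hasSum).1 (∑' g, a g - ε) (by linarith)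
  obtain ⟨S₀, hS₀⟩ := Filter.eventually_atTop.1 h1
  exact ⟨S₀, fun S hS => by linarith [hS₀ S hS]⟩

open Classical in
theorem hasSum_on {E : Type*} [AddCommMonoid E] [TopologicalSpace E] (a : FreeGroup (Fin n) → E)
    (S : Finset (FreeGroup (Fin n))) :
    HasSum (fun g => if g ∈ S then a g else 0) (∑ g ∈ S, a g) := by
  have h : HasSum (fun g => if g ∈ S then a g else 0) (∑ g ∈ S, if g ∈ S then a g else 0) :=
    hasSum_sum_of_ne_finset_zero fun b hb => if_neg hb
  have e : ∑ g ∈ S, (if g ∈ S then a g else 0) = ∑ g ∈ S, a g :=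
    Finset.sum_congr rfl fun g hg => if_pos hg
  rwa [e] at h

open Classical in
theorem hasSum_off {a : FreeGroup (Fin n) → ℝ} (ha : Summable a)
    (S : Finset (FreeGroup (Fin n))) :
    HasSum (fun g => if g ∈ S then 0 else a g) (∑' g, a g - ∑ g ∈ S, a g) := by
  refine (ha.hasSum.sub (hasSum_on a S)).congr_fun fun g => ?_
  split_ifs
  · rw [sub_self]
  · rw [sub_zero]

theorem exists_approx {x : L1 n} (hx : x ∈ I0 n) (hh : HalfMoment x) {ε : ℝ} (hε : 0 < ε) :
    ∃ x' ∈ I0 n, SecondMoment x' ∧ HalfMoment x' ∧ ‖x - x'‖ ≤ ε ∧ half (x - x') ≤ ε := by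
  classical
  obtain ⟨S₁, hS₁⟩ := exists_tail (L1.summable_norm x) (half_pos hε)
  obtain ⟨S₂, hS₂⟩ := exists_tail hh hε
  set S := S₁ ∪ S₂ with hS
  have ha := hS₁ S Finset.subset_union_left
  have hb := hS₂ S Finset.subset_union_right
  set c := ∑ g ∈ S, x g with hc
  have hfin : ∀ g, g ∉ insert 1 S →
      (if g ∈ S then x g else 0) - (if g = 1 then c else 0) = 0 := by
    intro g hg
    rw [Finset.mem_insert, not_or] at hg
    rw [if_neg hg.1, if_neg hg.2, sub_zero]
  let x' : L1 n := L1.mk (fun g => (if g ∈ S then x g else 0) - (if g = 1 then c else 0))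
    (summable_of_ne_finset_zero (s := insert 1 S) fun g hg => by rw [hfin g hg, norm_zero])
  have hx' : ∀ g, x' g = (if g ∈ S then x g else 0) - (if g = 1 then c else 0) := fun g => rfl
  have hfin' : ∀ g, g ∉ insert 1 S → x' g = 0 := hfin
  have hdiff : ∀ g, (x - x') g = (if g ∈ S then 0 else x g) + (if g = 1 then c else 0) := by
    intro g
    rw [L1.sub_apply, hx']
    split_ifs <;> ring
  have hc' : ‖c‖ ≤ ∑' g, ‖x g‖ - ∑ g ∈ S, ‖x g‖ := by
    have h1 : HasSum (fun g => if g ∈ S then x g else 0) c := hasSum_on (fun g => x g) S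
    have h2 : HasSum (fun g => x g) 0 := by
      have h := (L1.summable x).hasSum
      rwa [mem_I0.1 hx] at h
    have h3 := h1.sub h2
    rw [sub_zero] at h3
    refine h3.norm_le_of_bounded (hasSum_off (L1.summable_norm x) S) fun g => ?_
    split_ifs
    · rw [sub_self, norm_zero]
    · rw [zero_sub, norm_neg]
  refine ⟨x', ?_, ?_, ?_, ?_, ?_⟩
  · rw [mem_I0]
    have h2 := (hasSum_on (fun g => x g) S).sub (hasSum_ite_eq (1 : FreeGroup (Fin n)) c)
    rw [sub_self] at h2
    exact h2.tsum_eq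
  · exact summable_of_ne_finset_zero (s := insert 1 S) fun g hg => by
      rw [hfin' g hg, norm_zero, mul_zero]
  · exact summable_of_ne_finset_zero (s := insert 1 S) fun g hg => by
      rw [hfin' g hg, norm_zero, mul_zero]
  · rw [L1.norm_eq]
    have h1 := (hasSum_off (L1.summable_norm x) S).add
      (hasSum_ite_eq (1 : FreeGroup (Fin n)) ‖c‖)
    have h2 : ∑' g, ‖(x - x') g‖ ≤ ∑' g, ‖x g‖ - ∑ g ∈ S, ‖x g‖ + ‖c‖ := by
      rw [← h1.tsum_eq]
      refine Summable.tsum_le_tsum (fun g => ?_) (L1.summable_norm _) h1.summable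
      rw [hdiff]
      refine (norm_add_le _ _).trans (le_of_eq ?_)
      split_ifs <;> simp
    linarith
  · have h1 := hasSum_off hh S
    have h2 : ∀ g, √(FreeGroup.norm g : ℝ) * ‖(x - x') g‖ =
        if g ∈ S then 0 else √(FreeGroup.norm g : ℝ) * ‖x g‖ := by
      intro g
      rw [hdiff]
      by_cases hg : g = 1
      · subst hg
        simp
      · rw [if_neg hg, add_zero]
        split_ifs
        · rw [norm_zero, mul_zero]
        · rfl
    unfold half
    simp only [h2]
    rw [h1.tsum_eq]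
    exact hb.le

end Pool.Agent.H64.CR
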