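import Mathlib
import Pool.Agent.H64.CR.Half

/-!
# Generators with finite moment of order one half, arbitrary coefficients in `ℓ¹`
-/

namespace Pool.Agent.H64.CR

open Pool.Agent.H64.AugIdeal Pool.Agent.H64.RatIdeal ContinuousLinearMap

variable {n k m : ℕ}

/-- Right translation of a potential. -/
theorem pot_shift (f : FreeGroup (Fin n) × Fin n → ℂ) (h : FreeGroup (Fin n)) (N : ℕ)
    (g : FreeGroup (Fin n)) (hg : FreeGroup.norm g = N) :
    pot (fun p => f (p.1 * h, p.2)) g = pot f (g * h) - pot f h := by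
  induction N generalizing g with
  | zero =>
    have h1 : g = 1 := FreeGroup.norm_eq_zero.1 hg
    subst h1
    rw [one_mul, sub_self]
    simp [pot]
  | succ N ih =>
    have h0 : g ≠ 1 := by
      rintro rfl
      rw [FreeGroup.norm_one] at hg
      omega
    obtain ⟨x, h₁, e, hn⟩ := exists_letter_mul g h0
    have ih' := ih h₁ (by omega)
    rcases x with ⟨a, b⟩
    cases b
    · have e1 : h₁ = FreeGroup.of a * g := by
        rw [e, mk_false, mul_inv_cancel_left]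
      rw [e1, pot_of_mul, mul_assoc, pot_of_mul] at ih'
      have h3 := sub_eq_zero.2 ih'
      refine sub_eq_zero.1 (Eq.trans ?_ h3)
      ring
    · have e1 : g = FreeGroup.of a * h₁ := by
        rw [e, mk_true]
      rw [e1, pot_of_mul, mul_assoc, pot_of_mul, ih']
      ring

theorem pot_diff_le (i₀ : Fin n) (f : FreeGroup (Fin n) × Fin n → ℂ)
    (h0 : ∀ S : Finset (FreeGroup (Fin n) × Fin n), ∑ p ∈ S, ‖f p‖ ^ 2 ≤ 1)
    (g h : FreeGroup (Fin n)) : ‖pot f (g * h) - pot f h‖ ≤ √(FreeGroup.norm g : ℝ) := by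
  classical
  rw [← pot_shift f h _ g rfl]
  have h1 : ∀ S : Finset (FreeGroup (Fin n) × Fin n),
      ∑ p ∈ S, ‖f (p.1 * h, p.2)‖ ^ 2 ≤ 1 := by
    intro S
    refine le_trans (le_of_eq ?_) (h0 (S.image fun p => (p.1 * h, p.2)))
    rw [Finset.sum_image]
    intro a _ b _ hab
    have h2 := Prod.mk.inj hab
    exact Prod.ext (mul_right_cancel h2.1) h2.2
  have h2 := pot_growth i₀ (fun p => f (p.1 * h, p.2)) h1 g
  rw [mul_one] at h2
  exact Real.le_sqrt_of_sq_le h2

/-- The action of an element of the augmentation ideal with finite moment of order one half. -/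
theorem norm_act_half_le (i₀ : Fin n) {f : FreeGroup (Fin n) × Fin n → ℂ}
    (h0 : ∀ S : Finset (FreeGroup (Fin n) × Fin n), ∑ p ∈ S, ‖f p‖ ^ 2 ≤ 1)
    (hφ : Bdd (pot f)) {u : L1 n} (hu : u ∈ I0 n) (hh : HalfMoment u) (h : FreeGroup (Fin n)) :
    ‖act (pot f) u h‖ ≤ half u := by
  have h1 : HasSum (fun g => u g * pot f (g * h)) (act (pot f) u h) :=
    (hφ.summable u h).hasSum
  have h2 : HasSum (fun g => u g * pot f h) 0 := by
    have h3 := (L1.summable u).hasSum.mul_right (pot f h)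
    rwa [mem_I0.1 hu, zero_mul] at h3
  have h3 := h1.sub h2
  rw [sub_zero] at h3
  refine h3.norm_le_of_bounded (Summable.hasSum hh) fun g => ?_
  rw [← mul_sub, norm_mul, mul_comm]
  exact mul_le_mul_of_nonneg_right (pot_diff_le i₀ f h0 g h) (norm_nonneg _)

theorem norm_act_conv_le {φ : FreeGroup (Fin n) → ℂ} (hφ : Bdd φ) {x y : L1 n} {B : ℝ}
    (h : ∀ g, ‖act φ x g‖ ≤ B) : ‖act φ (conv x y) 1‖ ≤ B * ‖y‖ := by
  rw [act_conv hφ, L1.norm_eq, ← tsum_mul_left]
  refine tsum_of_norm_bounded ((L1.summable_norm y).mul_left B).hasSum fun g => ?_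
  rw [norm_mul, mul_comm]
  exact mul_le_mul_of_nonneg_right (h _) (norm_nonneg _)

/-- Generators with finite moment of order one half. -/
theorem ineq_eps (x : Fin k → L1 n) (hx : ∀ j, x j ∈ I0 n) (hh : ∀ j, HalfMoment (x j)) {ε : ℝ}
    (hε : 0 < ε) : ∃ B : ℝ, 0 < B ∧ ∀ y : Fin n → Fin k → L1 n,
      (n : ℝ) - k ≤ ε * ∑ i, ∑ j, ‖y i j‖ + ∑ i, trunc B (err x (y i) i) := by
  choose x' h1 h2 h3 h4 h5 using fun j => exists_approx (hx j) (hh j) (half_pos hε)
  choose v hv1 hv2 using fun j => exists_fox (x' j) (h1 j) (h2 j)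
  set w : Fin n → Fin k → L1 n := fun i j => v j i with hw
  obtain ⟨C₀, hC0, hC⟩ := comm_WW w (fun i j => hv1 j i)
  set M : ℝ := 1 + 1 / ε with hMdef
  have hM : 1 ≤ M := by
    have : 0 ≤ 1 / ε := by positivity
    linarith
  have hM0 : 0 < M := by linarith
  have hMε : 1 / (2 * M) ≤ ε / 2 := by
    rw [div_le_div_iff₀ (by positivity) (by norm_num)]
    have : ε * M = ε + 1 := by
      rw [hMdef]
      field_simp
    nlinarith
  set Q : ℝ := 2 * √(C₀ ^ 2 + 1) * √M with hQdef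
  have hQ : 0 < Q := by positivity
  have hBQ : 2 / M * (2 * (C₀ * M) ^ 2 + 2 * M ^ 2 * 1) ≤ Q ^ 2 := by
    have e1 : √(C₀ ^ 2 + 1) ^ 2 = C₀ ^ 2 + 1 := Real.sq_sqrt (by positivity)
    have e2 : √M ^ 2 = M := Real.sq_sqrt hM0.le
    have e3 : Q ^ 2 = 4 * (C₀ ^ 2 + 1) * M := by
      rw [hQdef, mul_pow, mul_pow, e1, e2]
      norm_num
    rw [e3]
    refine le_of_eq ?_
    field_simp
    ring
  refine ⟨Q, hQ, fun y => ?_⟩
  refine (trace_Res (WW_equi w) (sq_nonneg M)).trans ?_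
  rw [Finset.mul_sum, ← Finset.sum_add_distrib]
  refine Finset.sum_le_sum fun i _ => ?_
  set z := Res (WW w) (M ^ 2) (dd (i, (1 : FreeGroup (Fin n)))) with hz
  have hz1 : ‖z‖ ≤ 1 := by
    have h := norm_Res_le (WW w) (sq_nonneg M) (dd (i, (1 : FreeGroup (Fin n))))
    rwa [norm_dd] at h
  have hz2 : ‖adjoint (WW w) z‖ ≤ ε / 2 := by
    have h := norm_adj_Res_le (WW w) hM0 (dd (i, (1 : FreeGroup (Fin n))))
    rw [norm_dd] at h
    exact h.trans hMε
  have hmom : ∀ S : Finset (Fin n × FreeGroup (Fin n)),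
      ∑ p ∈ S, ((FreeGroup.norm p.2 : ℝ) ^ 2 * ‖z p‖ ^ 2) ≤ (C₀ * M) ^ 2 :=
    moment_sum z fun N => moment_bound (WW w) hC0 hC hM0 i N
  obtain ⟨k0, k1, k2, k3⟩ := pot_facts z i hz1 hM hQ.le hmom hBQ
  have hφ : Bdd (pot (FF z)) := ⟨_, k2⟩
  have h6 : act (pot (FF z)) (pt (FreeGroup.of i) - pt 1) 1 = starRingEnd ℂ (z (i, 1)) := by
    rw [act_pt_sub, pot_of_mul, add_sub_cancel_left]
    rfl
  have h7 : pt (FreeGroup.of i) - pt 1 = ∑ j, conv (x j) (y i j) + err x (y i) i := by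
    unfold err
    abel
  have h8 : ‖z (i, 1)‖ = ‖starRingEnd ℂ (z (i, 1))‖ := (RCLike.norm_conj _).symm
  rw [h8, ← h6, h7, act_add hφ, act_sum hφ]
  refine (norm_add_le _ _).trans (add_le_add ?_ (norm_act_one_le hQ.le k3 _))
  rw [Finset.mul_sum]
  refine (norm_sum_le _ _).trans (Finset.sum_le_sum fun j _ => ?_)
  refine norm_act_conv_le hφ fun g => ?_
  have h9 : x j = x' j + (x j - x' j) := by abel
  have h10 : ‖act (pot (FF z)) (x' j) g‖ ≤ ε / 2 := by
    rw [hv2 j, act_fox hφ (v j) g]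
    have h11 := adj_apply w z j g
    have h12 : ∑ i, ∑' h, v j i h * FF z (h * g, i) =
        starRingEnd ℂ (adjoint (WW w) z (j, g)) := h11
    rw [h12, RCLike.norm_conj]
    exact (lp.norm_apply_le_norm two_ne_zero _ _).trans hz2
  have h11 : HalfMoment (x j - x' j) := by
    rw [sub_eq_add_neg]
    exact (hh j).add (h3 j).neg
  have h12 : ‖act (pot (FF z)) (x j - x' j) g‖ ≤ ε / 2 :=
    (norm_act_half_le i k0 hφ (Submodule.sub_mem _ (hx j) (h1 j)) h11 g).trans (h5 j)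
  rw [h9, act_add hφ]
  refine (norm_add_le _ _).trans ?_
  linarith

theorem trunc_le_half {f : L1 n} (hf : HalfMoment f) {B : ℝ} (hB : 0 ≤ B) : trunc B f ≤ half f := by
  refine Summable.tsum_le_tsum (fun g => ?_) (summable_min _ hB) hf
  exact mul_le_mul_of_nonneg_right (min_le_left _ _) (norm_nonneg _)

/-- The `1/2`-moment of the errors is at least `n - k`. -/
theorem bound_half (x : Fin k → L1 n) (hx : ∀ j, x j ∈ I0 n) (hh : ∀ j, HalfMoment (x j))
    (y : Fin n → Fin k → L1 n) (hy : ∀ i, HalfMoment (err x (y i) i)) :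
    (n : ℝ) - k ≤ ∑ i, half (err x (y i) i) := by
  set K : ℝ := ∑ i, ∑ j, ‖y i j‖ with hK
  have hK0 : 0 ≤ K := Finset.sum_nonneg fun i _ => Finset.sum_nonneg fun j _ => norm_nonneg _
  refine le_of_forall_pos_le_add fun δ hδ => ?_
  have hε : 0 < δ / (K + 1) := by positivity
  obtain ⟨B, hB, h⟩ := ineq_eps x hx hh hε
  have h1 := h y
  have h2 : ∑ i, trunc B (err x (y i) i) ≤ ∑ i, half (err x (y i) i) :=
    Finset.sum_le_sum fun i _ => trunc_le_half (hy i) hB.le
  have h7 : δ / (K + 1) * K ≤ δ := by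
    rw [div_mul_eq_mul_div, div_le_iff₀ (by linarith)]
    nlinarith
  linarith

end Pool.Agent.H64.CR
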