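import Mathlib
import Pool.Agent.H64.CR.Eps

/-!
# Arbitrary elements of the augmentation ideal, coefficients with finite first moment
-/

namespace Pool.Agent.H64.CR

open Pool.Agent.H64.AugIdeal Pool.Agent.H64.RatIdeal ContinuousLinearMap

variable {n k m : ℕ}

/-- Uniqueness of potentials. -/
theorem pot_unique {ψ : FreeGroup (Fin n) → ℂ} {f : FreeGroup (Fin n) × Fin n → ℂ}
    (h1 : ψ 1 = 0) (h2 : ∀ (l : Fin n) (g : FreeGroup (Fin n)),
      ψ (FreeGroup.of l * g) = ψ g + f (g, l)) (N : ℕ)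
    (g : FreeGroup (Fin n)) (hg : FreeGroup.norm g = N) : ψ g = pot f g := by
  induction N generalizing g with
  | zero =>
    have h3 : g = 1 := FreeGroup.norm_eq_zero.1 hg
    subst h3
    rw [h1]
    simp [pot]
  | succ N ih =>
    have h0 : g ≠ 1 := by
      rintro rfl
      rw [FreeGroup.norm_one] at hg
      omega
    obtain ⟨x, h₁, e, hn⟩ := exists_letter_mul g h0
    have ih' := ih h₁ (by omega)
    rcases x with ⟨a, b⟩
    cases b
    · have e1 : h₁ = FreeGroup.of a * g := by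
        rw [e, mk_false, mul_inv_cancel_left]
      rw [e1, pot_of_mul, h2] at ih'
      exact add_right_cancel ih'
    · have e1 : g = FreeGroup.of a * h₁ := by
        rw [e, mk_true]
      rw [e1, pot_of_mul, h2, ih']

/-- Fubini. -/
theorem act_conv_swap {φ : FreeGroup (Fin n) → ℂ} (hφ : Bdd φ) (x y : L1 n) :
    act φ (conv x y) 1 = ∑' u, x u * ∑' h, y h * φ (u * h) := by
  rw [act_conv hφ]
  obtain ⟨C, hC⟩ := hφ
  have hs : Summable (Function.uncurry fun u h => x u * (y h * φ (u * h))) := by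
    have h1 : Summable fun p : FreeGroup (Fin n) × FreeGroup (Fin n) => ‖x p.1 * y p.2‖ * C :=
      ((L1.summable_norm x).mul_norm (L1.summable_norm y)).mul_right C
    refine Summable.of_norm_bounded h1 (fun p => ?_)
    change ‖x p.1 * (y p.2 * φ (p.1 * p.2))‖ ≤ _
    rw [← mul_assoc, norm_mul]
    exact mul_le_mul_of_nonneg_left (hC _) (norm_nonneg _)
  have h2 := hs.tsum_comm
  unfold act
  have e1 : ∀ u, x u * ∑' h, y h * φ (u * h) = ∑' h, x u * (y h * φ (u * h)) := fun u =>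
    tsum_mul_left.symm
  have e2 : ∀ h, y h * ∑' u, x u * φ (u * (h * 1)) = ∑' u, x u * (y h * φ (u * h)) := by
    intro h
    rw [← tsum_mul_left]
    refine tsum_congr fun u => ?_
    rw [mul_one]
    ring
  simp only [e1, e2]
  exact h2

/-- The adjoint of `y`, as an operator. -/
theorem WW_transpose_apply (y : Fin n → Fin k → L1 n) (f : HH n n) (j : Fin k) :
    WW (fun j i => y i j) f (j, 1) = ∑ i, ∑' h, y i j h * f (i, h⁻¹) := by
  rw [WW_apply]
  refine Finset.sum_congr rfl fun i _ => tsum_congr fun h => ?_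
  rw [mul_one]

/-- The symmetry of the resolvent in terms of the gradients. -/
theorem FF_Res {W : HH n k →L[ℂ] HH n n} (hW : Equi W) {t : ℝ} (ht : 0 ≤ t) (i l : Fin n)
    (b h : FreeGroup (Fin n)) :
    FF (Res W t (dd (i, (1 : FreeGroup (Fin n))))) (b * h, l) =
      (Res W t (dd (l, b))) (i, h⁻¹) := by
  have e1 : (dd (l, b * h) : HH n n) = RR n h⁻¹ (dd (l, b)) := by
    rw [RR_dd, inv_inv]
  unfold FF
  change starRingEnd ℂ ((Res W t (dd (i, (1 : FreeGroup (Fin n))))) (l, b * h)) = _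
  rw [← inner_dd, inner_conj_symm, Res_symm W ht, inner_dd, e1, Res_equi hW ht, RR_apply, one_mul]

/-- The field whose potential is the pairing with the translates. -/
noncomputable def GG (W : HH n k →L[ℂ] HH n n) (t : ℝ) (j : Fin k)
    (p : FreeGroup (Fin n) × Fin n) : ℂ :=
  adjoint W (Res W t (dd (p.2, p.1))) (j, 1)

theorem GG_eq {W : HH n k →L[ℂ] HH n n} (hW : Equi W) {t : ℝ} (ht : 0 ≤ t) (j : Fin k)
    (p : FreeGroup (Fin n) × Fin n) :
    GG W t j p = adjoint W (Res W t (dd (p.2, (1 : FreeGroup (Fin n))))) (j, p.1⁻¹) := by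
  have e1 : (dd (p.2, p.1) : HH n n) = RR n p.1⁻¹ (dd (p.2, 1)) := by
    rw [RR_dd, inv_inv, one_mul]
  unfold GG
  rw [e1, Res_equi hW ht, adjoint_equi hW, RR_apply, one_mul]

theorem sum_GG_le {W : HH n k →L[ℂ] HH n n} (hW : Equi W) {t : ℝ} (ht : 0 ≤ t) (j : Fin k)
    {c : FreeGroup (Fin n) → ℝ} (hc0 : ∀ g, 0 ≤ c g) (hc : ∀ g, c g⁻¹ = c g) {B : ℝ}
    (hB : ∀ (l : Fin n) (S : Finset (Fin k × FreeGroup (Fin n))),
      ∑ p ∈ S, (c p.2 * ‖adjoint W (Res W t (dd (l, (1 : FreeGroup (Fin n))))) p‖ ^ 2) ≤ B)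
    (S : Finset (FreeGroup (Fin n) × Fin n)) : ∑ p ∈ S, (c p.1 * ‖GG W t j p‖ ^ 2) ≤ n * B := by
  classical
  have h1 : S ⊆ (S.image Prod.fst) ×ˢ (Finset.univ : Finset (Fin n)) := by
    intro p hp
    exact Finset.mem_product.2 ⟨Finset.mem_image_of_mem _ hp, Finset.mem_univ _⟩
  refine (Finset.sum_le_sum_of_subset_of_nonneg h1 fun p _ _ =>
    mul_nonneg (hc0 _) (by positivity)).trans ?_
  rw [Finset.sum_product_right]
  have h2 : ∀ l : Fin n, ∑ b ∈ S.image Prod.fst, (c b * ‖GG W t j (b, l)‖ ^ 2) ≤ B := by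
    intro l
    refine le_trans (le_of_eq ?_) (hB l ((S.image Prod.fst).image fun b => (j, b⁻¹)))
    rw [Finset.sum_image (fun a _ b _ hab => inv_injective (Prod.mk.inj hab).2)]
    refine Finset.sum_congr rfl fun b _ => ?_
    rw [GG_eq hW ht]
    change _ = c b⁻¹ * _
    rw [hc]
  refine (Finset.sum_le_sum fun l _ => h2 l).trans (le_of_eq ?_)
  rw [Finset.sum_const, Finset.card_univ, Fintype.card_fin, nsmul_eq_mul]

/-- The pairing with the translates is a potential. -/
theorem pairing_eq_pot (y : Fin n → Fin k → L1 n) {t : ℝ} (ht : 0 ≤ t)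
    (hφ : ∀ i : Fin n, Bdd (pot (FF (Res (adjoint (WW fun j i => y i j)) t
      (dd (i, (1 : FreeGroup (Fin n)))))))) (j : Fin k) (u : FreeGroup (Fin n)) :
    (∑ i, ∑' h, y i j h * (pot (FF (Res (adjoint (WW fun j i => y i j)) t
      (dd (i, (1 : FreeGroup (Fin n)))))) (u * h) -
      pot (FF (Res (adjoint (WW fun j i => y i j)) t
      (dd (i, (1 : FreeGroup (Fin n)))))) h)) =
    pot (GG (adjoint (WW fun j i => y i j)) t j) u := by
  set W : HH n k →L[ℂ] HH n n := adjoint (WW fun j i => y i j) with hWdef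
  have hW : Equi W := adjoint_equi (WW_equi _)
  have hadj : adjoint W = WW fun j i => y i j := adjoint_adjoint _
  set φ : Fin n → FreeGroup (Fin n) → ℂ := fun i =>
    pot (FF (Res W t (dd (i, (1 : FreeGroup (Fin n)))))) with hφdef
  have hsum : ∀ i u, Summable fun h => y i j h * (φ i (u * h) - φ i h) := by
    intro i u
    obtain ⟨C, hC⟩ := hφ i
    refine (summable_mul_bounded (y i j) (b := fun h => φ i (u * h) - φ i h) (C := C + C)
      fun h => ?_).of_norm
    exact (norm_sub_le _ _).trans (add_le_add (hC _) (hC _))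
  refine pot_unique (ψ := fun u => ∑ i, ∑' h, y i j h * (φ i (u * h) - φ i h)) ?_ ?_ _ u rfl
  · refine Finset.sum_eq_zero fun i _ => ?_
    have : ∀ h, y i j h * (φ i (1 * h) - φ i h) = 0 := by
      intro h
      rw [one_mul, sub_self, mul_zero]
    simp only [this, tsum_zero]
  · intro l g
    have e1 : GG W t j (g, l) = ∑ i, ∑' h, y i j h * (Res W t (dd (l, g))) (i, h⁻¹) := by
      unfold GG
      rw [hadj]
      exact WW_transpose_apply y _ j
    rw [e1, ← Finset.sum_add_distrib]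
    refine Finset.sum_congr rfl fun i _ => ?_
    have hs2 : Summable fun h => y i j h * (Res W t (dd (l, g))) (i, h⁻¹) := by
      refine (summable_mul_bounded (y i j) (b := fun h => (Res W t (dd (l, g))) (i, h⁻¹))
        (C := ‖Res W t (dd (l, g))‖) fun h => ?_).of_norm
      exact lp.norm_apply_le_norm two_ne_zero _ _
    rw [← (hsum i g).tsum_add hs2]
    refine tsum_congr fun h => ?_
    rw [← FF_Res hW ht]
    have e2 : φ i (FreeGroup.of l * g * h) = φ i (g * h) +
        FF (Res W t (dd (i, (1 : FreeGroup (Fin n))))) (g * h, l) := by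
      rw [mul_assoc]
      exact pot_of_mul _ _ _
    rw [e2]
    ring

/-- The pairing of the potentials with `x_j * y_{ij}`, summed over `i`. -/
theorem pairing_le (x : L1 n) (hx : x ∈ I0 n) (y : Fin n → Fin k → L1 n) {t : ℝ} (ht : 0 ≤ t)
    (hφ : ∀ i : Fin n, Bdd (pot (FF (Res (adjoint (WW fun j i => y i j)) t
      (dd (i, (1 : FreeGroup (Fin n)))))))) (j : Fin k) {κ : ℝ}
    (hκ : ∀ u, ‖pot (GG (adjoint (WW fun j i => y i j)) t j) u‖ ≤ κ) :
    ‖∑ i, act (pot (FF (Res (adjoint (WW fun j i => y i j)) t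
      (dd (i, (1 : FreeGroup (Fin n))))))) (conv x (y i j)) 1‖ ≤ κ * ‖x‖ := by
  set φ : Fin n → FreeGroup (Fin n) → ℂ := fun i =>
    pot (FF (Res (adjoint (WW fun j i => y i j)) t (dd (i, (1 : FreeGroup (Fin n)))))) with hφdef
  have hpair := pairing_eq_pot y ht hφ j
  have hs1 : ∀ i u, Summable fun h => y i j h * φ i (u * h) := by
    intro i u
    obtain ⟨C, hC⟩ := hφ i
    exact (summable_mul_bounded (y i j) (b := fun h => φ i (u * h)) fun h => hC _).of_norm
  have hs2 : ∀ i, Summable fun h => y i j h * φ i h := by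
    intro i
    obtain ⟨C, hC⟩ := hφ i
    exact (summable_mul_bounded (y i j) (b := fun h => φ i h) fun h => hC _).of_norm
  have hBb : ∀ i, ∃ K : ℝ, ∀ u, ‖∑' h, y i j h * φ i (u * h)‖ ≤ K := by
    intro i
    obtain ⟨C, hC⟩ := hφ i
    refine ⟨∑' h, ‖y i j h‖ * C, fun u => ?_⟩
    refine tsum_of_norm_bounded ((L1.summable_norm _).mul_right C).hasSum fun h => ?_
    rw [norm_mul]
    exact mul_le_mul_of_nonneg_left (hC _) (norm_nonneg _)
  have hs3 : ∀ i, Summable fun u => x u * ∑' h, y i j h * φ i (u * h) := by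
    intro i
    obtain ⟨K, hK⟩ := hBb i
    exact (summable_mul_bounded x (b := fun u => ∑' h, y i j h * φ i (u * h)) hK).of_norm
  have h1 : ∑ i, act (φ i) (conv x (y i j)) 1 =
      ∑' u, x u * ∑ i, ∑' h, y i j h * φ i (u * h) := by
    have e1 : ∀ i, act (φ i) (conv x (y i j)) 1 = ∑' u, x u * ∑' h, y i j h * φ i (u * h) :=
      fun i => act_conv_swap (hφ i) x (y i j)
    simp only [e1]
    rw [← Summable.tsum_finsetSum fun i _ => hs3 i]
    exact tsum_congr fun u => (Finset.mul_sum _ _ _).symm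
  have hx0 : HasSum (fun u => x u * ∑ i, ∑' h, y i j h * φ i h) 0 := by
    have h3 := (L1.summable x).hasSum.mul_right (∑ i, ∑' h, y i j h * φ i h)
    rwa [mem_I0.1 hx, zero_mul] at h3
  have hx1 : HasSum (fun u => x u * ∑ i, ∑' h, y i j h * φ i (u * h))
      (∑ i, act (φ i) (conv x (y i j)) 1) := by
    rw [h1]
    refine Summable.hasSum ?_
    have h4 := summable_sum (s := Finset.univ) fun i (_ : i ∈ Finset.univ) => hs3 i
    refine h4.congr fun u => ?_
    rw [Finset.mul_sum]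
  have h2 := hx1.sub hx0
  rw [sub_zero] at h2
  have h3 : ∀ u, x u * ∑ i, ∑' h, y i j h * φ i (u * h) -
      x u * ∑ i, ∑' h, y i j h * φ i h =
      x u * pot (GG (adjoint (WW fun j i => y i j)) t j) u := by
    intro u
    rw [← mul_sub, ← hpair u, ← Finset.sum_sub_distrib]
    congr 1
    refine Finset.sum_congr rfl fun i _ => ?_
    rw [← (hs1 i u).tsum_sub (hs2 i)]
    exact tsum_congr fun h => (mul_sub _ _ _).symm
  simp only [h3] at h2
  rw [L1.norm_eq, ← tsum_mul_left]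
  refine h2.norm_le_of_bounded ((L1.summable_norm x).mul_left κ).hasSum fun u => ?_
  rw [norm_mul, mul_comm]
  exact mul_le_mul_of_nonneg_right (hκ u) (norm_nonneg _)

/-- The explicit inequality for arbitrary elements of the augmentation ideal. -/
theorem all_ineq (x : Fin k → L1 n) (hx : ∀ j, x j ∈ I0 n) (y : Fin n → Fin k → L1 n)
    (hy : ∀ i j, FirstMoment (y i j)) {s : ℝ} (hs : 1 ≤ s) {C : ℝ}
    (hCdef : C = ∑ i, ∑ j, mom (y i j)) :
    (n : ℝ) - k ≤ √(37 * n * (C + 1) / s) * ∑ j, ‖x j‖ +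
      ∑ i, trunc (√(8 * (C + 1) * s)) (err x (y i) i) := by
  have hs0 : 0 < s := by linarith
  have hC0 : 0 ≤ C := by
    rw [hCdef]
    exact Finset.sum_nonneg fun i _ => Finset.sum_nonneg fun j _ => mom_nonneg _
  have hM : 1 ≤ (C + 1) * s := by nlinarith
  have hM0 : 0 < (C + 1) * s := by linarith
  have hCY : ∀ (N : ℕ) (f : HH n n),
      ‖LL k N (WW (fun j i => y i j) f) - WW (fun j i => y i j) (LL n N f)‖ ≤ C * ‖f‖ := by
    intro N f
    rw [hCdef, Finset.sum_comm]
    exact comm_WW' (fun j i => y i j) (fun j i => hy i j) N f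
  set W : HH n k →L[ℂ] HH n n := adjoint (WW fun j i => y i j) with hWdef
  have hW : Equi W := adjoint_equi (WW_equi _)
  have hCW : ∀ (N : ℕ) (f : HH n k), ‖LL n N (W f) - W (LL k N f)‖ ≤ C * ‖f‖ := by
    intro N f
    rw [norm_sub_rev]
    exact comm_adj (WW fun j i => y i j) hC0 hCY N f
  set z : Fin n → HH n n := fun i => Res W (s ^ 2) (dd (i, (1 : FreeGroup (Fin n)))) with hzdef
  have hz1 : ∀ i, ‖z i‖ ≤ 1 := by
    intro i
    have h := norm_Res_le W (sq_nonneg s) (dd (i, (1 : FreeGroup (Fin n))))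
    rwa [norm_dd] at h
  have hz2 : ∀ i, ‖adjoint W (z i)‖ ≤ 1 / (2 * s) := by
    intro i
    have h := norm_adj_Res_le W hs0 (dd (i, (1 : FreeGroup (Fin n))))
    rwa [norm_dd] at h
  set Q : ℝ := √(8 * (C + 1) * s) with hQdef
  have hQ : 0 ≤ Q := Real.sqrt_nonneg _
  have hBQ : 2 / ((C + 1) * s) * (2 * (C * s) ^ 2 + 2 * ((C + 1) * s) ^ 2 * 1) ≤ Q ^ 2 := by
    have e1 : Q ^ 2 = 8 * (C + 1) * s := Real.sq_sqrt (by positivity)
    have e2 : 2 * (C * s) ^ 2 + 2 * ((C + 1) * s) ^ 2 * 1 ≤ 4 * ((C + 1) * s) ^ 2 := by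
      have : (C * s) ^ 2 ≤ ((C + 1) * s) ^ 2 :=
        pow_le_pow_left₀ (by positivity) (by nlinarith) 2
      linarith
    calc 2 / ((C + 1) * s) * (2 * (C * s) ^ 2 + 2 * ((C + 1) * s) ^ 2 * 1) ≤
          2 / ((C + 1) * s) * (4 * ((C + 1) * s) ^ 2) :=
          mul_le_mul_of_nonneg_left e2 (by positivity)
      _ = 8 * (C + 1) * s := by
          field_simp
          ring
      _ = Q ^ 2 := e1.symm
  have hfacts : ∀ i, Bdd (pot (FF (z i))) ∧
      ∀ g, ‖pot (FF (z i)) g‖ ≤ min (√(FreeGroup.norm g : ℝ)) Q := by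
    intro i
    obtain ⟨_, _, k2, k3⟩ := pot_facts (z i) i (hz1 i) hM hQ
      (moment_sum (z i) fun N => moment_bound W hC0 hCW hs0 i N) hBQ
    exact ⟨⟨_, k2⟩, k3⟩
  -- the bound of the pairing
  set κ : ℝ := √(37 * n * (C + 1) / s) with hκdef
  have hκ : ∀ j u, ‖pot (GG W (s ^ 2) j) u‖ ≤ κ := by
    intro j u
    by_cases hn : Nonempty (Fin n)
    · obtain ⟨i₀⟩ := hn
      have g0 : ∀ S : Finset (FreeGroup (Fin n) × Fin n),
          ∑ p ∈ S, ‖GG W (s ^ 2) j p‖ ^ 2 ≤ n * (1 / (2 * s)) ^ 2 := by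
        intro S
        have h := sum_GG_le hW (sq_nonneg s) j (c := fun _ => 1) (fun _ => zero_le_one)
          (fun _ => rfl) (B := (1 / (2 * s)) ^ 2) (fun l S => by
            simp only [one_mul]
            refine ((HH.summable_sq _).sum_le_tsum S fun _ _ => by positivity).trans ?_
            rw [← HH.norm_sq]
            exact pow_le_pow_left₀ (norm_nonneg _) (hz2 l) 2) S
        simpa only [one_mul] using h
      have g2 : ∀ S : Finset (FreeGroup (Fin n) × Fin n),
          ∑ p ∈ S, ((FreeGroup.norm p.1 : ℝ) ^ 2 * ‖GG W (s ^ 2) j p‖ ^ 2) ≤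
            n * (3 * C) ^ 2 :=
        sum_GG_le hW (sq_nonneg s) j (c := fun g => (FreeGroup.norm g : ℝ) ^ 2)
          (fun _ => by positivity) (fun g => by rw [FreeGroup.norm_inv_eq])
          (fun l S => moment_sum _ (fun N => moment_adj W hC0 hCW hs0 l N) S)
      have h := pot_weighted i₀ (GG W (s ^ 2) j) hM g0 g2 u
      refine Real.le_sqrt_of_sq_le (h.trans ?_)
      have e2 : 2 * (n * (3 * C) ^ 2) + 2 * ((C + 1) * s) ^ 2 * (n * (1 / (2 * s)) ^ 2) ≤
          37 / 2 * n * (C + 1) ^ 2 := by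
        have e3 : 2 * ((C + 1) * s) ^ 2 * (n * (1 / (2 * s)) ^ 2) = n * (C + 1) ^ 2 / 2 := by
          field_simp
        have e4 : C ^ 2 ≤ (C + 1) ^ 2 := pow_le_pow_left₀ hC0 (by linarith) 2
        have e5 : (n : ℝ) * C ^ 2 ≤ n * (C + 1) ^ 2 :=
          mul_le_mul_of_nonneg_left e4 (Nat.cast_nonneg n)
        rw [e3]
        linarith
      calc 2 / ((C + 1) * s) * (2 * (n * (3 * C) ^ 2) +
            2 * ((C + 1) * s) ^ 2 * (n * (1 / (2 * s)) ^ 2)) ≤
            2 / ((C + 1) * s) * (37 / 2 * n * (C + 1) ^ 2) :=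
            mul_le_mul_of_nonneg_left e2 (by positivity)
        _ = 37 * n * (C + 1) / s := by
            field_simp
    · have hu : FreeGroup.norm u = 0 := by
        have : u = 1 := by
          have hsub : IsEmpty (Fin n) := not_nonempty_iff.1 hn
          exact Subsingleton.elim _ _
        rw [this, FreeGroup.norm_one]
      have hu1 : u = 1 := FreeGroup.norm_eq_zero.1 hu
      rw [hu1]
      simp [pot, hκdef]
  -- the sum
  have h0 : ∀ i, starRingEnd ℂ (z i (i, 1)) =
      (∑ j, act (pot (FF (z i))) (conv (x j) (y i j)) 1) +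
        act (pot (FF (z i))) (err x (y i) i) 1 := by
    intro i
    have h6 : act (pot (FF (z i))) (pt (FreeGroup.of i) - pt 1) 1 =
        starRingEnd ℂ (z i (i, 1)) := by
      rw [act_pt_sub, pot_of_mul, add_sub_cancel_left]
      rfl
    have h7 : pt (FreeGroup.of i) - pt 1 = ∑ j, conv (x j) (y i j) + err x (y i) i := by
      unfold err
      abel
    rw [← h6, h7, act_add (hfacts i).1, act_sum (hfacts i).1]
  have htr := trace_Res_norm hW (sq_nonneg s)
  have h1 : ‖∑ i : Fin n, (Res W (s ^ 2) (dd (i, (1 : FreeGroup (Fin n))))) (i, 1)‖ =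
      ‖∑ i : Fin n, starRingEnd ℂ (z i (i, 1))‖ := by
    rw [← map_sum, RCLike.norm_conj]
  rw [h1] at htr
  simp only [h0] at htr
  rw [Finset.sum_add_distrib, Finset.sum_comm] at htr
  refine htr.trans ((norm_add_le _ _).trans (add_le_add ?_ ?_))
  · rw [Finset.mul_sum]
    refine (norm_sum_le _ _).trans (Finset.sum_le_sum fun j _ => ?_)
    exact pairing_le (x j) (hx j) y (sq_nonneg s) (fun i => (hfacts i).1) j (hκ j)
  · refine (norm_sum_le _ _).trans (Finset.sum_le_sum fun i _ => ?_)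
    exact norm_act_one_le hQ (hfacts i).2 _

end Pool.Agent.H64.CR
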