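import Mathlib
import Pool.Agent.H64.CR.Eps

/-!
# The final form of the moment bounds
-/

namespace Pool.Agent.H64.CR

open Pool.Agent.H64.AugIdeal Pool.Agent.H64.RatIdeal

variable {n k : ℕ}

theorem final_rate (x : Fin k → L1 n) (hx : ∀ j, x j ∈ I0 n) (h2 : ∀ j, SecondMoment (x j)) :
    ∃ C : ℝ, 0 < C ∧ ∀ y : Fin n → Fin k → L1 n,
      (∀ M : ℝ, 1 ≤ M → (n : ℝ) - k ≤ (∑ i, norm2 (y i)) / (2 * M) +
        ∑ i, trunc (C * √M) (err x (y i) i)) ∧
      (k < n → 1 ≤ 2 * C * √(1 + ∑ i, norm2 (y i)) * ∑ i, ‖err x (y i) i‖) := by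
  choose v hv1 hv2 using fun j => exists_fox (x j) (hx j) (h2 j)
  obtain ⟨C, hC0, hC⟩ := main_ineq x (fun i j => v j i) hv2 (fun i j => hv1 j i)
  exact ⟨C, hC0, fun y => ⟨hC y, fun hk => rate hk x hC0 y (hC y)⟩⟩

theorem final_gap (x : Fin k → L1 n) (hx : ∀ j, x j ∈ I0 n) (h2 : ∀ j, SecondMoment (x j)) :
    ∃ w : Fin n → Fin k → L1 n, IsFox x w ∧ (∀ w', IsFox x w' → w' = w) ∧ IsBoundedOp w ∧
      (HasClosedRange w →
        (∃ C : ℝ, 0 < C ∧ ∀ y : Fin n → Fin k → L1 n,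
          (n : ℝ) - k ≤ ∑ i, trunc C (err x (y i) i)) ∧
        (k < n → generated x ≠ I0 n)) := by
  choose v hv1 hv2 using fun j => exists_fox (x j) (hx j) (h2 j)
  refine ⟨fun i j => v j i, hv2, ?_, isBoundedOp _, ?_⟩
  · intro w' hw'
    funext i j
    have h1 : (fun i => w' i j) = v j := fox_unique ((hw' j).symm.trans (hv2 j))
    exact congrFun h1 i
  · intro hcl
    refine ⟨gap_ineq x (fun i j => v j i) hv2 (fun i j => hv1 j i) (isClosed_range _ hcl), ?_⟩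
    intro hk
    have h1 := generated_ne hk (fun i j => v j i) (fun i j => hv1 j i) (isClosed_range _ hcl)
    have h3 : x = fun j => ∑ i, conv (pt (FreeGroup.of i) - pt 1) (v j i) := by
      funext j
      exact hv2 j
    rw [h3]
    exact h1

end Pool.Agent.H64.CR
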