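import Mathlib
import Pool.Agent.H64.CR.Dual
import Pool.Agent.H64.CR.Final2

/-!
# The moment of order one half of the errors, for arbitrary elements of the augmentation ideal
-/

namespace Pool.Agent.H64.CR

open Pool.Agent.H64.AugIdeal

variable {n k : ℕ}

/-- The moment of order `1/2` of the errors is at least `n - k`: arbitrary `x_j`. -/
theorem bound_half_all (x : Fin k → L1 n) (hx : ∀ j, x j ∈ I0 n) (y : Fin n → Fin k → L1 n)
    (hy : ∀ i j, FirstMoment (y i j)) (hE : ∀ i, HalfMoment (err x (y i) i)) :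
    (n : ℝ) - k ≤ ∑ i, half (err x (y i) i) := by
  set C : ℝ := ∑ i, ∑ j, mom (y i j) with hC
  have hC0 : 0 ≤ C := Finset.sum_nonneg fun i _ => Finset.sum_nonneg fun j _ => mom_nonneg _
  set A : ℝ := 37 * n * (C + 1) with hA
  have hA0 : 0 ≤ A := by positivity
  set X : ℝ := ∑ j, ‖x j‖ with hX
  have hX0 : 0 ≤ X := Finset.sum_nonneg fun j _ => norm_nonneg _
  refine le_of_forall_pos_le_add fun ε hε => ?_
  have hM : (1 : ℝ) ≤ 1 + A * X ^ 2 / ε ^ 2 := by
    have : 0 ≤ A * X ^ 2 / ε ^ 2 := by positivity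
    linarith
  have h1 := all_ineq x hx y hy hM hC
  rw [← hA] at h1
  have h2 : √(A / (1 + A * X ^ 2 / ε ^ 2)) * X ≤ ε := by
    have h3 : √(A / (1 + A * X ^ 2 / ε ^ 2)) * X =
        √(A / (1 + A * X ^ 2 / ε ^ 2) * X ^ 2) := by
      rw [Real.sqrt_mul (by positivity), Real.sqrt_sq hX0]
    rw [h3]
    refine Real.sqrt_le_iff.2 ⟨hε.le, ?_⟩
    rw [div_mul_eq_mul_div, div_le_iff₀ (by positivity)]
    have h4 : ε ^ 2 * (1 + A * X ^ 2 / ε ^ 2) = ε ^ 2 + A * X ^ 2 := by
      field_simp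
    rw [h4]
    have := sq_nonneg ε
    linarith
  have h5 : ∑ i, trunc (√(8 * (C + 1) * (1 + A * X ^ 2 / ε ^ 2))) (err x (y i) i) ≤
      ∑ i, half (err x (y i) i) :=
    Finset.sum_le_sum fun i _ => trunc_le_half (hE i) (by positivity)
  linarith

end Pool.Agent.H64.CR
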