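import Mathlib
import Pool.Agent.H64.CR.Final3

/-!
# Lower bounds for the errors in `ℓ¹`
-/

namespace Pool.Agent.H64.CR

open Pool.Agent.H64.AugIdeal

variable {n k : ℕ}

theorem one_le_sub (hk : k < n) : (1 : ℝ) ≤ n - k := by
  have : (k : ℝ) + 1 ≤ n := by exact_mod_cast hk
  linarith

/-- The explicit lower bound, for arbitrary elements of the augmentation ideal and coefficients with
finite first moment. -/
theorem explicit_bound (hk : k < n) (x : Fin k → L1 n) (hx : ∀ j, x j ∈ I0 n)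
    (y : Fin n → Fin k → L1 n) (hy : ∀ i j, FirstMoment (y i j)) :
    1 ≤ 70 * √n * (1 + ∑ i, ∑ j, mom (y i j)) * (1 + ∑ j, ‖x j‖) * ∑ i, ‖err x (y i) i‖ := by
  set C : ℝ := ∑ i, ∑ j, mom (y i j) with hC
  have hC0 : 0 ≤ C := Finset.sum_nonneg fun i _ => Finset.sum_nonneg fun j _ => mom_nonneg _
  set X : ℝ := ∑ j, ‖x j‖ with hX
  have hX0 : 0 ≤ X := Finset.sum_nonneg fun j _ => norm_nonneg _
  have hn1 : (1 : ℝ) ≤ n := by
    have h1 := one_le_sub hk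
    have h2 : (0 : ℝ) ≤ k := Nat.cast_nonneg k
    linarith
  set s : ℝ := 1 + 148 * n * (C + 1) * X ^ 2 with hs
  have hs1 : 1 ≤ s := by
    have : 0 ≤ 148 * n * (C + 1) * X ^ 2 := by positivity
    linarith
  have hs0 : 0 < s := by linarith
  have h1 := all_ineq x hx y hy hs1 hC
  have h2 : √(37 * n * (C + 1) / s) * X ≤ 1 / 2 := by
    have h3 : √(37 * n * (C + 1) / s) * X = √(37 * n * (C + 1) / s * X ^ 2) := by
      rw [Real.sqrt_mul (by positivity), Real.sqrt_sq hX0]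
    rw [h3]
    refine Real.sqrt_le_iff.2 ⟨by norm_num, ?_⟩
    rw [div_mul_eq_mul_div, div_le_iff₀ hs0, hs]
    nlinarith
  have h3 : √(8 * (C + 1) * s) ≤ 35 * √n * (1 + C) * (1 + X) := by
    have h4 : 35 * √n * (1 + C) * (1 + X) = √((35 * √n * (1 + C) * (1 + X)) ^ 2) :=
      (Real.sqrt_sq (by positivity)).symm
    rw [h4]
    refine Real.sqrt_le_sqrt ?_
    have h5 : (35 * √n * (1 + C) * (1 + X)) ^ 2 =
        (C + 1) * (1225 * n * (C + 1) * (1 + X) ^ 2) := by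
      have h6 : √(n : ℝ) ^ 2 = n := Real.sq_sqrt (Nat.cast_nonneg n)
      calc (35 * √n * (1 + C) * (1 + X)) ^ 2 =
          1225 * √(n : ℝ) ^ 2 * (1 + C) ^ 2 * (1 + X) ^ 2 := by ring
        _ = _ := by rw [h6]; ring
    rw [h5]
    have h7 : 1225 * n * (C + 1) * (1 + X) ^ 2 - 8 * s =
        (1225 * n - 8) + 1225 * n * C + 2450 * n * (C + 1) * X + 41 * n * (C + 1) * X ^ 2 := by
      rw [hs]
      ring
    have h8 : 0 ≤ 1225 * (n : ℝ) - 8 := by linarith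
    have h9 : 0 ≤ 1225 * n * C + 2450 * n * (C + 1) * X + 41 * n * (C + 1) * X ^ 2 := by
      positivity
    have h10 : 8 * s ≤ 1225 * n * (C + 1) * (1 + X) ^ 2 := by linarith
    calc 8 * (C + 1) * s = (C + 1) * (8 * s) := by ring
      _ ≤ _ := mul_le_mul_of_nonneg_left h10 (by positivity)
  have h4 : ∑ i, trunc (√(8 * (C + 1) * s)) (err x (y i) i) ≤
      √(8 * (C + 1) * s) * ∑ i, ‖err x (y i) i‖ := by
    rw [Finset.mul_sum]
    exact Finset.sum_le_sum fun i _ => trunc_le_mul (Real.sqrt_nonneg _) _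
  have hE : 0 ≤ ∑ i, ‖err x (y i) i‖ := Finset.sum_nonneg fun i _ => norm_nonneg _
  have h5 : √(8 * (C + 1) * s) * ∑ i, ‖err x (y i) i‖ ≤
      35 * √n * (1 + C) * (1 + X) * ∑ i, ‖err x (y i) i‖ := mul_le_mul_of_nonneg_right h3 hE
  have h6 := one_le_sub hk
  have h7 : 70 * √n * (1 + C) * (1 + X) * ∑ i, ‖err x (y i) i‖ =
      2 * (35 * √n * (1 + C) * (1 + X) * ∑ i, ‖err x (y i) i‖) := by ring
  rw [h7]
  linarith

/-- Bounded coefficients. -/
theorem bounded_bound (hk : k < n) (x : Fin k → L1 n) (hx : ∀ j, x j ∈ I0 n)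
    (hh : ∀ j, HalfMoment (x j)) (S : ℝ) :
    ∃ c : ℝ, 0 < c ∧ ∀ y : Fin n → Fin k → L1 n, ∑ i, ∑ j, ‖y i j‖ ≤ S →
      c ≤ ∑ i, ‖err x (y i) i‖ := by
  have hε : 0 < 1 / (2 * (|S| + 1)) := by positivity
  obtain ⟨B, hB, h⟩ := ineq_eps x hx hh hε
  refine ⟨1 / (2 * B), by positivity, fun y hy => ?_⟩
  have h1 := h y
  have h2 : 1 / (2 * (|S| + 1)) * ∑ i, ∑ j, ‖y i j‖ ≤ 1 / 2 := by
    have h3 : ∑ i, ∑ j, ‖y i j‖ ≤ |S| + 1 := by
      have := le_abs_self S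
      linarith
    calc 1 / (2 * (|S| + 1)) * ∑ i, ∑ j, ‖y i j‖ ≤ 1 / (2 * (|S| + 1)) * (|S| + 1) :=
          mul_le_mul_of_nonneg_left h3 hε.le
      _ = 1 / 2 := by
        have : |S| + 1 ≠ 0 := by positivity
        field_simp
  have h4 : ∑ i, trunc B (err x (y i) i) ≤ B * ∑ i, ‖err x (y i) i‖ := by
    rw [Finset.mul_sum]
    exact Finset.sum_le_sum fun i _ => trunc_le_mul hB.le _
  have h6 := one_le_sub hk
  rw [div_le_iff₀ (by positivity)]
  linarith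

/-- Generators with finite second moment. -/
theorem second_bound (hk : k < n) (x : Fin k → L1 n) (hx : ∀ j, x j ∈ I0 n)
    (h2 : ∀ j, SecondMoment (x j)) :
    ∃ c : ℝ, 0 < c ∧ ∀ y : Fin n → Fin k → L1 n,
      c ≤ √(1 + ∑ i, norm2 (y i)) * ∑ i, ‖err x (y i) i‖ := by
  obtain ⟨C, hC0, hC⟩ := final_rate x hx h2
  refine ⟨1 / (2 * C), by positivity, fun y => ?_⟩
  have h := (hC y).2 hk
  rw [div_le_iff₀ (by positivity)]
  linarith

theorem gap_bound (hk : k < n) (x : Fin k → L1 n) (hx : ∀ j, x j ∈ I0 n)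
    (h2 : ∀ j, SecondMoment (x j)) :
    ∃ w : Fin n → Fin k → L1 n, IsFox x w ∧ (∀ w', IsFox x w' → w' = w) ∧ IsBoundedOp w ∧
      (HasClosedRange w →
        (∃ c : ℝ, 0 < c ∧ ∀ y : Fin n → Fin k → L1 n, c ≤ ∑ i, ‖err x (y i) i‖) ∧
        generated x ≠ I0 n) := by
  obtain ⟨w, h3, h4, h5, h6⟩ := final_gap x hx h2
  refine ⟨w, h3, h4, h5, fun hcl => ⟨?_, (h6 hcl).2 hk⟩⟩
  obtain ⟨C, hC0, hC⟩ := (h6 hcl).1
  refine ⟨1 / C, by positivity, fun y => ?_⟩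
  have h7 := hC y
  have h8 : ∑ i, trunc C (err x (y i) i) ≤ C * ∑ i, ‖err x (y i) i‖ := by
    rw [Finset.mul_sum]
    exact Finset.sum_le_sum fun i _ => trunc_le_mul hC0.le _
  have h9 := one_le_sub hk
  rw [div_le_iff₀ hC0]
  linarith

end Pool.Agent.H64.CR
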